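import Pool.Agent.H898P.StepF

/-! Representations killing a closed ideal but not a given positive element outside it. -/

set_option autoImplicit false

noncomputable section

namespace Pool.Agent.H898P

open Pool.Agent.H898SR ComplexOrder

variable {B : Type} [CStarAlgebra B]

theorem cle_of_le_contr (y z : B) (hy : Ps y) (hz : Ps z) (h : Ps (z - y)) (ε : ℝ) (hε : 0 < ε) :
    ∃ x : B, ‖x‖ ≤ 1 ∧ ‖x * z * star x - y‖ < ε := by
  let _ := CStarAlgebra.spectralOrder B
  let _ := CStarAlgebra.spectralOrderedRing B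
  obtain ⟨δ, hδ⟩ : ∃ δ : ℝ, δ = ε / 2 := ⟨_, rfl⟩
  have hδ0 : 0 < δ := by rw [hδ]; positivity
  have hne : ∀ t : ℝ, 0 < |t| + δ := fun t => by positivity
  have hc1 : Continuous fun t : ℝ => 1 / Real.sqrt (|t| + δ) :=
    continuous_const.div (by fun_prop) fun t => (Real.sqrt_pos.2 (hne t)).ne'
  have hc2 : Continuous fun t : ℝ => Real.sqrt (δ / (|t| + δ)) :=
    Real.continuous_sqrt.comp (continuous_const.div (by fun_prop) fun t => (hne t).ne')
  obtain ⟨s, hs⟩ : ∃ s, s = cfc (fun t : ℝ => Real.sqrt t) y := ⟨_, rfl⟩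
  have hss : star s = s := by rw [hs]; exact (cfc_sa _ _).star_eq
  have hsy : s * s = y := by
    rw [hs, cm y _ _ (by fun_prop) (by fun_prop)]
    conv_rhs => rw [← cfc_i y hy.sa]
    apply cfc_congr
    intro t ht
    exact Real.mul_self_sqrt (hy.spec t ht)
  obtain ⟨r, hr⟩ : ∃ r, r = cfc (fun t : ℝ => 1 / Real.sqrt (|t| + δ)) z := ⟨_, rfl⟩
  obtain ⟨q, hq⟩ : ∃ q, q = cfc (fun t : ℝ => Real.sqrt (δ / (|t| + δ))) z := ⟨_, rfl⟩
  have hrs : star r = r := by rw [hr]; exact (cfc_sa _ _).star_eq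
  have hqs : star q = q := by rw [hq]; exact (cfc_sa _ _).star_eq
  have e1 : 1 - r * z * r = q * q := by
    rw [hr, conj_cfc z hz.sa _ hc1, hq, cm z _ _ hc2 hc2, ← cfc_const_one ℝ z hz.sa,
      ← cfc_sub (fun _ : ℝ => (1 : ℝ))
        (fun t : ℝ => 1 / Real.sqrt (|t| + δ) * t * (1 / Real.sqrt (|t| + δ))) z
        continuous_const.continuousOn ((hc1.mul continuous_id').mul hc1).continuousOn]
    apply cfc_congr
    intro t ht
    have h0 := hz.spec t ht
    have hp := hne t
    simp only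
    rw [Real.mul_self_sqrt (by positivity)]
    rw [abs_of_nonneg h0] at hp ⊢
    obtain ⟨s, hs, h3, hs0⟩ : ∃ s, s = Real.sqrt (t + δ) ∧ s * s = t + δ ∧ s ≠ 0 :=
      ⟨_, rfl, Real.mul_self_sqrt hp.le, (Real.sqrt_pos.2 hp).ne'⟩
    rw [← hs]
    have h4 : 1 / s * t * (1 / s) = t / (t + δ) := by
      rw [← h3]; field_simp
    rw [h4, eq_div_iff hp.ne', sub_mul, div_mul_cancel₀ _ hp.ne']
    ring
  have h1 : y ≤ z := by
    obtain ⟨v, hv⟩ := h
    rw [← sub_nonneg, hv]
    exact star_mul_self_nonneg v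
  have n1 : ‖s * r‖ ≤ 1 := by
    have e3 : star (s * r) * (s * r) = r * y * r := by
      rw [star_mul, hss, hrs, ← hsy]; simp only [mul_assoc]
    have e4 : r * y * r ≤ r * z * r := by
      have := star_left_conjugate_le_conjugate h1 r
      rwa [hrs] at this
    have e5 : ‖r * z * r‖ ≤ 1 := by
      rw [hr, conj_cfc z hz.sa _ hc1]
      apply norm_cfc_le zero_le_one
      intro t ht
      have h0 := hz.spec t ht
      have hp := hne t
      rw [Real.norm_eq_abs]
      rw [abs_of_nonneg h0] at hp ⊢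
      obtain ⟨s, hs, h3, hs0⟩ : ∃ s, s = Real.sqrt (t + δ) ∧ s * s = t + δ ∧ s ≠ 0 :=
        ⟨_, rfl, Real.mul_self_sqrt hp.le, (Real.sqrt_pos.2 hp).ne'⟩
      rw [← hs]
      have h4 : 1 / s * t * (1 / s) = t / (t + δ) := by
        rw [← h3]; field_simp
      rw [h4, abs_of_nonneg (by positivity), div_le_one hp]
      linarith
    have e7 : 0 ≤ r * y * r := by
      rw [← e3]; exact star_mul_self_nonneg _
    have e8 : ‖s * r‖ * ‖s * r‖ ≤ 1 := by
      rw [← CStarRing.norm_star_mul_self, e3]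
      exact (CStarAlgebra.norm_le_norm_of_nonneg_of_le e7 e4).trans e5
    by_contra hcon
    rw [not_le] at hcon
    nlinarith
  refine ⟨s * r, n1, ?_⟩
  have e2 : s * r * z * star (s * r) - y = -((s * q) * star (s * q)) := by
    rw [star_mul, star_mul, hss, hrs, hqs]
    calc _ = -(s * (1 - r * z * r) * s) := by rw [← hsy]; noncomm_ring
      _ = _ := by rw [e1]; simp only [mul_assoc]
  rw [e2, norm_neg, CStarRing.norm_self_mul_star, ← CStarRing.norm_star_mul_self]
  have e3 : star (s * q) * (s * q) = q * y * q := by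
    rw [star_mul, hss, hqs, ← hsy]; simp only [mul_assoc]
  have e4 : q * y * q ≤ q * z * q := by
    have := star_left_conjugate_le_conjugate h1 q
    rwa [hqs] at this
  have e5 : ‖q * z * q‖ ≤ δ := by
    rw [hq, conj_cfc z hz.sa _ hc2]
    apply norm_cfc_le hδ0.le
    intro t ht
    have h0 := hz.spec t ht
    have hp := hne t
    rw [Real.norm_eq_abs]
    have e6 : Real.sqrt (δ / (|t| + δ)) * t * Real.sqrt (δ / (|t| + δ)) = t * (δ / (|t| + δ)) := by
      rw [mul_comm (Real.sqrt _) t, mul_assoc, Real.mul_self_sqrt (by positivity)]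
    rw [e6, abs_of_nonneg (by positivity), mul_div_assoc', div_le_iff₀ hp, abs_of_nonneg h0]
    nlinarith [mul_pos hδ0 hδ0]
  rw [e3]
  have e7 : 0 ≤ q * y * q := by
    rw [← e3]; exact star_mul_self_nonneg _
  calc _ ≤ ‖q * z * q‖ := CStarAlgebra.norm_le_norm_of_nonneg_of_le e7 e4
    _ ≤ δ := e5
    _ < ε := by rw [hδ]; linarith


theorem mem_of_cle (K : TwoSidedIdeal B) (hK : IsClosed (K : Set B)) (a b : B) (h : Cle a b)
    (hb : b ∈ K) : a ∈ K := by
  refine mem_of_approx K hK a fun ε hε => ?_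
  obtain ⟨x, hx⟩ := h ε hε
  exact ⟨x * b * star x, K.mul_mem_right _ _ (K.mul_mem_left _ _ hb), by rwa [norm_sub_rev]⟩

theorem star_mem (K : TwoSidedIdeal B) (hK : IsClosed (K : Set B)) (x : B) (hx : x ∈ K) :
    star x ∈ K := by
  apply mem_of_star_mul K hK
  rw [star_star]
  exact K.mul_mem_right _ _ hx

/-- the closed cone `B₊ + K` -/
def cone (K : TwoSidedIdeal B) : Set B := {z | ∃ y k : B, k ∈ K ∧ z = star y * y + k}

theorem cone_convex (K : TwoSidedIdeal B) : Convex ℝ (cone K) := by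
  let _ := CStarAlgebra.spectralOrder B
  let _ := CStarAlgebra.spectralOrderedRing B
  rintro _ ⟨y, k, hk, rfl⟩ _ ⟨y', k', hk', rfl⟩ s t hs ht hst
  have h1 : 0 ≤ s • (star y * y) + t • (star y' * y') :=
    add_nonneg (smul_nonneg hs (star_mul_self_nonneg _)) (smul_nonneg ht (star_mul_self_nonneg _))
  obtain ⟨v, hv⟩ := ps_of_nonneg h1
  refine ⟨v, s • k + t • k', K.add_mem ?_ ?_, ?_⟩
  · rw [← one_mul k, ← smul_mul_assoc]
    exact K.mul_mem_left _ _ hk
  · rw [← one_mul k', ← smul_mul_assoc]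
    exact K.mul_mem_left _ _ hk'
  · rw [← hv, smul_add, smul_add]; abel

theorem not_mem_cone (K : TwoSidedIdeal B) (hK : IsClosed (K : Set B)) (b : B) (hb : Ps b)
    (hbK : b ∉ K) : -b ∉ closure (cone K) := by
  let _ := CStarAlgebra.spectralOrder B
  let _ := CStarAlgebra.spectralOrderedRing B
  intro h
  apply hbK
  refine mem_of_approx K hK b fun ε hε => ?_
  rw [Metric.mem_closure_iff] at h
  obtain ⟨z, ⟨y, k, hk, rfl⟩, hz⟩ := h (ε / 4) (by positivity)
  rw [dist_eq_norm] at hz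
  -- `b + y*y` is within `ε/4` of `-k`
  obtain ⟨q, hq⟩ : ∃ q, q = b + star y * y := ⟨_, rfl⟩
  obtain ⟨k', hk'⟩ : ∃ k', k' = -k := ⟨_, rfl⟩
  have hk'K : k' ∈ K := by rw [hk']; exact K.neg_mem hk
  have hqk : ‖q - k'‖ < ε / 4 := by
    have : q - k' = -(-b - (star y * y + k)) := by rw [hq, hk']; abel
    rw [this, norm_neg]
    exact hz
  have hqn : 0 ≤ q := by rw [hq]; exact add_nonneg (Ps.nonneg' hb) (star_mul_self_nonneg y)
  have hqP : Ps q := ps_of_nonneg hqn
  have hbq : b ≤ q := by rw [hq]; exact le_add_of_nonneg_right (star_mul_self_nonneg y)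
  obtain ⟨v, hv1, hv2⟩ := cle_of_le_contr b q hb hqP (ps_of_nonneg (sub_nonneg.2 hbq)) (ε / 4)
    (by positivity)
  refine ⟨v * k' * star v, K.mul_mem_right _ _ (K.mul_mem_left _ _ hk'K), ?_⟩
  have h1 : ‖v * (q - k') * star v‖ ≤ 1 * (ε / 4) * 1 := by
    refine (norm_mul_le _ _).trans ?_
    rw [norm_star]
    refine mul_le_mul ((norm_mul_le _ _).trans ?_) hv1 (norm_nonneg _) (by positivity)
    exact mul_le_mul hv1 hqk.le (norm_nonneg _) zero_le_one
  calc _ = ‖v * (q - k') * star v - (v * q * star v - b)‖ := by congr 1; noncomm_ring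
    _ ≤ ‖v * (q - k') * star v‖ + ‖v * q * star v - b‖ := norm_sub_le _ _
    _ < ε := by linarith

theorem exists_rep (K : TwoSidedIdeal B) (hK : IsClosed (K : Set B)) (b : B) (hb : Ps b)
    (hbK : b ∉ K) : ∃ (C : Type) (_ : CStarAlgebra C) (π : B →⋆ₐ[ℂ] C),
      (∀ k ∈ K, π k = 0) ∧ π b ≠ 0 := by
  let _ := CStarAlgebra.spectralOrder B
  let _ := CStarAlgebra.spectralOrderedRing B
  obtain ⟨f, u, hfu, hfc⟩ := RCLike.geometric_hahn_banach_point_closed (𝕜 := ℂ)
    (cone_convex K).closure isClosed_closure (not_mem_cone K hK b hb hbK)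
  have hcone : ∀ z ∈ cone K, u < (f z).re := fun z hz => hfc z (subset_closure hz)
  have h0 : (0 : B) ∈ cone K := ⟨0, 0, K.zero_mem, by simp⟩
  have hu0 : u < 0 := by simpa using hcone 0 h0
  -- `f` has nonnegative real part on the cone
  have hnn : ∀ z ∈ cone K, 0 ≤ (f z).re := by
    rintro z ⟨y, k, hk, rfl⟩
    by_contra hcon
    rw [not_le] at hcon
    obtain ⟨z, hz⟩ : ∃ z, z = star y * y + k := ⟨_, rfl⟩
    rw [← hz] at hcon
    obtain ⟨t, ht0, ht⟩ : ∃ t : ℝ, 0 < t ∧ t * (f z).re ≤ u := by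
      refine ⟨u / (f z).re, div_pos_of_neg_of_neg hu0 hcon, ?_⟩
      rw [div_mul_cancel₀ _ hcon.ne]
    have h1 : t • z ∈ cone K := by
      refine ⟨Real.sqrt t • y, t • k, ?_, ?_⟩
      · rw [← one_mul k, ← smul_mul_assoc]
        exact K.mul_mem_left _ _ hk
      · rw [hz, smul_add, star_smul, star_trivial (Real.sqrt t), smul_mul_assoc, mul_smul_comm,
          smul_smul, Real.mul_self_sqrt ht0.le]
    have h2 := hcone _ h1
    have h3 : f (t • z) = (t : ℂ) * f z := by
      have : t • z = (t : ℂ) • z := (Complex.coe_smul _ _).symm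
      rw [this, map_smul, smul_eq_mul]
    rw [h3, Complex.re_ofReal_mul] at h2
    linarith
  have hk0 : ∀ k ∈ K, (f k).re = 0 := by
    intro k hk
    have h1 := hnn k ⟨0, k, hk, by simp⟩
    have h2 := hnn (-k) ⟨0, -k, K.neg_mem hk, by simp⟩
    rw [map_neg, Complex.neg_re] at h2
    linarith
  have hkf : ∀ k ∈ K, f k = 0 := by
    intro k hk
    have h1 := hk0 k hk
    have h2 := hk0 (Complex.I • k) (by
      rw [← one_mul k, ← smul_mul_assoc]
      exact K.mul_mem_left _ _ hk)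
    rw [map_smul, smul_eq_mul, Complex.I_mul_re] at h2
    apply Complex.ext
    · simpa using h1
    · simpa using neg_eq_zero.1 h2
  -- symmetrise
  let F : B →ₗ[ℂ] ℂ :=
    { toFun := fun x => (f x + starRingEnd ℂ (f (star x))) / 2
      map_add' := by
        intro x y
        rw [star_add, map_add, map_add, map_add]; ring
      map_smul' := by
        intro c x
        rw [star_smul, map_smul, map_smul, smul_eq_mul, smul_eq_mul, map_mul]
        simp only [RingHom.id_apply, smul_eq_mul, Complex.star_def, Complex.conj_conj]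
        ring }
  have hFs : ∀ x, IsSelfAdjoint x → F x = ((f x).re : ℂ) := by
    intro x hx
    show (f x + starRingEnd ℂ (f (star x))) / 2 = _
    rw [hx.star_eq, Complex.add_conj]
    push_cast
    ring
  have hFk : ∀ k ∈ K, F k = 0 := by
    intro k hk
    show (f k + starRingEnd ℂ (f (star k))) / 2 = 0
    rw [hkf k hk, hkf _ (star_mem K hK k hk)]
    simp
  let G : B →ₚ[ℂ] ℂ := PositiveLinearMap.mk₀ F (by
    intro x hx
    rw [hFs x (IsSelfAdjoint.of_nonneg hx)]
    obtain ⟨y, rfl⟩ := ps_of_nonneg hx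
    have := hnn _ ⟨y, 0, K.zero_mem, (add_zero _).symm⟩
    exact_mod_cast this)
  refine ⟨G.GNS →L[ℂ] G.GNS, inferInstance, G.gnsStarAlgHom, ?_, ?_⟩
  · intro k hk
    have hz : ∀ x : G.PreGNS, ((G.leftMulMapPreGNS k x : G.PreGNS) : G.GNS) = 0 := by
      intro x
      rw [← norm_eq_zero, UniformSpace.Completion.norm_coe]
      have h1 : ‖G.leftMulMapPreGNS k x‖ ^ 2 = 0 := by
        have h2 := G.preGNS_norm_sq (G.leftMulMapPreGNS k x)
        have h3 : G (star (G.ofPreGNS (G.leftMulMapPreGNS k x)) *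
            G.ofPreGNS (G.leftMulMapPreGNS k x)) = 0 := by
          have h4 : G.ofPreGNS (G.leftMulMapPreGNS k x) = k * G.ofPreGNS x := rfl
          rw [h4]
          exact hFk _ (K.mul_mem_left _ _ (K.mul_mem_right _ _ hk))
        rw [h3] at h2
        exact_mod_cast h2
      exact pow_eq_zero_iff (two_ne_zero) |>.1 h1
    ext c
    induction c using UniformSpace.Completion.induction_on with
    | hp => exact isClosed_eq (by fun_prop) (by fun_prop)
    | ih x =>
      have h1 : G.gnsStarAlgHom k (x : G.GNS) = ((G.leftMulMapPreGNS k x : G.PreGNS) : G.GNS) :=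
        G.gnsNonUnitalStarAlgHom_apply_coe
      rw [h1, hz]
      rfl
  · intro h
    have h1 : G.gnsStarAlgHom b ((G.toPreGNS 1 : G.PreGNS) : G.GNS) =
        ((G.leftMulMapPreGNS b (G.toPreGNS 1) : G.PreGNS) : G.GNS) :=
      G.gnsNonUnitalStarAlgHom_apply_coe
    rw [h] at h1
    have h2 : ((G.leftMulMapPreGNS b (G.toPreGNS 1) : G.PreGNS) : G.GNS) = 0 := by
      rw [← h1]; rfl
    have h3 : ‖G.leftMulMapPreGNS b (G.toPreGNS 1)‖ = 0 := by
      rw [← UniformSpace.Completion.norm_coe, h2, norm_zero]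
    have h4 : inner ℂ (G.toPreGNS 1) (G.leftMulMapPreGNS b (G.toPreGNS 1)) = 0 := by
      have := norm_inner_le_norm (𝕜 := ℂ) (G.toPreGNS 1) (G.leftMulMapPreGNS b (G.toPreGNS 1))
      rw [h3, mul_zero] at this
      exact norm_le_zero_iff.1 this
    have h5 : inner ℂ (G.toPreGNS 1) (G.leftMulMapPreGNS b (G.toPreGNS 1)) = G b := by
      rw [G.preGNS_inner_def]
      have : G.ofPreGNS (G.leftMulMapPreGNS b (G.toPreGNS 1)) = b * 1 := rfl
      rw [this, G.ofPreGNS_toPreGNS, star_one, one_mul, mul_one]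
    have h6 : G b = ((f b).re : ℂ) := hFs b hb.sa
    rw [h5, h6] at h4
    have h7 : (f b).re = 0 := by exact_mod_cast h4
    rw [map_neg] at hfu
    have h8 : -(f b).re < u := hfu
    linarith

end Pool.Agent.H898P
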