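import Pool.Agent.H898SR.Base

/-! Purely infinite C*-algebras: a square-zero element in every nonzero ideal. -/

set_option autoImplicit false

noncomputable section

namespace Pool.Agent.H898P

open Pool.Agent.H898SR

variable {A : Type} [CStarAlgebra A]

/-- `a` lies in the closed two-sided ideal generated by `b` -/
def InId (a b : A) : Prop := ∀ I : TwoSidedIdeal A, IsClosed (I : Set A) → b ∈ I → a ∈ I

/-- Cuntz subequivalence -/
def Cle (a b : A) : Prop := ∀ ε : ℝ, 0 < ε → ∃ x : A, ‖x * b * star x - a‖ < ε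

/-- purely infinite in the sense of Kirchberg and Rørdam -/
def PI (A : Type) [CStarAlgebra A] : Prop :=
  (∀ I : TwoSidedIdeal A, IsClosed (I : Set A) → (∀ x y : A, x * y - y * x ∈ I) → I = ⊤) ∧
  ∀ a b : A, (∃ y, a = star y * y) → (∃ y, b = star y * y) → InId a b → Cle a b

theorem mem_of_approx (I : TwoSidedIdeal A) (hI : IsClosed (I : Set A)) (x : A)
    (h : ∀ ε : ℝ, 0 < ε → ∃ z ∈ I, ‖x - z‖ < ε) : x ∈ I := by
  have h1 : x ∈ closure (I : Set A) := by
    rw [Metric.mem_closure_iff]
    intro ε hε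
    obtain ⟨z, hz, hn⟩ := h ε hε
    exact ⟨z, hz, by rwa [dist_eq_norm]⟩
  rwa [hI.closure_eq] at h1

theorem cfc_i (x : A) (hx : IsSelfAdjoint x) : cfc (fun t : ℝ => t) x = x := cfc_id' ℝ x hx

theorem nrm_mul_cfc (x : A) (g : ℝ → ℝ) (hg : Continuous g) (C : ℝ) (hC : 0 ≤ C)
    (h : ∀ t, 0 ≤ t → |g t * t * g t| ≤ C) :
    ‖x * cfc g (star x * x)‖ * ‖x * cfc g (star x * x)‖ ≤ C := by
  rw [← CStarRing.norm_star_mul_self]
  have e : star (x * cfc g (star x * x)) * (x * cfc g (star x * x)) =
      cfc (fun t => g t * t * g t) (star x * x) := by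
    rw [star_mul, (cfc_sa g _).star_eq]
    calc _ = cfc g (star x * x) * (star x * x) * cfc g (star x * x) := by simp only [mul_assoc]
      _ = cfc g (star x * x) * cfc (fun t : ℝ => t) (star x * x) * cfc g (star x * x) := by
        rw [cfc_i (star x * x) (IsSelfAdjoint.star_mul_self x)]
      _ = _ := by
        rw [cm _ _ _ hg continuous_id', cm _ (fun t => g t * t) g (hg.mul continuous_id') hg]
  rw [e]
  apply norm_cfc_le hC
  intro t ht
  rw [Real.norm_eq_abs]
  exact h t (spec_nn x t ht)

theorem mem_of_star_mul (I : TwoSidedIdeal A) (hI : IsClosed (I : Set A)) (x : A)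
    (h : star x * x ∈ I) : x ∈ I := by
  refine mem_of_approx I hI x fun ε hε => ?_
  obtain ⟨δ, hδ⟩ : ∃ δ : ℝ, δ = ε ^ 2 / 4 := ⟨_, rfl⟩
  have hδ0 : 0 < δ := by rw [hδ]; positivity
  have hne : ∀ t : ℝ, |t| + δ ≠ 0 := fun t => by positivity
  have hc1 : Continuous fun t : ℝ => 1 / (|t| + δ) :=
    continuous_const.div (by fun_prop) hne
  have hc2 : Continuous fun t : ℝ => t * (1 / (|t| + δ)) := continuous_id'.mul hc1
  have hc3 : Continuous fun t : ℝ => 1 - t * (1 / (|t| + δ)) := continuous_const.sub hc2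
  refine ⟨x * cfc (fun t : ℝ => t * (1 / (|t| + δ))) (star x * x), ?_, ?_⟩
  · apply I.mul_mem_left
    rw [← cm _ _ _ continuous_id' hc1, cfc_i _ (IsSelfAdjoint.star_mul_self x)]
    exact I.mul_mem_right _ _ h
  · have e : x - x * cfc (fun t : ℝ => t * (1 / (|t| + δ))) (star x * x) =
        x * cfc (fun t : ℝ => 1 - t * (1 / (|t| + δ))) (star x * x) := by
      rw [cfc_sub (fun _ : ℝ => (1 : ℝ)) (fun t : ℝ => t * (1 / (|t| + δ))) _
        continuous_const.continuousOn hc2.continuousOn, cfc_const_one ℝ (star x * x) (IsSelfAdjoint.star_mul_self x), mul_sub, mul_one]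
    rw [e]
    have h2 := nrm_mul_cfc x (fun t : ℝ => 1 - t * (1 / (|t| + δ))) hc3 δ hδ0.le (by
      intro t ht
      have e1 : (1 - t * (1 / (|t| + δ))) = δ / (t + δ) := by
        rw [abs_of_nonneg ht]; field_simp; ring
      rw [e1, abs_of_nonneg (by positivity), div_mul_eq_mul_div, div_mul_div_comm,
        div_le_iff₀ (by positivity)]
      nlinarith [mul_nonneg ht hδ0.le, mul_nonneg (mul_nonneg ht ht) hδ0.le,
        mul_pos hδ0 hδ0, mul_pos (mul_pos hδ0 hδ0) hδ0])
    by_contra hcon
    rw [not_lt] at hcon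
    have h3 : ε * ε ≤ δ := (mul_self_le_mul_self hε.le hcon).trans h2
    rw [hδ] at h3
    nlinarith

/-- staircase function -/
def P (δ : ℝ) (k : ℕ) (t : ℝ) : ℝ := max 0 (min 1 (t / δ - k + 1))

theorem P_cont (δ : ℝ) (k : ℕ) : Continuous (P δ k) := by
  unfold P; fun_prop

theorem P_nn (δ : ℝ) (k : ℕ) (t : ℝ) : 0 ≤ P δ k t := le_max_left _ _

theorem P_le (δ : ℝ) (k : ℕ) (t : ℝ) : P δ k t ≤ 1 := max_le zero_le_one (min_le_left _ _)

theorem P_zero (δ : ℝ) (hδ : 0 < δ) (t : ℝ) (ht : 0 ≤ t) : P δ 0 t = 1 := by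
  unfold P
  have : 0 ≤ t / δ := by positivity
  rw [min_eq_left (by push_cast; linarith), max_eq_right zero_le_one]

theorem P_mul (δ : ℝ) (k : ℕ) (t : ℝ) : P δ k t * P δ (k + 1) t = P δ (k + 1) t := by
  by_cases h : P δ (k + 1) t = 0
  · rw [h, mul_zero]
  · have h1 : 0 < t / δ - (k + 1 : ℕ) + 1 := by
      by_contra hc
      apply h
      unfold P
      rw [not_lt] at hc
      rw [max_eq_left]
      exact (min_le_right _ _).trans hc
    have h2 : P δ k t = 1 := by
      unfold P
      push_cast at h1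
      rw [min_eq_left (by linarith), max_eq_right zero_le_one]
    rw [h2, one_mul]

theorem P_anti (δ : ℝ) (k : ℕ) (t : ℝ) : P δ (k + 1) t ≤ P δ k t := by
  unfold P
  apply max_le_max le_rfl
  apply min_le_min le_rfl
  push_cast
  linarith

theorem P_sum (δ : ℝ) (hδ : 0 < δ) (t : ℝ) (ht : 0 ≤ t) (N : ℕ) :
    ∑ k ∈ Finset.range N, P δ (k + 1) t = min (t / δ) N := by
  have h0 : 0 ≤ t / δ := by positivity
  induction N with
  | zero => simp [h0]
  | succ n ih =>
    rw [Finset.sum_range_succ, ih]
    unfold P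
    push_cast
    rcases le_total (t / δ) n with h | h
    · rw [min_eq_left h, min_eq_left (h.trans (by linarith)), max_eq_left, add_zero]
      exact (min_le_right _ _).trans (by linarith)
    · rw [min_eq_right h]
      rcases le_total (t / δ) (n + 1) with h2 | h2
      · rw [min_eq_left h2, min_eq_right (by linarith), max_eq_right (by linarith)]
        ring
      · rw [min_eq_right h2, min_eq_left (by linarith), max_eq_right zero_le_one]

theorem P_one (δ : ℝ) (hδ : 0 < δ) (t : ℝ) (ht : 0 ≤ t) : P δ 1 t = t * (1 / max δ t) := by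
  unfold P
  push_cast
  rw [sub_add_cancel]
  have h0 : 0 ≤ t / δ := by positivity
  rcases le_total δ t with h | h
  · rw [max_eq_right h, min_eq_left ((one_le_div hδ).2 h), max_eq_right zero_le_one]
    have : t ≠ 0 := (hδ.trans_le h).ne'
    field_simp
  · rw [max_eq_left h, min_eq_right ((div_le_one hδ).2 h), max_eq_right h0]
    ring

theorem norm_le_of_pm (T : A) (hT : IsSelfAdjoint T) (C : ℝ) (hC : 0 ≤ C)
    (h1 : Ps (C • (1 : A) - T)) (h2 : Ps (C • (1 : A) + T)) : ‖T‖ ≤ C := by
  let _ := CStarAlgebra.spectralOrder A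
  let _ := CStarAlgebra.spectralOrderedRing A
  obtain ⟨y1, h1⟩ := h1
  obtain ⟨y2, h2⟩ := h2
  have h3 : T ≤ algebraMap ℝ A C := by
    rw [← sub_nonneg, Algebra.algebraMap_eq_smul_one, h1]
    exact star_mul_self_nonneg _
  have h4 : algebraMap ℝ A (-C) ≤ T := by
    rw [← sub_nonneg, Algebra.algebraMap_eq_smul_one, neg_smul, sub_neg_eq_add, add_comm, h2]
    exact star_mul_self_nonneg _
  rw [le_algebraMap_iff_spectrum_le hT] at h3
  rw [algebraMap_le_iff_le_spectrum hT] at h4
  rw [← cfc_i T hT]
  apply norm_cfc_le hC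
  intro t ht
  rw [Real.norm_eq_abs, abs_le]
  exact ⟨h4 t ht, h3 t ht⟩

theorem Ps.nonneg' {x : A} [PartialOrder A] [StarOrderedRing A] (h : Ps x) : 0 ≤ x := by
  obtain ⟨y, rfl⟩ := h
  exact star_mul_self_nonneg y

theorem ps_of_nonneg {x : A} [PartialOrder A] [StarOrderedRing A] (h : 0 ≤ x) : Ps x := by
  obtain ⟨y, hy⟩ := CStarAlgebra.nonneg_iff_eq_star_mul_self.1 h
  exact ⟨y, hy⟩

theorem central_skew (h : A) (hh : Ps h)
    (H1 : ∀ δ : ℝ, 0 < δ → ∀ (k : ℕ) (y : A), (1 - cfc (P δ k) h) * y * cfc (P δ (k + 1)) h = 0)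
    (H2 : ∀ δ : ℝ, 0 < δ → ∀ (k : ℕ) (y : A), cfc (P δ (k + 1)) h * y * (1 - cfc (P δ k) h) = 0)
    (y : A) (hy : star y = -y) : h * y = y * h := by
  let _ := CStarAlgebra.spectralOrder A
  let _ := CStarAlgebra.spectralOrderedRing A
  rcases subsingleton_or_nontrivial A with hs | hs
  · exact Subsingleton.elim _ _
  have key : ∀ δ : ℝ, 0 < δ → ‖h * y - y * h‖ ≤ δ * (1 + ‖y‖ ^ 2) := by
    intro δ hδ
    obtain ⟨N, hN⟩ := exists_nat_ge (‖h‖ / δ)
    set p : ℕ → A := fun k => cfc (P δ k) h with hp
    set q : ℕ → A := fun k => p k - p (k + 1) with hq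
    have psa : ∀ k, star (p k) = p k := fun k => (cfc_sa _ _).star_eq
    have qsa : ∀ k, star (q k) = q k := fun k => by simp only [hq, star_sub, psa]
    have ph : h = δ • ∑ k ∈ Finset.range N, p (k + 1) := by
      have e1 : ∑ k ∈ Finset.range N, p (k + 1) =
          cfc (fun t => ∑ k ∈ Finset.range N, P δ (k + 1) t) h := by
        have := cfc_sum (fun k => P δ (k + 1)) h (Finset.range N)
          (fun k _ => (P_cont δ (k + 1)).continuousOn)
        simp only [hp]
        rw [← this]
        congr 1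
        funext t
        simp [Finset.sum_apply]
      rw [e1, ← cfc_smul δ _ h (by
        apply Continuous.continuousOn
        exact continuous_finsetSum _ fun k _ => P_cont δ (k + 1))]
      conv_lhs => rw [← cfc_i h hh.sa]
      apply cfc_congr
      intro t ht
      have h0 := hh.spec t ht
      have h1 : t ≤ ‖h‖ := (le_abs_self t).trans (spectrum.norm_le_norm_of_mem ht)
      simp only
      rw [P_sum δ hδ t h0, min_eq_left ((div_le_div_of_nonneg_right h1 hδ.le).trans hN),
        smul_eq_mul]
      field_simp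
    have a1 : ∀ (k : ℕ), y * p (k + 1) = p k * y * p (k + 1) := by
      intro k
      have := H1 δ hδ k y
      rw [sub_mul, sub_mul, one_mul, sub_eq_zero] at this
      exact this
    have a2 : ∀ (k : ℕ), p (k + 1) * y = p (k + 1) * y * p k := by
      intro k
      have := H2 δ hδ k y
      rw [mul_sub, mul_one, sub_eq_zero] at this
      exact this
    have pm : ∀ k, p k * p (k + 1) = p (k + 1) := by
      intro k
      simp only [hp]
      rw [cm _ _ _ (P_cont δ k) (P_cont δ (k + 1))]
      congr 1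
      funext t
      exact P_mul δ k t
    have pm' : ∀ k, p (k + 1) * p k = p (k + 1) := by
      intro k
      have := congrArg star (pm k)
      rwa [star_mul, psa, psa] at this
    have z1 : ∀ k, p (k + 1 + 1) * y * q k = 0 := by
      intro k
      have e1 : p (k + 1 + 1) * y * p k = p (k + 1 + 1) * y * p (k + 1) := by
        have e2 := a2 (k + 1)
        calc p (k + 1 + 1) * y * p k = p (k + 1 + 1) * y * p (k + 1) * p k := by rw [← e2]
          _ = p (k + 1 + 1) * y * (p (k + 1) * p k) := by simp only [mul_assoc]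
          _ = _ := by rw [pm']
      simp only [hq]
      rw [mul_sub, e1, sub_self]
    have z2 : ∀ k, q k * y * p (k + 1 + 1) = 0 := by
      intro k
      have e1 : p k * y * p (k + 1 + 1) = p (k + 1) * y * p (k + 1 + 1) := by
        have e2 := a1 (k + 1)
        calc p k * y * p (k + 1 + 1) = p k * (y * p (k + 1 + 1)) := by simp only [mul_assoc]
          _ = p k * (p (k + 1) * y * p (k + 1 + 1)) := by rw [← e2]
          _ = p k * p (k + 1) * y * p (k + 1 + 1) := by simp only [mul_assoc]
          _ = _ := by rw [pm]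
      simp only [hq]
      rw [sub_mul, sub_mul, e1, sub_self]
    have tk : ∀ k, p (k + 1) * y - y * p (k + 1) = q (k + 1) * y * q k - q k * y * q (k + 1) := by
      intro k
      have e1 : q (k + 1) * y * q k = p (k + 1) * y * q k := by
        have := z1 k
        calc q (k + 1) * y * q k = p (k + 1) * y * q k - p (k + 1 + 1) * y * q k := by
              simp only [hq, sub_mul, mul_sub]; abel
          _ = _ := by rw [this, sub_zero]
      have e2 : q k * y * q (k + 1) = q k * y * p (k + 1) := by
        have := z2 k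
        calc q k * y * q (k + 1) = q k * y * p (k + 1) - q k * y * p (k + 1 + 1) := by
              simp only [hq, sub_mul, mul_sub]
          _ = _ := by rw [this, sub_zero]
      rw [e1, e2]
      simp only [hq]
      rw [mul_sub, sub_mul, sub_mul, ← a2 k, ← a1 k]
      abel
    have hT : h * y - y * h = δ • ∑ k ∈ Finset.range N,
        (q (k + 1) * y * q k - q k * y * q (k + 1)) := by
      rw [Finset.sum_congr rfl fun k _ => (tk k).symm, Finset.sum_sub_distrib, ← Finset.sum_mul,
        ← Finset.mul_sum, smul_sub, ← smul_mul_assoc, ← mul_smul_comm, ← ph]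
    set T := ∑ k ∈ Finset.range N, (q (k + 1) * y * q k - q k * y * q (k + 1)) with hTdef
    have hTs : IsSelfAdjoint T := by
      rw [IsSelfAdjoint, hTdef, star_sum]
      refine Finset.sum_congr rfl fun k _ => ?_
      rw [star_sub, star_mul, star_mul, star_mul, star_mul, qsa, qsa, hy]
      noncomm_ring
    have qq : ∀ k, q k * q k ≤ q k := by
      intro k
      have e1 : q k = cfc (fun t => P δ k t - P δ (k + 1) t) h := by
        simp only [hq, hp]
        rw [cfc_sub _ _ _ (P_cont δ k).continuousOn (P_cont δ (k + 1)).continuousOn]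
      rw [e1, cm _ (fun t => P δ k t - P δ (k + 1) t) (fun t => P δ k t - P δ (k + 1) t)
        ((P_cont δ k).sub (P_cont δ (k + 1))) ((P_cont δ k).sub (P_cont δ (k + 1)))]
      apply cfc_mono
      · intro t ht
        have := P_nn δ (k + 1) t
        have := P_anti δ k t
        have := P_le δ k t
        nlinarith
      · exact (((P_cont δ k).sub (P_cont δ (k + 1))).mul
          ((P_cont δ k).sub (P_cont δ (k + 1)))).continuousOn
      · exact ((P_cont δ k).sub (P_cont δ (k + 1))).continuousOn
    have p0 : p 0 = 1 := by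
      simp only [hp]
      rw [← cfc_const_one ℝ h hh.sa]
      apply cfc_congr
      intro t ht
      exact P_zero δ hδ t (hh.spec t ht)
    have pn : ∀ k, 0 ≤ p k := fun k => cfc_nonneg fun t _ => P_nn δ k t
    have p1 : ∀ k, p k ≤ 1 := fun k => cfc_le_one _ _ fun t _ => P_le δ k t
    have s1 : ∑ k ∈ Finset.range N, q k * q k ≤ 1 := by
      calc ∑ k ∈ Finset.range N, q k * q k ≤ ∑ k ∈ Finset.range N, q k :=
            Finset.sum_le_sum fun k _ => qq k
        _ = p 0 - p N := by
            simp only [hq]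
            exact Finset.sum_range_sub' p N
        _ ≤ 1 := by rw [p0]; exact sub_le_self _ (pn N)
    have s2 : ∑ k ∈ Finset.range N, q (k + 1) * q (k + 1) ≤ 1 := by
      calc ∑ k ∈ Finset.range N, q (k + 1) * q (k + 1) ≤ ∑ k ∈ Finset.range N, q (k + 1) :=
            Finset.sum_le_sum fun k _ => qq (k + 1)
        _ = p 1 - p (N + 1) := by
            simp only [hq]
            exact Finset.sum_range_sub' (fun k => p (k + 1)) N
        _ ≤ 1 := (sub_le_self _ (pn (N + 1))).trans (p1 1)
    have yy : star y * y ≤ (‖y‖ ^ 2) • (1 : A) := by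
      have h1 := CStarAlgebra.star_mul_le_algebraMap_norm_sq (A := A) (a := y)
      rwa [Algebra.algebraMap_eq_smul_one] at h1
    have bd : ∑ k ∈ Finset.range N, (q (k + 1) * q (k + 1) + q k * (star y * y) * q k) ≤
        (1 + ‖y‖ ^ 2) • (1 : A) := by
      rw [Finset.sum_add_distrib, add_smul, one_smul]
      apply add_le_add s2
      calc ∑ k ∈ Finset.range N, q k * (star y * y) * q k ≤
          ∑ k ∈ Finset.range N, (‖y‖ ^ 2) • (q k * q k) := by
            apply Finset.sum_le_sum
            intro k _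
            have h1 := star_left_conjugate_le_conjugate yy (q k)
            rw [qsa] at h1
            refine h1.trans (le_of_eq ?_)
            rw [mul_smul_comm, mul_one, smul_mul_assoc]
        _ = (‖y‖ ^ 2) • ∑ k ∈ Finset.range N, q k * q k := by rw [Finset.smul_sum]
        _ ≤ _ := smul_le_smul_of_nonneg_left s1 (by positivity)
    have t1 : T ≤ (1 + ‖y‖ ^ 2) • (1 : A) := by
      refine le_trans ?_ bd
      rw [hTdef]
      apply Finset.sum_le_sum
      intro k _
      have h1 : 0 ≤ star (q (k + 1) - y * q k) * (q (k + 1) - y * q k) := star_mul_self_nonneg _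
      rw [← sub_nonneg]
      refine h1.trans (le_of_eq ?_)
      rw [star_sub, star_mul, qsa, qsa, hy]
      noncomm_ring
    have t2 : -T ≤ (1 + ‖y‖ ^ 2) • (1 : A) := by
      refine le_trans ?_ bd
      rw [hTdef, ← Finset.sum_neg_distrib]
      apply Finset.sum_le_sum
      intro k _
      have h1 : 0 ≤ star (q (k + 1) + y * q k) * (q (k + 1) + y * q k) := star_mul_self_nonneg _
      rw [← sub_nonneg]
      refine h1.trans (le_of_eq ?_)
      rw [star_add, star_mul, qsa, qsa, hy]
      noncomm_ring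
    have hn : ‖T‖ ≤ 1 + ‖y‖ ^ 2 := by
      apply norm_le_of_pm T hTs _ (by positivity)
      · exact ps_of_nonneg (sub_nonneg.2 t1)
      · apply ps_of_nonneg
        rw [← sub_neg_eq_add]
        exact sub_nonneg.2 t2
    rw [hT, norm_smul, Real.norm_of_nonneg hδ.le]
    exact mul_le_mul_of_nonneg_left hn hδ.le
  rw [← sub_eq_zero, ← norm_le_zero_iff]
  apply le_of_forall_pos_le_add
  intro ε hε
  rw [zero_add]
  have h1 := key (ε / (1 + ‖y‖ ^ 2)) (by positivity)
  rwa [div_mul_cancel₀ _ (by positivity)] at h1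

end Pool.Agent.H898P
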