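import Pool.Agent.H898P.StepA

/-! Purely infinite C*-algebras: properly infinite elements. -/

set_option autoImplicit false

noncomputable section

namespace Pool.Agent.H898P

open Pool.Agent.H898SR

variable {A : Type} [CStarAlgebra A]

theorem mul_cfc' (a : A) (ha : IsSelfAdjoint a) (g : ℝ → ℝ) (hg : Continuous g) :
    a * cfc g a = cfc (fun t => t * g t) a := by
  have := cm a (fun t => t) g continuous_id' hg
  rwa [cfc_i a ha] at this

theorem conj_cfc (a : A) (ha : IsSelfAdjoint a) (g : ℝ → ℝ) (hg : Continuous g) :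
    cfc g a * a * cfc g a = cfc (fun t => g t * t * g t) a := by
  have h1 := cm a g (fun t => t) hg continuous_id'
  rw [cfc_i a ha] at h1
  rw [h1, cm a (fun t => g t * t) g (hg.mul continuous_id') hg]

theorem conj_cfc2 (a : A) (ha : IsSelfAdjoint a) (g : ℝ → ℝ) (hg : Continuous g) :
    cfc g a * (a * a) * cfc g a = cfc (fun t => g t * (t * t) * g t) a := by
  have h0 := cm a (fun t => t) (fun t => t) continuous_id' continuous_id'
  rw [cfc_i a ha] at h0
  have hc : Continuous fun t : ℝ => t * t := by fun_prop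
  rw [h0, cm a g (fun t => t * t) hg hc, cm a (fun t => g t * (t * t)) g (hg.mul hc) hg]

theorem cfc_sub_self (a : A) (ha : IsSelfAdjoint a) (F : ℝ → ℝ) (hF : Continuous F) :
    cfc F a - a = cfc (fun t => F t - t) a := by
  rw [cfc_sub F (fun t => t) a hF.continuousOn continuous_id'.continuousOn, cfc_i a ha]

theorem pk_mem (I : TwoSidedIdeal A) (h : A) (hh : Ps h) (hI : h ∈ I) (δ : ℝ) (hδ : 0 < δ)
    (k : ℕ) : cfc (P δ (k + 1)) h ∈ I := by
  induction k with
  | zero =>
    have hc : Continuous fun t : ℝ => 1 / max δ t :=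
      continuous_const.div (by fun_prop) fun t => (lt_max_of_lt_left hδ).ne'
    have e : cfc (P δ 1) h = h * cfc (fun t : ℝ => 1 / max δ t) h := by
      rw [mul_cfc' h hh.sa _ hc]
      apply cfc_congr
      intro t ht
      exact P_one δ hδ t (hh.spec t ht)
    rw [zero_add, e]
    exact I.mul_mem_right _ _ hI
  | succ n ih =>
    have e : cfc (P δ (n + 1 + 1)) h = cfc (P δ (n + 1)) h * cfc (P δ (n + 1 + 1)) h := by
      rw [cm _ _ _ (P_cont δ _) (P_cont δ _)]
      congr 1
      funext t
      exact (P_mul δ (n + 1) t).symm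
    rw [e]
    exact I.mul_mem_right _ _ ih

theorem central_of_nil (a₀ : A) (hnil : ∀ z : A, z * z = 0 → InId z a₀ → z = 0) (h : A)
    (hh : Ps h) (hI : InId h a₀) (y : A) : h * y = y * h := by
  have pm : ∀ (δ : ℝ) (k : ℕ), cfc (P δ k) h * cfc (P δ (k + 1)) h = cfc (P δ (k + 1)) h := by
    intro δ k
    rw [cm _ _ _ (P_cont δ k) (P_cont δ (k + 1))]
    congr 1
    funext t
    exact P_mul δ k t
  have pm' : ∀ (δ : ℝ) (k : ℕ), cfc (P δ (k + 1)) h * cfc (P δ k) h = cfc (P δ (k + 1)) h := by
    intro δ k
    have := congrArg star (pm δ k)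
    rwa [star_mul, (cfc_sa _ _).star_eq, (cfc_sa _ _).star_eq] at this
  have H1 : ∀ δ : ℝ, 0 < δ → ∀ (k : ℕ) (y : A),
      (1 - cfc (P δ k) h) * y * cfc (P δ (k + 1)) h = 0 := by
    intro δ hδ k y
    apply hnil
    · have e : cfc (P δ (k + 1)) h * (1 - cfc (P δ k) h) = 0 := by
        rw [mul_sub, mul_one, pm', sub_self]
      calc _ = (1 - cfc (P δ k) h) * y * (cfc (P δ (k + 1)) h * (1 - cfc (P δ k) h)) * y *
            cfc (P δ (k + 1)) h := by simp only [mul_assoc]
        _ = 0 := by rw [e, mul_zero, zero_mul, zero_mul]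
    · intro I hIc ha
      exact I.mul_mem_left _ _ (pk_mem I h hh (hI I hIc ha) δ hδ k)
  have H2 : ∀ δ : ℝ, 0 < δ → ∀ (k : ℕ) (y : A),
      cfc (P δ (k + 1)) h * y * (1 - cfc (P δ k) h) = 0 := by
    intro δ hδ k y
    have := congrArg star (H1 δ hδ k (star y))
    rw [star_mul, star_mul, star_star, star_sub, star_one, (cfc_sa _ _).star_eq,
      (cfc_sa _ _).star_eq, star_zero, ← mul_assoc] at this
    exact this
  have hs := central_skew h hh H1 H2
  have e1 := hs (y - star y) (by rw [star_sub, star_star]; abel)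
  have e2 := hs (Complex.I • (y + star y)) (by
    rw [star_smul, star_add, star_star, Complex.star_def, Complex.conj_I, neg_smul, add_comm])
  rw [mul_smul_comm, smul_mul_assoc] at e2
  have e3 : h * (y + star y) = (y + star y) * h := by
    have := congrArg (fun z => (-Complex.I) • z) e2
    simpa [smul_smul] using this
  have e4 : (2 : ℂ) • (h * y) = (2 : ℂ) • (y * h) := by
    have e5 : h * (y - star y) + h * (y + star y) = (y - star y) * h + (y + star y) * h := by
      rw [e1, e3]
    have e6 : h * (y - star y) + h * (y + star y) = (2 : ℂ) • (h * y) := by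
      rw [two_smul]; noncomm_ring
    have e7 : (y - star y) * h + (y + star y) * h = (2 : ℂ) • (y * h) := by
      rw [two_smul]; noncomm_ring
    rw [← e6, ← e7, e5]
  exact smul_right_injective A (two_ne_zero (α := ℂ)) e4

/-- a nonzero square-zero element in every nonzero ideal -/
theorem exists_nil (hA : PI A) (a₀ : A) (h0 : Ps a₀) (hne : a₀ ≠ 0) :
    ∃ x : A, x ≠ 0 ∧ x * x = 0 ∧ InId x a₀ := by
  by_contra hcon
  push Not at hcon
  have hnil : ∀ z : A, z * z = 0 → InId z a₀ → z = 0 := by
    intro z hz hI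
    by_contra hz0
    exact hcon z hz0 hz hI
  have hc := central_of_nil a₀ hnil
  have hc0 : ∀ y, a₀ * y = y * a₀ := hc a₀ h0 fun I _ h => h
  -- conjugates are central
  have hcw : ∀ w y : A, (w * a₀ * star w) * y = y * (w * a₀ * star w) := by
    intro w y
    apply hc
    · obtain ⟨v, hv⟩ := h0
      exact ⟨v * star w, by rw [hv, star_mul, star_star]; simp only [mul_assoc]⟩
    · intro I _ h
      exact I.mul_mem_right _ _ (I.mul_mem_left _ _ h)
  have hcx : ∀ x y : A, (x * a₀) * y = y * (x * a₀) := by
    intro x y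
    have e : ∀ x : A, (4 : ℂ) • (x * a₀) = (x + 1) * a₀ * star (x + 1) -
        (x - 1) * a₀ * star (x - 1) + Complex.I • ((x + Complex.I • 1) * a₀ *
          star (x + Complex.I • 1)) - Complex.I • ((x - Complex.I • 1) * a₀ *
          star (x - Complex.I • 1)) := by
      intro x
      have h4 : (4 : ℂ) • (x * a₀) = x * a₀ + x * a₀ + x * a₀ + x * a₀ := by
        rw [show (4 : ℂ) = 1 + 1 + 1 + 1 by norm_num]
        simp only [add_smul, one_smul]
      rw [h4]
      simp only [star_add, star_sub, star_one, star_smul, Complex.star_def, Complex.conj_I,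
        add_mul, sub_mul, mul_add, mul_sub, one_mul, mul_one, smul_mul_assoc, mul_smul_comm,
        smul_add, smul_sub, smul_smul, neg_smul, smul_neg, Complex.I_mul_I,
        mul_neg, one_smul]
      abel
    have e2 : ((4 : ℂ) • (x * a₀)) * y = y * ((4 : ℂ) • (x * a₀)) := by
      rw [e]
      have c1 := hcw (x + 1) y
      have c2 := hcw (x - 1) y
      have c3 := hcw (x + Complex.I • 1) y
      have c4 := hcw (x - Complex.I • 1) y
      generalize (x + 1) * a₀ * star (x + 1) = W1 at c1 ⊢
      generalize (x - 1) * a₀ * star (x - 1) = W2 at c2 ⊢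
      generalize (x + Complex.I • 1) * a₀ * star (x + Complex.I • 1) = W3 at c3 ⊢
      generalize (x - Complex.I • 1) * a₀ * star (x - Complex.I • 1) = W4 at c4 ⊢
      rw [sub_mul, add_mul, sub_mul, mul_sub, mul_add, mul_sub, smul_mul_assoc, smul_mul_assoc,
        mul_smul_comm, mul_smul_comm, c1, c2, c3, c4]
    rw [smul_mul_assoc, mul_smul_comm] at e2
    exact smul_right_injective A (by norm_num : (4 : ℂ) ≠ 0) e2
  set N : TwoSidedIdeal A := TwoSidedIdeal.mk' {z : A | z * a₀ = 0} (by simp)
    (by
      intro x y hx hy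
      simp only [Set.mem_ofPred_eq] at *
      rw [add_mul, hx, hy, add_zero])
    (by
      intro x hx
      simp only [Set.mem_ofPred_eq] at *
      rw [neg_mul, hx, neg_zero])
    (by
      intro x y hy
      simp only [Set.mem_ofPred_eq] at *
      rw [mul_assoc, hy, mul_zero])
    (by
      intro x y hx
      simp only [Set.mem_ofPred_eq] at *
      rw [mul_assoc, ← hc0, ← mul_assoc, hx, zero_mul]) with hN
  have hNc : IsClosed (N : Set A) := by
    rw [hN, TwoSidedIdeal.coe_mk']
    exact isClosed_eq (continuous_id.mul continuous_const) continuous_const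
  have hNt := hA.1 N hNc fun x y => by
    rw [hN, TwoSidedIdeal.mem_mk']
    show (x * y - y * x) * a₀ = 0
    rw [sub_mul, sub_eq_zero]
    calc x * y * a₀ = x * (y * a₀) := mul_assoc _ _ _
      _ = y * a₀ * x := (hcx y x).symm
      _ = y * (a₀ * x) := mul_assoc _ _ _
      _ = y * (x * a₀) := by rw [hc0]
      _ = _ := (mul_assoc _ _ _).symm
  have h1 : (1 : A) ∈ N := by rw [hNt]; trivial
  rw [hN, TwoSidedIdeal.mem_mk'] at h1
  exact hne (by simpa using h1)

/-- properly infinite: two orthogonal copies -/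
theorem two_fold (hA : PI A) (x : A) (hx : x * x = 0) (ε : ℝ) (hε : 0 < ε) :
    ∃ r s : A, ‖r * (star x * x) * star r - star x * x‖ < ε ∧
      ‖s * (star x * x) * star s - star x * x‖ < ε ∧ ‖r * (star x * x) * star s‖ < ε := by
  set e := star x * x with he
  set f := x * star x with hf
  have hes : IsSelfAdjoint e := IsSelfAdjoint.star_mul_self x
  have hfs : IsSelfAdjoint f := IsSelfAdjoint.mul_star_self x
  have hef : e * f = 0 := by
    rw [he, hf]
    calc star x * x * (x * star x) = star x * (x * x) * star x := by simp only [mul_assoc]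
      _ = 0 := by rw [hx, mul_zero, zero_mul]
  have hid : InId (e + f) e := by
    intro I hI h
    have hxI : x ∈ I := mem_of_star_mul I hI x h
    exact I.add_mem h (I.mul_mem_right _ _ hxI)
  have hps : Ps (e + f) := by
    let _ := CStarAlgebra.spectralOrder A
    let _ := CStarAlgebra.spectralOrderedRing A
    exact ps_of_nonneg (add_nonneg (star_mul_self_nonneg x) (mul_star_self_nonneg x))
  have hcle := hA.2 (e + f) e hps ⟨x, rfl⟩ hid
  obtain ⟨δ, hδ⟩ : ∃ δ : ℝ, δ = ε / 8 := ⟨_, rfl⟩
  have hδ0 : 0 < δ := by rw [hδ]; positivity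
  have hne : ∀ t : ℝ, |t| + δ ≠ 0 := fun t => by positivity
  have hc1 : Continuous fun t : ℝ => t / (|t| + δ) :=
    continuous_id'.div (by fun_prop) hne
  have hc2 : Continuous fun t : ℝ => 1 / Real.sqrt (|t| + δ) :=
    continuous_const.div (by fun_prop) fun t => by positivity
  obtain ⟨p, hp⟩ : ∃ p, p = cfc (fun t : ℝ => t / (|t| + δ)) e := ⟨_, rfl⟩
  obtain ⟨k, hk⟩ : ∃ k, k = cfc (fun t : ℝ => 1 / Real.sqrt (|t| + δ)) e := ⟨_, rfl⟩
  obtain ⟨y, hy⟩ : ∃ y, y = k * star x := ⟨_, rfl⟩
  have hpsa : star p = p := by rw [hp]; exact (cfc_sa _ _).star_eq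
  have hksa : star k = k := by rw [hk]; exact (cfc_sa _ _).star_eq
  have hpf : p * f = 0 := by
    rw [hp, left_zero e f hes hef _ hc1]
    simp
  have hpe : p * e * p = cfc (fun t : ℝ => t / (|t| + δ) * t * (t / (|t| + δ))) e := by
    rw [hp]
    exact conj_cfc e hes _ hc1
  have hye : y * e = 0 := by
    rw [hy, he]
    calc k * star x * (star x * x) = k * star (x * x) * x := by
          rw [star_mul]; simp only [mul_assoc]
      _ = 0 := by rw [hx, star_zero, mul_zero, zero_mul]
  have hyf : y * f * star y = cfc (fun t : ℝ => 1 / Real.sqrt (|t| + δ) * (t * t) *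
      (1 / Real.sqrt (|t| + δ))) e := by
    rw [hy, star_mul, star_star, hksa]
    calc k * star x * f * (x * k) = k * (e * e) * k := by
          rw [he, hf]; simp only [mul_assoc]
      _ = _ := by
        rw [hk]
        exact conj_cfc2 e hes _ hc2
  have hey : e * star y = 0 := by
    have := congrArg star hye
    rwa [star_mul, hes.star_eq, star_zero] at this
  have hfp : f * p = 0 := by
    have := congrArg star hpf
    rwa [star_mul, hfs.star_eq, hpsa, star_zero] at this
  have n1 : ‖p * e * p - e‖ ≤ 2 * δ := by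
    rw [hpe]
    have hc : Continuous fun t : ℝ => t / (|t| + δ) * t * (t / (|t| + δ)) :=
      (hc1.mul continuous_id').mul hc1
    rw [cfc_sub_self e hes _ hc]
    apply norm_cfc_le (by positivity)
    intro t ht
    have h0 : 0 ≤ t := spec_nn x t ht
    rw [Real.norm_eq_abs, abs_of_nonneg h0]
    have hd : 0 < t + δ := by positivity
    have e1 : t / (t + δ) * t * (t / (t + δ)) - t = -(t * δ * (2 * t + δ)) / (t + δ) ^ 2 := by
      field_simp; ring
    rw [e1, abs_div, abs_neg, abs_of_nonneg (by positivity), abs_of_nonneg (by positivity),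
      div_le_iff₀ (by positivity)]
    nlinarith [mul_nonneg h0 hδ0.le, mul_nonneg h0 (mul_pos hδ0 hδ0).le,
      mul_pos (mul_pos hδ0 hδ0) hδ0, mul_nonneg (mul_nonneg h0 h0) hδ0.le]
  have n2 : ‖y * f * star y - e‖ ≤ δ := by
    rw [hyf]
    have hc : Continuous fun t : ℝ => 1 / Real.sqrt (|t| + δ) * (t * t) *
        (1 / Real.sqrt (|t| + δ)) :=
      (hc2.mul (by fun_prop)).mul hc2
    rw [cfc_sub_self e hes _ hc]
    apply norm_cfc_le (by positivity)
    intro t ht
    have h0 : 0 ≤ t := spec_nn x t ht
    rw [Real.norm_eq_abs, abs_of_nonneg h0]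
    have hd : 0 < t + δ := by positivity
    have e1 : 1 / Real.sqrt (t + δ) * (t * t) * (1 / Real.sqrt (t + δ)) - t =
        -(t * δ) / (t + δ) := by
      obtain ⟨s, hs, h3, hs0⟩ : ∃ s, s = Real.sqrt (t + δ) ∧ s * s = t + δ ∧ s ≠ 0 :=
        ⟨_, rfl, Real.mul_self_sqrt hd.le, (Real.sqrt_pos.2 hd).ne'⟩
      have h4 : 1 / s * (t * t) * (1 / s) = t * t / (t + δ) := by
        rw [← h3]
        field_simp
      rw [← hs, h4, eq_div_iff hd.ne', sub_mul, div_mul_cancel₀ _ hd.ne']
      ring
    rw [e1, abs_div, abs_neg, abs_of_nonneg (by positivity), abs_of_nonneg (by positivity),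
      div_le_iff₀ (by positivity)]
    nlinarith [mul_nonneg h0 hδ0.le, mul_pos hδ0 hδ0]
  obtain ⟨K, hK⟩ : ∃ K : ℝ, K = ‖p‖ + ‖y‖ + 1 := ⟨_, rfl⟩
  have hK0 : 0 < K := by rw [hK]; positivity
  have hpK : ‖p‖ ≤ K := by rw [hK]; linarith [norm_nonneg y]
  have hyK : ‖y‖ ≤ K := by rw [hK]; linarith [norm_nonneg p]
  obtain ⟨w, hw⟩ := hcle (δ / K ^ 2) (by positivity)
  have est : ∀ a b : A, ‖a‖ ≤ K → ‖b‖ ≤ K →
      ‖(a * w) * e * star (b * w) - a * (e + f) * star b‖ ≤ δ := by
    intro a b ha hb
    have e1 : (a * w) * e * star (b * w) - a * (e + f) * star b =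
        a * (w * e * star w - (e + f)) * star b := by
      rw [star_mul]; noncomm_ring
    rw [e1]
    calc _ ≤ ‖a‖ * ‖w * e * star w - (e + f)‖ * ‖star b‖ :=
          (norm_mul_le _ _).trans (mul_le_mul_of_nonneg_right (norm_mul_le _ _) (norm_nonneg _))
      _ ≤ K * (δ / K ^ 2) * K := by
          rw [norm_star]
          gcongr
      _ = δ := by field_simp
  refine ⟨p * w, y * w, ?_, ?_, ?_⟩
  · have h1 := est p p hpK hpK
    have h2 : p * (e + f) * star p = p * e * p := by rw [hpsa, mul_add, hpf, add_zero]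
    rw [h2] at h1
    calc _ ≤ ‖(p * w) * e * star (p * w) - p * e * p‖ + ‖p * e * p - e‖ := norm_sub_le_norm_sub_add_norm_sub _ _ _
      _ ≤ δ + 2 * δ := add_le_add h1 n1
      _ < ε := by rw [hδ]; linarith
  · have h1 := est y y hyK hyK
    have h2 : y * (e + f) * star y = y * f * star y := by rw [mul_add, hye, zero_add]
    rw [h2] at h1
    calc _ ≤ ‖(y * w) * e * star (y * w) - y * f * star y‖ + ‖y * f * star y - e‖ := norm_sub_le_norm_sub_add_norm_sub _ _ _
      _ ≤ δ + δ := add_le_add h1 n2
      _ < ε := by rw [hδ]; linarith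
  · have h1 := est p y hpK hyK
    have h2 : p * (e + f) * star y = 0 := by
      rw [mul_add, hpf, add_zero, mul_assoc, hey, mul_zero]
    rw [h2, sub_zero] at h1
    calc _ ≤ δ := h1
      _ < ε := by rw [hδ]; linarith

theorem n_fold (hA : PI A) (x : A) (hx : x * x = 0) (n : ℕ) : ∀ ε : ℝ, 0 < ε →
    ∃ r : ℕ → A, ∀ i < n, ∀ j < n,
      ‖r i * (star x * x) * star (r j) - (if i = j then star x * x else 0)‖ < ε := by
  set e := star x * x with he
  have hes : IsSelfAdjoint e := IsSelfAdjoint.star_mul_self x
  clear_value e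
  induction n with
  | zero => exact fun ε _ => ⟨fun _ => 0, fun i hi => absurd hi (Nat.not_lt_zero _)⟩
  | succ n ih =>
    intro ε hε
    obtain ⟨r, hr⟩ := ih (ε / 2) (by positivity)
    obtain ⟨K, hK⟩ : ∃ K : ℝ, K = ∑ i ∈ Finset.range n, ‖r i‖ + 1 := ⟨_, rfl⟩
    have hK1 : 1 ≤ K := by
      rw [hK]
      have : 0 ≤ ∑ i ∈ Finset.range n, ‖r i‖ := Finset.sum_nonneg fun _ _ => norm_nonneg _
      linarith
    have hrK : ∀ i < n, ‖r i‖ ≤ K := by
      intro i hi
      have := Finset.single_le_sum (f := fun i => ‖r i‖) (fun j _ => norm_nonneg (r j))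
        (Finset.mem_range.2 hi)
      rw [hK]
      linarith
    obtain ⟨a, s, h1, h2, h3⟩ := two_fold hA x hx (ε / (2 * K ^ 2)) (by positivity)
    rw [← he] at h1 h2 h3
    have hsm : ε / (2 * K ^ 2) ≤ ε / 2 := by
      apply div_le_div_of_nonneg_left hε.le (by positivity)
      nlinarith
    have h3' : ‖s * e * star a‖ < ε / (2 * K ^ 2) := by
      have : star (a * e * star s) = s * e * star a := by
        rw [star_mul, star_mul, star_star, hes.star_eq, mul_assoc]
      rw [← this, norm_star]
      exact h3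
    refine ⟨fun i => if i < n then r i * a else s, ?_⟩
    intro i hi j hj
    by_cases hi' : i < n
    · by_cases hj' : j < n
      · simp only [hi', hj', if_true]
        have e1 : r i * a * e * star (r j * a) - (if i = j then e else 0) =
            r i * (a * e * star a - e) * star (r j) +
              (r i * e * star (r j) - (if i = j then e else 0)) := by
          rw [star_mul]; noncomm_ring
        rw [e1]
        calc _ ≤ ‖r i * (a * e * star a - e) * star (r j)‖ +
              ‖r i * e * star (r j) - (if i = j then e else 0)‖ := norm_add_le _ _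
          _ < ε / 2 + ε / 2 := by
              refine add_lt_add_of_le_of_lt ?_ (hr i hi' j hj')
              calc _ ≤ ‖r i‖ * ‖a * e * star a - e‖ * ‖star (r j)‖ :=
                    (norm_mul_le _ _).trans
                      (mul_le_mul_of_nonneg_right (norm_mul_le _ _) (norm_nonneg _))
                _ ≤ K * (ε / (2 * K ^ 2)) * K := by
                    rw [norm_star]
                    have := hrK i hi'
                    have := hrK j hj'
                    gcongr
                _ = ε / 2 := by field_simp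
          _ = ε := by ring
      · have hjn : j = n := by omega
        have hij : i ≠ j := by omega
        simp only [hi', hj', if_true, if_false, hij, sub_zero]
        calc _ = ‖r i * (a * e * star s)‖ := by simp only [mul_assoc]
          _ ≤ ‖r i‖ * ‖a * e * star s‖ := norm_mul_le _ _
          _ ≤ K * (ε / (2 * K ^ 2)) := by
              have := hrK i hi'
              gcongr
          _ = ε / 2 / K := by field_simp
          _ ≤ ε / 2 := div_le_self (by positivity) hK1
          _ < ε := by linarith
    · by_cases hj' : j < n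
      · have hij : i ≠ j := by omega
        simp only [hi', hj', if_true, if_false, hij, sub_zero]
        calc _ = ‖s * e * star a * star (r j)‖ := by rw [star_mul]; simp only [mul_assoc]
          _ ≤ ‖s * e * star a‖ * ‖star (r j)‖ := norm_mul_le _ _
          _ ≤ (ε / (2 * K ^ 2)) * K := by
              rw [norm_star]
              have := hrK j hj'
              gcongr
          _ = ε / 2 / K := by field_simp
          _ ≤ ε / 2 := div_le_self (by positivity) hK1
          _ < ε := by linarith
      · have hij : i = j := by omega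
        simp only [hi', hj', if_false, hij, if_true]
        exact h2.trans_le (hsm.trans (by linarith))

end Pool.Agent.H898P
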