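import Pool.Agent.H898P.StepA

/-! Crossed products by automorphisms: Fourier coefficients by averaging the gauge action. -/

set_option autoImplicit false

noncomputable section

namespace Pool.Agent.H898P

open Pool.Agent.H898SR

variable {A B : Type} [CStarAlgebra A] [CStarAlgebra B]

/-- integer powers of the implementing unitary -/
def V (U : unitary B) (m : ℤ) : B := ((U ^ m : unitary B) : B)

theorem V_zero (U : unitary B) : V U 0 = 1 := by simp [V]

theorem V_add (U : unitary B) (m n : ℤ) : V U (m + n) = V U m * V U n := by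
  simp [V, zpow_add]

theorem V_star (U : unitary B) (m : ℤ) : star (V U m) = V U (-m) := by
  have : star (V U m) = ((star (U ^ m) : unitary B) : B) := rfl
  rw [this]
  congr 1
  rw [zpow_neg]
  rfl

theorem V_nat (U : unitary B) (m : ℕ) : V U m = (U : B) ^ m := by
  simp [V]

theorem V_norm_mul (U : unitary B) (m : ℤ) (x : B) : ‖x * V U m‖ = ‖x‖ := by
  unfold V
  exact CStarRing.norm_mul_coe_unitary x (U ^ m)

theorem V_one (U : unitary B) : V U 1 = U := by simp [V]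

theorem star_mul_V (U : unitary B) : star (U : B) * U = 1 := Unitary.coe_star_mul_self U

theorem mul_star_V (U : unitary B) : (U : B) * star (U : B) = 1 := Unitary.coe_mul_star_self U

section

variable (ι : A →⋆ₐ[ℂ] B) (U : unitary B) (α : A ≃⋆ₐ[ℂ] A)
  (hcov : ∀ a : A, (U : B) * ι a * star (U : B) = ι (α a))

include hcov

theorem cov1 (a : A) : (U : B) * ι a = ι (α a) * U := by
  rw [← hcov a, mul_assoc _ (star (U : B)), star_mul_V, mul_one]

theorem cov2 (a : A) : star (U : B) * ι a = ι (α.symm a) * star (U : B) := by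
  have h1 := cov1 ι U α hcov (α.symm a)
  rw [StarAlgEquiv.apply_symm_apply] at h1
  calc star (U : B) * ι a = star (U : B) * (ι a * U) * star (U : B) := by
        rw [← mul_assoc, mul_assoc _ _ (star (U : B)), mul_star_V, mul_one]
    _ = star (U : B) * (U * ι (α.symm a)) * star (U : B) := by rw [h1]
    _ = _ := by rw [← mul_assoc, star_mul_V, one_mul]

theorem cov_pow (m : ℤ) : ∀ a : A, ∃ a' : A, V U m * ι a = ι a' * V U m := by
  induction m using Int.induction_on with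
  | zero => exact fun a => ⟨a, by rw [V_zero, one_mul, mul_one]⟩
  | succ n ih =>
    intro a
    obtain ⟨a', h⟩ := ih (α a)
    refine ⟨a', ?_⟩
    rw [V_add, V_one, mul_assoc, cov1 ι U α hcov, ← mul_assoc, h, mul_assoc]
  | pred n ih =>
    intro a
    obtain ⟨a', h⟩ := ih (α.symm a)
    refine ⟨a', ?_⟩
    have hV : V U (-1) = star (U : B) := by rw [← V_star, V_one]
    rw [sub_eq_add_neg, V_add, hV, mul_assoc, cov2 ι U α hcov, ← mul_assoc, h, mul_assoc]

theorem cov_nat (m : ℕ) : ∀ a : A, V U m * ι a = ι (α^[m] a) * V U m := by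
  induction m with
  | zero => intro a; simp [V_zero]
  | succ n ih =>
    intro a
    rw [Nat.cast_add, Nat.cast_one, V_add, V_one, mul_assoc, cov1 ι U α hcov, ← mul_assoc,
      ih (α a), mul_assoc, Function.iterate_succ_apply]

/-- the polynomials -/
def W (ι : A →⋆ₐ[ℂ] B) (U : unitary B) : Submodule ℂ B :=
  Submodule.span ℂ {x | ∃ (a : A) (m : ℤ), x = ι a * V U m}

omit hcov in
theorem mem_W (a : A) (m : ℤ) : ι a * V U m ∈ W ι U := Submodule.subset_span ⟨a, m, rfl⟩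

theorem W_mul (x y : B) (hx : x ∈ W ι U) (hy : y ∈ W ι U) : x * y ∈ W ι U := by
  unfold W at hx hy
  induction hx using Submodule.span_induction with
  | mem x hx =>
    obtain ⟨a, m, rfl⟩ := hx
    induction hy using Submodule.span_induction with
    | mem y hy =>
      obtain ⟨b, n, rfl⟩ := hy
      obtain ⟨a', h⟩ := cov_pow ι U α hcov m b
      have e : ι a * V U m * (ι b * V U n) = ι (a * a') * V U (m + n) := by
        rw [V_add, map_mul]
        calc _ = ι a * (V U m * ι b) * V U n := by simp only [mul_assoc]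
          _ = _ := by rw [h]; simp only [mul_assoc]
      rw [e]
      exact mem_W ι U _ _
    | zero => rw [mul_zero]; exact Submodule.zero_mem _
    | add y z _ _ h1 h2 => rw [mul_add]; exact Submodule.add_mem _ h1 h2
    | smul r y _ h1 => rw [mul_smul_comm]; exact Submodule.smul_mem _ _ h1
  | zero => rw [zero_mul]; exact Submodule.zero_mem _
  | add y z _ _ h1 h2 => rw [add_mul]; exact Submodule.add_mem _ h1 h2
  | smul r y _ h1 => rw [smul_mul_assoc]; exact Submodule.smul_mem _ _ h1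

theorem W_star (x : B) (hx : x ∈ W ι U) : star x ∈ W ι U := by
  unfold W at hx
  induction hx using Submodule.span_induction with
  | mem x hx =>
    obtain ⟨a, m, rfl⟩ := hx
    obtain ⟨a', h⟩ := cov_pow ι U α hcov (-m) (star a)
    rw [star_mul, V_star, ← map_star, h]
    exact mem_W ι U _ _
  | zero => rw [star_zero]; exact Submodule.zero_mem _
  | add y z _ _ h1 h2 => rw [star_add]; exact Submodule.add_mem _ h1 h2
  | smul r y _ h1 => rw [star_smul]; exact Submodule.smul_mem _ _ h1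

/-- trigonometric polynomial -/
def pol (ι : A →⋆ₐ[ℂ] B) (U : unitary B) (c : ℤ →₀ A) : B := c.sum fun m a => ι a * V U m

omit hcov in
theorem pol_add (c d : ℤ →₀ A) : pol ι U (c + d) = pol ι U c + pol ι U d := by
  unfold pol
  rw [Finsupp.sum_add_index']
  · intro m; rw [map_zero, zero_mul]
  · intro m a b; rw [map_add, add_mul]

omit hcov in
theorem W_pol (x : B) (hx : x ∈ W ι U) : ∃ c : ℤ →₀ A, x = pol ι U c := by
  unfold W at hx
  induction hx using Submodule.span_induction with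
  | mem x hx =>
    obtain ⟨a, m, rfl⟩ := hx
    refine ⟨Finsupp.single m a, ?_⟩
    unfold pol
    rw [Finsupp.sum_single_index]
    rw [map_zero, zero_mul]
  | zero => exact ⟨0, by unfold pol; rw [Finsupp.sum_zero_index]⟩
  | add y z _ _ h1 h2 =>
    obtain ⟨c, rfl⟩ := h1
    obtain ⟨d, rfl⟩ := h2
    exact ⟨c + d, (pol_add ι U c d).symm⟩
  | smul r y _ h1 =>
    obtain ⟨c, rfl⟩ := h1
    refine ⟨r • c, ?_⟩
    unfold pol
    rw [Finsupp.sum_smul_index' (by intro m; rw [map_zero, zero_mul]), Finsupp.smul_sum]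
    refine Finsupp.sum_congr fun m _ => ?_
    rw [map_smul, smul_mul_assoc]

theorem dense_pol (hd : (StarAlgebra.adjoin ℂ (Set.range (ι : A → B) ∪ {(U : B)})).topologicalClosure = ⊤)
    (x : B) (ε : ℝ) (hε : 0 < ε) : ∃ c : ℤ →₀ A, ‖x - pol ι U c‖ < ε := by
  have hx : x ∈ (StarAlgebra.adjoin ℂ (Set.range (ι : A → B) ∪ {(U : B)})).topologicalClosure := by
    rw [hd]; trivial
  have hx2 : x ∈ closure ((StarAlgebra.adjoin ℂ (Set.range (ι : A → B) ∪ {(U : B)}) :
      StarSubalgebra ℂ B) : Set B) := hx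
  rw [Metric.mem_closure_iff] at hx2
  obtain ⟨y, hy, hn⟩ := hx2 ε hε
  have hyW : y ∈ W ι U := by
    refine StarAlgebra.adjoin_induction (p := fun z _ => z ∈ W ι U) ?_ ?_ ?_ ?_ ?_ hy
    · rintro z (⟨a, rfl⟩ | hz)
      · have := mem_W ι U a 0
        rwa [V_zero, mul_one] at this
      · rw [Set.mem_singleton_iff] at hz
        rw [hz]
        have := mem_W ι U 1 1
        rwa [V_one, map_one, one_mul] at this
    · intro r
      rw [Algebra.algebraMap_eq_smul_one]
      apply Submodule.smul_mem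
      have := mem_W ι U 1 0
      rwa [V_zero, map_one, one_mul] at this
    · intro x y _ _ h1 h2
      exact Submodule.add_mem _ h1 h2
    · intro x y _ _ h1 h2
      exact W_mul ι U α hcov x y h1 h2
    · intro x _ h1
      exact W_star ι U α hcov x h1
  obtain ⟨c, rfl⟩ := W_pol ι U y hyW
  exact ⟨c, by rwa [dist_eq_norm] at hn⟩

end

section

variable (ι : A →⋆ₐ[ℂ] B) (U : unitary B)

/-- gauge automorphism at `z` -/
def IsG (z : ℂ) (γ : B →⋆ₐ[ℂ] B) : Prop := (∀ a : A, γ (ι a) = ι a) ∧ γ (U : B) = z • (U : B)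

theorem g_V (z : ℂ) (hz : ‖z‖ = 1) (γ : B →⋆ₐ[ℂ] B) (h : IsG ι U z γ) (m : ℤ) :
    γ (V U m) = z ^ m • V U m := by
  have hz0 : z ≠ 0 := by
    rintro rfl
    rw [norm_zero] at hz
    exact zero_ne_one hz
  have hV : V U (-1) = star (U : B) := by rw [← V_star, V_one]
  induction m using Int.induction_on with
  | zero => rw [V_zero, map_one, zpow_zero, one_smul]
  | succ n ih =>
    rw [V_add, V_one, map_mul, ih, h.2, smul_mul_smul_comm, zpow_add_one₀ hz0]
  | pred n ih =>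
    have h1 : γ (star (U : B)) = z⁻¹ • star (U : B) := by
      rw [map_star, h.2, star_smul]
      congr 1
      rw [Complex.star_def, Complex.inv_def, Complex.normSq_eq_norm_sq, hz]
      simp
    rw [sub_eq_add_neg, V_add, hV, map_mul, ih, h1, smul_mul_smul_comm, ← sub_eq_add_neg,
      zpow_sub_one₀ hz0]

theorem g_mono (z : ℂ) (hz : ‖z‖ = 1) (γ : B →⋆ₐ[ℂ] B) (h : IsG ι U z γ) (a : A) (m : ℤ) :
    γ (ι a * V U m) = z ^ m • (ι a * V U m) := by
  rw [map_mul, h.1, g_V ι U z hz γ h, mul_smul_comm]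

theorem g_pol (z : ℂ) (hz : ‖z‖ = 1) (γ : B →⋆ₐ[ℂ] B) (h : IsG ι U z γ) (c : ℤ →₀ A) :
    γ (pol ι U c) = ∑ m ∈ c.support, z ^ m • (ι (c m) * V U m) := by
  unfold pol Finsupp.sum
  rw [map_sum]
  exact Finset.sum_congr rfl fun m _ => g_mono ι U z hz γ h _ m

/-- continuity of the gauge action at 1 -/
theorem g_near (hdense : ∀ (x : B) (ε : ℝ), 0 < ε → ∃ c : ℤ →₀ A, ‖x - pol ι U c‖ < ε)
    (b : B) (ε : ℝ) (hε : 0 < ε) : ∃ ρ : ℝ, 0 < ρ ∧ ∀ z : ℂ, ‖z‖ = 1 → ‖z - 1‖ < ρ →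
      ∀ γ : B →⋆ₐ[ℂ] B, IsG ι U z γ → ‖γ b - b‖ < ε := by
  obtain ⟨c, hc⟩ := hdense b (ε / 4) (by positivity)
  set g : ℂ → ℝ := fun z => ∑ m ∈ c.support, ‖z ^ m - 1‖ * ‖ι (c m) * V U m‖ with hg
  have hgc : ContinuousAt g 1 := by
    rw [hg]
    apply tendsto_finsetSum
    intro m _
    have h1 : ContinuousAt (fun z : ℂ => z ^ m) 1 := continuousAt_zpow₀ 1 m (Or.inl one_ne_zero)
    exact ((h1.sub continuousAt_const).norm.mul continuousAt_const)
  have hg1 : g 1 = 0 := by simp [hg]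
  rw [Metric.continuousAt_iff] at hgc
  obtain ⟨ρ, hρ, hρ2⟩ := hgc (ε / 4) (by positivity)
  refine ⟨ρ, hρ, fun z hz hz1 γ hγ => ?_⟩
  have h1 := hρ2 (show dist z 1 < ρ by rwa [dist_eq_norm])
  rw [hg1, Real.dist_eq, sub_zero] at h1
  have h2 : ‖γ (pol ι U c) - pol ι U c‖ < ε / 4 := by
    have e : γ (pol ι U c) - pol ι U c =
        ∑ m ∈ c.support, (z ^ m - 1) • (ι (c m) * V U m) := by
      rw [g_pol ι U z hz γ hγ c]
      unfold pol Finsupp.sum
      rw [← Finset.sum_sub_distrib]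
      exact Finset.sum_congr rfl fun m _ => by rw [sub_smul, one_smul]
    rw [e]
    calc _ ≤ ∑ m ∈ c.support, ‖(z ^ m - 1) • (ι (c m) * V U m)‖ := norm_sum_le _ _
      _ = g z := by
        rw [hg]
        exact Finset.sum_congr rfl fun m _ => norm_smul _ _
      _ ≤ |g z| := le_abs_self _
      _ < _ := h1
  have h3 : ‖γ (b - pol ι U c)‖ ≤ ‖b - pol ι U c‖ := NonUnitalStarAlgHom.norm_apply_le γ _
  calc ‖γ b - b‖ = ‖γ (b - pol ι U c) + (γ (pol ι U c) - pol ι U c) - (b - pol ι U c)‖ := by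
        rw [map_sub]; congr 1; abel
    _ ≤ ‖γ (b - pol ι U c)‖ + ‖γ (pol ι U c) - pol ι U c‖ + ‖b - pol ι U c‖ :=
        (norm_sub_le _ _).trans (add_le_add_left (norm_add_le _ _) _)
    _ < ε := by linarith

theorem root_sum (M : ℕ) (hM : M ≠ 0) (m : ℤ) (hm : m ≠ 0) (hmM : |m| < M) :
    ∑ j ∈ Finset.range M, ((Complex.exp (2 * Real.pi * Complex.I / M)) ^ j) ^ m = 0 := by
  have hp := Complex.isPrimitiveRoot_exp M hM
  set ζ := Complex.exp (2 * Real.pi * Complex.I / M) with hζ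
  have h1 : ζ ^ m ≠ 1 := by
    intro h
    rw [hp.zpow_eq_one_iff_dvd] at h
    exact hm (Int.eq_zero_of_abs_lt_dvd h hmM)
  have h2 : ∀ j ∈ Finset.range M, (ζ ^ j) ^ m = (ζ ^ m) ^ j := by
    intro j _
    rw [← zpow_natCast, ← zpow_natCast, ← zpow_mul, ← zpow_mul, mul_comm]
  rw [Finset.sum_congr rfl h2]
  have h3 : (ζ ^ m) ^ M = 1 := by
    rw [← zpow_natCast, ← zpow_mul, mul_comm, zpow_mul, zpow_natCast, hp.pow_eq_one, one_zpow]
  have h4 := mul_neg_geom_sum (ζ ^ m) M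
  rw [h3, sub_self] at h4
  rcases mul_eq_zero.1 h4 with h5 | h5
  · exact absurd (sub_eq_zero.1 h5).symm h1
  · exact h5

theorem root_norm (M j : ℕ) : ‖(Complex.exp (2 * Real.pi * Complex.I / M)) ^ j‖ = 1 := by
  rw [norm_pow]
  have : (2 * Real.pi * Complex.I / M : ℂ) = ((2 * Real.pi / M : ℝ) : ℂ) * Complex.I := by
    push_cast; ring
  rw [this, Complex.norm_exp_ofReal_mul_I, one_pow]

theorem root_near (M j : ℕ) : ‖(Complex.exp (2 * Real.pi * Complex.I / M)) ^ j - 1‖ ≤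
    2 * Real.pi * j / M := by
  rw [← Complex.exp_nat_mul]
  have : ((j : ℂ) * (2 * Real.pi * Complex.I / M) : ℂ) = Complex.I * ((2 * Real.pi * j / M : ℝ) : ℂ) := by
    push_cast; ring
  rw [this]
  refine (Real.norm_exp_I_mul_ofReal_sub_one_le).trans ?_
  rw [Real.norm_eq_abs, abs_of_nonneg (by positivity)]

/-- the zeroth Fourier coefficient of an approximation of a nonzero positive element is bounded
below -/
theorem coeff_bd (hdense : ∀ (x : B) (ε : ℝ), 0 < ε → ∃ c : ℤ →₀ A, ‖x - pol ι U c‖ < ε)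
    (hγ : ∀ z : ℂ, ‖z‖ = 1 → ∃ γ : B →⋆ₐ[ℂ] B, IsG ι U z γ) (b : B) (hb : Ps b) (hb0 : b ≠ 0) :
    ∃ κ : ℝ, 0 < κ ∧ ∀ c : ℤ →₀ A, ‖b - pol ι U c‖ ≤ κ → κ ≤ ‖c 0‖ := by
  let _ := CStarAlgebra.spectralOrder B
  let _ := CStarAlgebra.spectralOrderedRing B
  have hbn : 0 < ‖b‖ := norm_pos_iff.2 hb0
  obtain ⟨ρ, hρ, hρ2⟩ := g_near ι U hdense b (‖b‖ / 4) (by positivity)
  obtain ⟨K, hK⟩ := exists_nat_gt (2 * Real.pi / ρ)
  have hKp : (0 : ℝ) < K := lt_of_le_of_lt (by positivity) hK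
  have hK0 : 0 < K := by exact_mod_cast hKp
  have hKρ : 2 * Real.pi / K < ρ := by
    rw [div_lt_iff₀ hρ] at hK
    rw [div_lt_iff₀ hKp]
    linarith
  refine ⟨3 / 8 * ‖b‖ / K, by positivity, fun c hc => ?_⟩
  obtain ⟨N, hN⟩ : ∃ N : ℕ, ∀ m ∈ c.support, |m| < (N : ℤ) + 1 := by
    refine ⟨∑ m ∈ c.support, m.natAbs, fun m hm => ?_⟩
    have h1 : m.natAbs ≤ ∑ m ∈ c.support, m.natAbs :=
      Finset.single_le_sum (f := fun m : ℤ => m.natAbs) (fun _ _ => Nat.zero_le _) hm
    rw [Int.abs_eq_natAbs]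
    omega
  obtain ⟨M, hM⟩ : ∃ M : ℕ, M = K * (N + 1) := ⟨_, rfl⟩
  have hM0 : M ≠ 0 := by rw [hM]; positivity
  have hMN : N + 1 ≤ M := by rw [hM]; nlinarith
  have hMp : (0 : ℝ) < M := by exact_mod_cast Nat.pos_of_ne_zero hM0
  choose γ hγ using fun j : ℕ => hγ _ (root_norm M j)
  set S := ∑ j ∈ Finset.range M, γ j b with hS
  -- lower bound
  have low : 3 / 4 * ‖b‖ / K * M ≤ ‖S‖ := by
    set S' := ∑ j ∈ Finset.range (N + 1), γ j b with hS'
    have hpos : ∀ j, 0 ≤ γ j b := by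
      intro j
      obtain ⟨y, rfl⟩ := hb
      rw [map_mul, map_star]
      exact star_mul_self_nonneg _
    have h1 : S' ≤ S := by
      rw [hS, hS']
      exact Finset.sum_le_sum_of_subset_of_nonneg (Finset.range_subset_range.2 hMN)
        fun j _ _ => hpos j
    have h0 : 0 ≤ S' := Finset.sum_nonneg fun j _ => hpos j
    have h2 : ‖S'‖ ≤ ‖S‖ := CStarAlgebra.norm_le_norm_of_nonneg_of_le h0 h1
    have h3 : ‖S' - ((N + 1 : ℕ) : ℝ) • b‖ ≤ (N + 1 : ℕ) * (‖b‖ / 4) := by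
      have e : S' - ((N + 1 : ℕ) : ℝ) • b = ∑ j ∈ Finset.range (N + 1), (γ j b - b) := by
        rw [Finset.sum_sub_distrib, Finset.sum_const, Finset.card_range, hS',
          Nat.cast_smul_eq_nsmul]
      rw [e]
      refine (norm_sum_le _ _).trans ?_
      refine (Finset.sum_le_card_nsmul _ _ (‖b‖ / 4) fun j hj => ?_).trans ?_
      · refine (hρ2 _ (root_norm M j) ?_ (γ j) (hγ j)).le
        refine (root_near M j).trans_lt (lt_of_le_of_lt ?_ hKρ)
        have hj2 : (j : ℝ) ≤ N + 1 := by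
          have := Finset.mem_range.1 hj
          exact_mod_cast this.le
        rw [hM]
        push_cast
        rw [div_le_div_iff₀ (by positivity) hKp]
        have : 2 * Real.pi * j * K ≤ 2 * Real.pi * (N + 1) * K := by gcongr
        linarith
      · rw [Finset.card_range, nsmul_eq_mul]
    have h4 : ‖((N + 1 : ℕ) : ℝ) • b‖ = (N + 1 : ℕ) * ‖b‖ := by
      rw [norm_smul, Real.norm_of_nonneg (by positivity)]
    have h5 : ((N + 1 : ℕ) : ℝ) * ‖b‖ ≤ ‖S'‖ + (N + 1 : ℕ) * (‖b‖ / 4) := by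
      rw [← h4]
      calc _ = ‖S' - (S' - ((N + 1 : ℕ) : ℝ) • b)‖ := by congr 1; abel
        _ ≤ ‖S'‖ + ‖S' - ((N + 1 : ℕ) : ℝ) • b‖ := norm_sub_le _ _
        _ ≤ _ := by linarith
    have h6 : 3 / 4 * ‖b‖ / K * M = (N + 1 : ℕ) * (3 / 4 * ‖b‖) := by
      rw [hM]; push_cast; field_simp
    rw [h6]
    linarith
  -- averaging the polynomial
  have avg : ∑ j ∈ Finset.range M, γ j (pol ι U c) = (M : ℂ) • ι (c 0) := by
    have e1 : ∀ j ∈ Finset.range M, γ j (pol ι U c) =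
        ∑ m ∈ c.support, ((Complex.exp (2 * Real.pi * Complex.I / M)) ^ j) ^ m •
          (ι (c m) * V U m) := fun j _ => g_pol ι U _ (root_norm M j) (γ j) (hγ j) c
    rw [Finset.sum_congr rfl e1, Finset.sum_comm]
    have e2 : ∀ m ∈ c.support, ∑ j ∈ Finset.range M,
        ((Complex.exp (2 * Real.pi * Complex.I / M)) ^ j) ^ m • (ι (c m) * V U m) =
        if m = 0 then (M : ℂ) • ι (c 0) else 0 := by
      intro m hm
      rw [← Finset.sum_smul]
      by_cases h : m = 0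
      · subst h
        simp [V_zero]
      · rw [if_neg h, root_sum M hM0 m h, zero_smul]
        have := hN m hm
        have h2 : ((N + 1 : ℕ) : ℤ) ≤ M := by exact_mod_cast hMN
        push_cast at h2
        omega
    rw [Finset.sum_congr rfl e2, Finset.sum_ite_eq']
    by_cases h0 : (0 : ℤ) ∈ c.support
    · rw [if_pos h0]
    · rw [if_neg h0, Finsupp.notMem_support_iff.1 h0, map_zero, smul_zero]
  have h7 : ‖S - (M : ℂ) • ι (c 0)‖ ≤ M * (3 / 8 * ‖b‖ / K) := by
    rw [← avg, hS, ← Finset.sum_sub_distrib]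
    refine (norm_sum_le _ _).trans ?_
    refine (Finset.sum_le_card_nsmul _ _ (3 / 8 * ‖b‖ / K) fun j _ => ?_).trans ?_
    · rw [← map_sub]
      exact (NonUnitalStarAlgHom.norm_apply_le (γ j) _).trans hc
    · rw [Finset.card_range, nsmul_eq_mul]
  have h8 : ‖(M : ℂ) • ι (c 0)‖ ≤ M * ‖c 0‖ := by
    rw [norm_smul, Complex.norm_natCast]
    exact mul_le_mul_of_nonneg_left (NonUnitalStarAlgHom.norm_apply_le ι _) hMp.le
  have h9 : ‖S‖ ≤ ‖S - (M : ℂ) • ι (c 0)‖ + ‖(M : ℂ) • ι (c 0)‖ := by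
    calc _ = ‖(S - (M : ℂ) • ι (c 0)) + (M : ℂ) • ι (c 0)‖ := by rw [sub_add_cancel]
      _ ≤ _ := norm_add_le _ _
  have h10 : (M : ℝ) * (3 / 8 * ‖b‖ / K) ≤ M * ‖c 0‖ := by
    have : 3 / 4 * ‖b‖ / K * M = M * (3 / 8 * ‖b‖ / K) + M * (3 / 8 * ‖b‖ / K) := by ring
    linarith
  exact le_of_mul_le_mul_left h10 hMp

end

end Pool.Agent.H898P
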