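import Pool.Agent.H898P.StepC

/-! Rokhlin towers: selection of one tower element. -/

set_option autoImplicit false

noncomputable section

namespace Pool.Agent.H898P

open Pool.Agent.H898SR

variable {A B : Type} [CStarAlgebra A] [CStarAlgebra B]

/-- selection of a tower element on which `c` is not small -/
theorem select {τ : Type} [DecidableEq τ] (d : ℕ) (s : Finset τ) (hs : s.Nonempty)
    (f : Fin (d + 1) → τ → A) (c : A) (hc : c ≠ 0) (ε : ℝ) (hε : 0 < ε) (hε1 : ε ≤ 1 / 2)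
    (hε2 : (s.card : ℝ) ^ 2 * (ε * (1 + ‖c‖ ^ 2)) < ‖c‖ ^ 2 / (16 * ((d : ℝ) + 1) ^ 2))
    (h1 : ∀ l, ∀ i ∈ s, Ps (f l i) ∧ ‖f l i‖ ≤ 1)
    (h2 : ∀ l, ∀ i ∈ s, ∀ i' ∈ s, i ≠ i' → ‖f l i * f l i'‖ ≤ ε)
    (h3 : ‖∑ l, ∑ i ∈ s, f l i - 1‖ ≤ ε)
    (h4 : ∀ l, ∀ i ∈ s, ‖f l i * (c * star c) - (c * star c) * f l i‖ ≤ ε) :
    ∃ l, ∃ i ∈ s, ‖c‖ / (8 * ((d : ℝ) + 1) ^ 2) ≤ ‖f l i * c‖ := by
  let _ := CStarAlgebra.spectralOrder A
  let _ := CStarAlgebra.spectralOrderedRing A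
  by_contra hcon
  push Not at hcon
  have hcn : 0 < ‖c‖ := norm_pos_iff.2 hc
  have hD : (0 : ℝ) < (d : ℝ) + 1 := by positivity
  set Z := c * star c with hZ
  -- choice of `l`
  obtain ⟨l, hl⟩ : ∃ l, ‖c‖ / (2 * ((d : ℝ) + 1)) ≤ ‖(∑ i ∈ s, f l i) * c‖ := by
    by_contra hcon2
    push Not at hcon2
    have e1 : ‖(∑ l, ∑ i ∈ s, f l i) * c‖ < ‖c‖ / 2 := by
      rw [Finset.sum_mul]
      calc _ ≤ ∑ l : Fin (d + 1), ‖(∑ i ∈ s, f l i) * c‖ := norm_sum_le _ _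
        _ < ∑ l : Fin (d + 1), ‖c‖ / (2 * ((d : ℝ) + 1)) :=
          Finset.sum_lt_sum_of_nonempty Finset.univ_nonempty fun l _ => hcon2 l
        _ = ‖c‖ / 2 := by
          rw [Finset.sum_const, Finset.card_univ, Fintype.card_fin, nsmul_eq_mul]
          push_cast
          field_simp
    have e2 : ‖c‖ ≤ ‖(∑ l, ∑ i ∈ s, f l i) * c‖ + ε * ‖c‖ := by
      calc ‖c‖ = ‖(∑ l, ∑ i ∈ s, f l i) * c - (∑ l, ∑ i ∈ s, f l i - 1) * c‖ := by
            congr 1; noncomm_ring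
        _ ≤ ‖(∑ l, ∑ i ∈ s, f l i) * c‖ + ‖(∑ l, ∑ i ∈ s, f l i - 1) * c‖ := norm_sub_le _ _
        _ ≤ _ := by
          gcongr
          exact (norm_mul_le _ _).trans (by gcongr)
    nlinarith
  set g := ∑ i ∈ s, f l i with hg
  have fsa : ∀ i ∈ s, star (f l i) = f l i := fun i hi => (h1 l i hi).1.sa.star_eq
  have gsa : star g = g := by
    rw [hg, star_sum]
    exact Finset.sum_congr rfl fsa
  have fnn : ∀ l, ∀ i ∈ s, 0 ≤ f l i := fun l i hi => Ps.nonneg' (h1 l i hi).1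
  have hgle : g ≤ (1 + ε) • (1 : A) := by
    have e1 : g ≤ ∑ l, ∑ i ∈ s, f l i :=
      Finset.single_le_sum (f := fun l => ∑ i ∈ s, f l i)
        (fun l _ => Finset.sum_nonneg fun i hi => fnn l i hi) (Finset.mem_univ l)
    have hsa : IsSelfAdjoint (∑ l, ∑ i ∈ s, f l i - 1) := by
      refine IsSelfAdjoint.sub ?_ (IsSelfAdjoint.one A)
      exact IsSelfAdjoint.of_nonneg
        (Finset.sum_nonneg fun l _ => Finset.sum_nonneg fun i hi => fnn l i hi)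
    have e2 : ∑ l, ∑ i ∈ s, f l i - 1 ≤ ε • (1 : A) := by
      refine (hsa.le_algebraMap_norm_self).trans ?_
      rw [Algebra.algebraMap_eq_smul_one]
      exact smul_le_smul_of_nonneg_right h3 zero_le_one
    calc g ≤ ∑ l, ∑ i ∈ s, f l i := e1
      _ = 1 + (∑ l, ∑ i ∈ s, f l i - 1) := by abel
      _ ≤ 1 + ε • (1 : A) := by gcongr
      _ = _ := by rw [add_smul, one_smul]
  -- the diagonal part
  obtain ⟨μ, hμ⟩ : ∃ μ : ℝ, μ = ‖c‖ * (‖c‖ / (8 * ((d : ℝ) + 1) ^ 2)) := ⟨_, rfl⟩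
  have hμ0 : 0 ≤ μ := by rw [hμ]; positivity
  have diag : ∀ i ∈ s, f l i * Z * f l i ≤ μ • f l i := by
    intro i hi
    obtain ⟨y, hy⟩ := (h1 l i hi).1
    have e1 : ‖y * c‖ ^ 2 ≤ μ := by
      have e2 : ‖y * c‖ * ‖y * c‖ = ‖star c * (f l i * c)‖ := by
        rw [← CStarRing.norm_star_mul_self, star_mul, hy]; simp only [mul_assoc]
      rw [sq, e2, hμ]
      calc _ ≤ ‖star c‖ * ‖f l i * c‖ := norm_mul_le _ _
        _ ≤ _ := by
          rw [norm_star]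
          exact mul_le_mul_of_nonneg_left (hcon l i hi).le (norm_nonneg _)
    have e3 : y * c * star (y * c) ≤ μ • (1 : A) := by
      have h := CStarAlgebra.mul_star_le_algebraMap_norm_sq (A := A) (a := y * c)
      rw [Algebra.algebraMap_eq_smul_one] at h
      exact h.trans (smul_le_smul_of_nonneg_right e1 zero_le_one)
    have e4 := star_left_conjugate_le_conjugate e3 y
    have e5 : star y * (y * c * star (y * c)) * y = f l i * Z * f l i := by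
      rw [hy, hZ, star_mul]; simp only [mul_assoc]
    have e6 : star y * (μ • (1 : A)) * y = μ • f l i := by
      rw [mul_smul_comm, mul_one, smul_mul_assoc, hy]
    rwa [e5, e6] at e4
  have hdn : ‖∑ i ∈ s, f l i * Z * f l i‖ ≤ μ * (1 + ε) := by
    have e0 : ∀ i ∈ s, 0 ≤ f l i * Z * f l i := by
      intro i hi
      have := star_left_conjugate_nonneg (mul_star_self_nonneg c) (f l i)
      rwa [fsa i hi] at this
    have e1 : ∑ i ∈ s, f l i * Z * f l i ≤ (μ * (1 + ε)) • (1 : A) := by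
      calc _ ≤ ∑ i ∈ s, μ • f l i := Finset.sum_le_sum diag
        _ = μ • g := by rw [hg, Finset.smul_sum]
        _ ≤ μ • ((1 + ε) • (1 : A)) := smul_le_smul_of_nonneg_left hgle hμ0
        _ = _ := by rw [smul_smul]
    have e2 := CStarAlgebra.norm_le_norm_of_nonneg_of_le (Finset.sum_nonneg e0) e1
    refine e2.trans ?_
    rw [norm_smul, Real.norm_of_nonneg (by positivity)]
    refine (mul_le_mul_of_nonneg_left ?_ (by positivity)).trans (le_of_eq (mul_one _))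
    rcases subsingleton_or_nontrivial A with hs' | hs'
    · rw [Subsingleton.elim (1 : A) 0, norm_zero]; exact zero_le_one
    · exact (CStarRing.norm_one (E := A)).le
  have off : ∀ i ∈ s, ∀ i' ∈ s, i ≠ i' → ‖f l i * Z * f l i'‖ ≤ ε * (1 + ‖c‖ ^ 2) := by
    intro i hi i' hi' hne
    have e1 : f l i * Z * f l i' = (f l i * Z - Z * f l i) * f l i' + Z * (f l i * f l i') := by
      noncomm_ring
    rw [e1]
    calc _ ≤ ‖f l i * Z - Z * f l i‖ * ‖f l i'‖ + ‖Z‖ * ‖f l i * f l i'‖ :=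
          (norm_add_le _ _).trans (add_le_add (norm_mul_le _ _) (norm_mul_le _ _))
      _ ≤ ε * 1 + ‖c‖ ^ 2 * ε := by
          have e2 : ‖Z‖ = ‖c‖ ^ 2 := by rw [hZ, CStarRing.norm_self_mul_star, sq]
          rw [e2]
          have := (h1 l i' hi').2
          have := h2 l i hi i' hi' hne
          have := h4 l i hi
          gcongr
      _ = _ := by ring
  have tot : ‖g * c‖ ^ 2 ≤ μ * (1 + ε) + (s.card : ℝ) ^ 2 * (ε * (1 + ‖c‖ ^ 2)) := by
    have e1 : ‖g * c‖ ^ 2 = ‖g * Z * g‖ := by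
      rw [sq, ← CStarRing.norm_self_mul_star, star_mul, gsa, hZ]; simp only [mul_assoc]
    have e2 : g * Z * g = ∑ i ∈ s, f l i * Z * f l i +
        ∑ i ∈ s, ∑ i' ∈ s, if i = i' then 0 else f l i * Z * f l i' := by
      have e3 : g * Z * g = ∑ i ∈ s, ∑ i' ∈ s, f l i * Z * f l i' := by
        rw [hg, Finset.sum_mul, Finset.sum_mul]
        exact Finset.sum_congr rfl fun i _ => by rw [Finset.mul_sum]
      rw [e3, ← Finset.sum_add_distrib]
      refine Finset.sum_congr rfl fun i hi => ?_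
      have e4 : f l i * Z * f l i = ∑ i' ∈ s, if i = i' then f l i * Z * f l i' else 0 := by
        rw [Finset.sum_ite_eq, if_pos hi]
      conv_rhs => rw [e4]
      rw [← Finset.sum_add_distrib]
      refine Finset.sum_congr rfl fun i' _ => ?_
      split_ifs <;> simp
    rw [e1, e2]
    refine (norm_add_le _ _).trans (add_le_add hdn ?_)
    have hb : 0 ≤ ε * (1 + ‖c‖ ^ 2) := by positivity
    calc _ ≤ ∑ i ∈ s, ‖∑ i' ∈ s, if i = i' then 0 else f l i * Z * f l i'‖ := norm_sum_le _ _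
      _ ≤ ∑ i ∈ s, ∑ i' ∈ s, ‖if i = i' then 0 else f l i * Z * f l i'‖ :=
          Finset.sum_le_sum fun i _ => norm_sum_le _ _
      _ ≤ ∑ i ∈ s, ∑ i' ∈ s, ε * (1 + ‖c‖ ^ 2) := by
          refine Finset.sum_le_sum fun i hi => Finset.sum_le_sum fun i' hi' => ?_
          split_ifs with h
          · rw [norm_zero]; exact hb
          · exact off i hi i' hi' h
      _ = _ := by
          rw [Finset.sum_const, Finset.sum_const, nsmul_eq_mul, nsmul_eq_mul]; ring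
  have hl2 : (‖c‖ / (2 * ((d : ℝ) + 1))) ^ 2 ≤ ‖g * c‖ ^ 2 := by
    gcongr
  have e1 : (‖c‖ / (2 * ((d : ℝ) + 1))) ^ 2 = ‖c‖ ^ 2 / (16 * ((d : ℝ) + 1) ^ 2) * 4 := by
    field_simp; ring
  have e2 : μ = ‖c‖ ^ 2 / (16 * ((d : ℝ) + 1) ^ 2) * 2 := by
    rw [hμ]; field_simp; ring
  set q := ‖c‖ ^ 2 / (16 * ((d : ℝ) + 1) ^ 2) with hq
  have hq0 : 0 < q := by positivity
  rw [e1] at hl2
  rw [e2] at tot
  nlinarith

/-- norm of `f α^m(f)` along a tower -/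
theorem tower_off (α : A ≃⋆ₐ[ℂ] A) (n L : ℕ) (hn : 2 * L ≤ n) (f : ℕ → A) (ε : ℝ) (hε : 0 < ε)
    (h1 : ∀ j < n, ‖f j‖ ≤ 1) (h2 : ∀ j, j + 1 < n → ‖α (f j) - f (j + 1)‖ ≤ ε)
    (h3 : ∀ i < n, ∀ j < n, i ≠ j → ‖f i * f j‖ ≤ ε) (j : ℕ) (hj : j < n) (m : ℕ) (hm : m ≠ 0)
    (hmL : m ≤ L) : ‖f j * α^[m] (f j)‖ ≤ (L + 1) * ε := by
  have hα : ∀ (m : ℕ) (x : A), ‖α^[m] x‖ ≤ ‖x‖ := by
    intro m
    induction m with
    | zero => intro x; exact le_rfl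
    | succ m ih =>
      intro x
      rw [Function.iterate_succ_apply]
      exact (ih _).trans (NonUnitalStarAlgHom.norm_apply_le (α : A →⋆ₐ[ℂ] A) x)
  have hαm : ∀ (m : ℕ) (x y : A), α^[m] (x * y) = α^[m] x * α^[m] y := by
    intro m
    induction m with
    | zero => intro x y; rfl
    | succ m ih =>
      intro x y
      rw [Function.iterate_succ_apply, Function.iterate_succ_apply, Function.iterate_succ_apply,
        map_mul, ih]
  have hs : ∀ (m i : ℕ), i + m < n → ‖α^[m] (f i) - f (i + m)‖ ≤ m * ε := by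
    intro m
    induction m with
    | zero => intro i _; simp
    | succ m ih =>
      intro i hi
      have e1 := ih i (by omega)
      have e2 := h2 (i + m) (by omega)
      rw [Function.iterate_succ_apply']
      calc _ = ‖α (α^[m] (f i) - f (i + m)) + (α (f (i + m)) - f (i + m + 1))‖ := by
            rw [map_sub]; congr 1; rw [add_assoc i m 1]; abel
        _ ≤ ‖α (α^[m] (f i) - f (i + m))‖ + ‖α (f (i + m)) - f (i + m + 1)‖ := norm_add_le _ _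
        _ ≤ m * ε + ε := add_le_add
            ((NonUnitalStarAlgHom.norm_apply_le (α : A →⋆ₐ[ℂ] A) _).trans e1) e2
        _ = _ := by push_cast; ring
  have hmL' : (m : ℝ) ≤ L := by exact_mod_cast hmL
  by_cases hc : j + m < n
  · have e1 := hs m j hc
    have e2 := h3 j hj (j + m) hc (by omega)
    calc _ = ‖f j * (α^[m] (f j) - f (j + m)) + f j * f (j + m)‖ := by congr 1; noncomm_ring
      _ ≤ ‖f j‖ * ‖α^[m] (f j) - f (j + m)‖ + ‖f j * f (j + m)‖ :=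
          (norm_add_le _ _).trans (add_le_add (norm_mul_le _ _) le_rfl)
      _ ≤ 1 * (m * ε) + ε := by
          have := h1 j hj
          gcongr
      _ ≤ _ := by nlinarith
  · have e1 := hs m (j - m) (by omega)
    rw [Nat.sub_add_cancel (by omega)] at e1
    have e2 := h3 (j - m) (by omega) j hj (by omega)
    calc _ = ‖(f j - α^[m] (f (j - m))) * α^[m] (f j) + α^[m] (f (j - m) * f j)‖ := by
            rw [hαm]; congr 1; noncomm_ring
      _ ≤ ‖f j - α^[m] (f (j - m))‖ * ‖α^[m] (f j)‖ + ‖α^[m] (f (j - m) * f j)‖ :=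
          (norm_add_le _ _).trans (add_le_add (norm_mul_le _ _) le_rfl)
      _ ≤ (m * ε) * 1 + ε := by
          have e3 := (hα m (f j)).trans (h1 j hj)
          have e4 := (hα m (f (j - m) * f j)).trans e2
          rw [norm_sub_rev] at e1
          gcongr
      _ ≤ _ := by nlinarith

/-- finite Rokhlin dimension (no commuting towers needed) -/
def FinRok (α : A ≃⋆ₐ[ℂ] A) : Prop :=
  ∃ d : ℕ, ∀ (F : Finset A) (ε : ℝ), 0 < ε → ∀ p : ℕ, 0 < p → ∃ f : Fin (d + 1) → ℕ → ℕ → A,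
    (∀ l, ∀ q < 2, ∀ j < p + q, (∃ g : A, f l q j = star g * g) ∧ ‖f l q j‖ ≤ 1) ∧
    (∀ l, ∀ q < 2, ∀ j, j + 1 < p + q → ‖α (f l q j) - f l q (j + 1)‖ < ε) ∧
    (∀ l, ∀ q < 2, ∀ q' < 2, ∀ j < p + q, ∀ j' < p + q', (q, j) ≠ (q', j') →
      ‖f l q j * f l q' j'‖ < ε) ∧
    ‖∑ l, ∑ q ∈ Finset.range 2, ∑ j ∈ Finset.range (p + q), f l q j - 1‖ < ε ∧
    (∀ l, ∀ q < 2, ∀ j < p + q, ∀ a ∈ F, ‖f l q j * a - a * f l q j‖ < ε)

/-- one tower element -/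
theorem tower_elt (α : A ≃⋆ₐ[ℂ] A) (h : FinRok α) : ∃ θ : ℝ, 0 < θ ∧
    ∀ (c : A), c ≠ 0 → ∀ (F : Finset A) (L : ℕ) (ε : ℝ), 0 < ε →
      ∃ f : A, Ps f ∧ ‖f‖ ≤ 1 ∧ (∀ a ∈ F, ‖f * a - a * f‖ ≤ ε) ∧
        (∀ m : ℕ, m ≠ 0 → m ≤ L → ‖f * α^[m] f‖ ≤ ε) ∧ θ * ‖c‖ ≤ ‖f * c * f‖ := by
  classical
  obtain ⟨d, h⟩ := h
  have hD : (0 : ℝ) < (d : ℝ) + 1 := by positivity
  refine ⟨1 / (128 * ((d : ℝ) + 1) ^ 4), by positivity, fun c hc F L ε hε => ?_⟩
  have hcn : 0 < ‖c‖ := norm_pos_iff.2 hc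
  obtain ⟨p, hp⟩ : ∃ p : ℕ, p = 2 * L + 1 := ⟨_, rfl⟩
  obtain ⟨s, hs⟩ : ∃ s : Finset (Σ _ : ℕ, ℕ),
      s = (Finset.range 2).sigma fun q => Finset.range (p + q) := ⟨_, rfl⟩
  have hmem : ∀ x : Σ _ : ℕ, ℕ, x ∈ s ↔ x.1 < 2 ∧ x.2 < p + x.1 := by
    intro x
    rw [hs, Finset.mem_sigma, Finset.mem_range, Finset.mem_range]
  have hsne : s.Nonempty := ⟨⟨0, 0⟩, (hmem _).2 ⟨by norm_num, by simp [hp]⟩⟩
  have hsc : (0 : ℝ) < s.card := by exact_mod_cast hsne.card_pos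
  obtain ⟨δ, hδ0, hδ1, hδ2, hδ3, hδ4⟩ : ∃ δ : ℝ, 0 < δ ∧ δ ≤ 1 / 2 ∧
      (s.card : ℝ) ^ 2 * (δ * (1 + ‖c‖ ^ 2)) < ‖c‖ ^ 2 / (16 * ((d : ℝ) + 1) ^ 2) ∧
      δ ≤ 1 / (128 * ((d : ℝ) + 1) ^ 4) * ‖c‖ ∧ (L + 1) * δ ≤ ε := by
    refine ⟨min (1 / 2) (min (‖c‖ ^ 2 / (32 * ((d : ℝ) + 1) ^ 2) /
      ((s.card : ℝ) ^ 2 * (1 + ‖c‖ ^ 2))) (min (1 / (128 * ((d : ℝ) + 1) ^ 4) * ‖c‖)
      (ε / (L + 1)))), ?_, min_le_left _ _, ?_, ?_, ?_⟩
    · refine lt_min (by norm_num) (lt_min (by positivity) (lt_min (by positivity) (by positivity)))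
    · have h1 := (min_le_right (1 / 2 : ℝ) (min (‖c‖ ^ 2 / (32 * ((d : ℝ) + 1) ^ 2) /
        ((s.card : ℝ) ^ 2 * (1 + ‖c‖ ^ 2))) (min (1 / (128 * ((d : ℝ) + 1) ^ 4) * ‖c‖)
        (ε / (L + 1))))).trans (min_le_left _ _)
      rw [le_div_iff₀ (by positivity)] at h1
      have h2 : ‖c‖ ^ 2 / (32 * ((d : ℝ) + 1) ^ 2) < ‖c‖ ^ 2 / (16 * ((d : ℝ) + 1) ^ 2) := by
        apply div_lt_div_of_pos_left (by positivity) (by positivity)
        nlinarith [mul_pos hD hD]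
      nlinarith
    · exact (min_le_right _ _).trans ((min_le_right _ _).trans (min_le_left _ _))
    · have h1 := (min_le_right (1 / 2 : ℝ) (min (‖c‖ ^ 2 / (32 * ((d : ℝ) + 1) ^ 2) /
        ((s.card : ℝ) ^ 2 * (1 + ‖c‖ ^ 2))) (min (1 / (128 * ((d : ℝ) + 1) ^ 4) * ‖c‖)
        (ε / (L + 1))))).trans ((min_le_right _ _).trans (min_le_right _ _))
      rw [le_div_iff₀ (by positivity)] at h1
      rw [mul_comm]
      exact h1
  have hδε : δ ≤ ε := by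
    have : (1 : ℝ) ≤ L + 1 := by
      have : (0 : ℝ) ≤ L := Nat.cast_nonneg _
      linarith
    nlinarith
  obtain ⟨f, g1, g2, g3, g4, g5⟩ := h (insert c (insert (c * star c) F)) δ hδ0 p (by omega)
  obtain ⟨l, i, hi, hsel⟩ := select d s hsne (fun l x => f l x.1 x.2) c hc δ hδ0 hδ1 hδ2
    (fun l x hx => g1 l x.1 ((hmem x).1 hx).1 x.2 ((hmem x).1 hx).2)
    (fun l x hx y hy hne => (g3 l x.1 ((hmem x).1 hx).1 y.1 ((hmem y).1 hy).1 x.2
      ((hmem x).1 hx).2 y.2 ((hmem y).1 hy).2 (by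
        intro hcon
        apply hne
        rw [Prod.mk.injEq] at hcon
        exact Sigma.ext hcon.1 (heq_of_eq hcon.2))).le)
    (by
      have : ∀ l, ∑ x ∈ s, f l x.1 x.2 =
          ∑ q ∈ Finset.range 2, ∑ j ∈ Finset.range (p + q), f l q j := by
        intro l
        rw [hs, Finset.sum_sigma]
      simp only [this]
      exact g4.le)
    (fun l x hx => (g5 l x.1 ((hmem x).1 hx).1 x.2 ((hmem x).1 hx).2 (c * star c)
      (by simp)).le)
  have hi1 := ((hmem i).1 hi).1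
  have hi2 := ((hmem i).1 hi).2
  obtain ⟨φ, hφ⟩ : ∃ φ, φ = f l i.1 i.2 := ⟨_, rfl⟩
  have hφP : Ps φ := by rw [hφ]; exact (g1 l i.1 hi1 i.2 hi2).1
  have hφ1 : ‖φ‖ ≤ 1 := by rw [hφ]; exact (g1 l i.1 hi1 i.2 hi2).2
  rw [← hφ] at hsel
  refine ⟨φ, hφP, hφ1, ?_, ?_, ?_⟩
  · intro a ha
    rw [hφ]
    exact (g5 l i.1 hi1 i.2 hi2 a (by simp [ha])).le.trans hδε
  · intro m hm hmL
    rw [hφ]
    refine (tower_off α (p + i.1) L (by omega) (f l i.1) δ hδ0 (fun j hj => (g1 l i.1 hi1 j hj).2)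
      (fun j hj => (g2 l i.1 hi1 j hj).le) (fun j hj j' hj' hne =>
        (g3 l i.1 hi1 i.1 hi1 j hj j' hj' (by simp [hne])).le) i.2 hi2 m hm hmL).trans hδ4
  · have e1 : ‖φ * c - c * φ‖ ≤ δ := by
      rw [hφ]
      exact (g5 l i.1 hi1 i.2 hi2 c (by simp)).le
    have e2 : ‖φ * c‖ * ‖φ * c‖ ≤ ‖c‖ * ‖φ * φ * c‖ := by
      rw [← CStarRing.norm_star_mul_self, star_mul, hφP.sa.star_eq]
      calc _ = ‖star c * (φ * φ * c)‖ := by simp only [mul_assoc]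
        _ ≤ ‖star c‖ * ‖φ * φ * c‖ := norm_mul_le _ _
        _ = _ := by rw [norm_star]
    have e3 : ‖φ * φ * c‖ ≤ ‖φ * c * φ‖ + δ := by
      calc _ = ‖φ * c * φ + φ * (φ * c - c * φ)‖ := by congr 1; noncomm_ring
        _ ≤ ‖φ * c * φ‖ + ‖φ‖ * ‖φ * c - c * φ‖ :=
            (norm_add_le _ _).trans (add_le_add le_rfl (norm_mul_le _ _))
        _ ≤ ‖φ * c * φ‖ + 1 * δ := by gcongr
        _ = _ := by rw [one_mul]
    have e4 : (‖c‖ / (8 * ((d : ℝ) + 1) ^ 2)) * (‖c‖ / (8 * ((d : ℝ) + 1) ^ 2)) ≤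
        ‖c‖ * ‖φ * φ * c‖ :=
      (mul_self_le_mul_self (by positivity) hsel).trans e2
    have e5 : (‖c‖ / (8 * ((d : ℝ) + 1) ^ 2)) * (‖c‖ / (8 * ((d : ℝ) + 1) ^ 2)) =
        ‖c‖ * (2 * (1 / (128 * ((d : ℝ) + 1) ^ 4) * ‖c‖)) := by
      field_simp; ring
    rw [e5] at e4
    have e6 := le_of_mul_le_mul_left e4 hcn
    linarith

end Pool.Agent.H898P
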