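import Pool.Agent.H898P.StepB
import Pool.Agent.H898P.StepD

/-! Simple crossed products of purely infinite C*-algebras by automorphisms with finite Rokhlin
dimension are purely infinite. -/

set_option autoImplicit false

noncomputable section

namespace Pool.Agent.H898P

open Pool.Agent.H898SR

variable {A B : Type} [CStarAlgebra A] [CStarAlgebra B]

theorem cfc_ne_zero' (b : A) (hb : IsSelfAdjoint b) (f : ℝ → ℝ) (hf : Continuous f)
    (l : ℝ) (hl : l ∈ spectrum ℝ b) (h0 : f l ≠ 0) : cfc f b ≠ 0 := by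
  intro h
  have h1 : f l ∈ spectrum ℝ (cfc f b) := by
    rw [cfc_map_spectrum f b hb hf.continuousOn]
    exact ⟨l, hl, rfl⟩
  rw [h] at h1
  have hnt : Nontrivial A := by
    by_contra hn
    rw [not_nontrivial_iff_subsingleton] at hn
    have : spectrum ℝ b = ∅ := spectrum.of_subsingleton b
    rw [this] at hl
    exact hl
  rw [spectrum.zero_eq] at h1
  exact h0 h1

theorem le_of_norm_sub [PartialOrder B] [StarOrderedRing B] (x y : B) (hx : IsSelfAdjoint x)
    (hy : IsSelfAdjoint y) (t : ℝ) (h : ‖x - y‖ ≤ t) : y - t • (1 : B) ≤ x := by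
  have h1 := (hx.sub hy).neg_algebraMap_norm_le_self
  rw [Algebra.algebraMap_eq_smul_one] at h1
  have h2 : ‖x - y‖ • (1 : B) ≤ t • (1 : B) := smul_le_smul_of_nonneg_right h zero_le_one
  have h3 : -(t • (1 : B)) ≤ x - y := (neg_le_neg h2).trans h1
  calc y - t • (1 : B) = y + -(t • (1 : B)) := by abel
    _ ≤ y + (x - y) := by gcongr
    _ = x := by abel

/-- compression of a positive element of the crossed product by a tower element -/
theorem compress (ι : A →⋆ₐ[ℂ] B) (U : unitary B) (α : A ≃⋆ₐ[ℂ] A)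
    (hcov : ∀ a : A, (U : B) * ι a * star (U : B) = ι (α a)) (hα : FinRok α)
    (hd : (StarAlgebra.adjoin ℂ (Set.range (ι : A → B) ∪ {(U : B)})).topologicalClosure = ⊤)
    (hγ : ∀ z : ℂ, ‖z‖ = 1 → ∃ γ : B →⋆ₐ[ℂ] B, IsG ι U z γ) (b : B) (hb : Ps b) (hb0 : b ≠ 0) :
    ∃ (a : A) (κ : ℝ) (X : B), 0 < κ ∧ Ps a ∧ κ ≤ ‖a‖ ∧
      Ps (X * b * star X - ι a + (κ / 4) • (1 : B)) := by
  let _ := CStarAlgebra.spectralOrder B
  let _ := CStarAlgebra.spectralOrderedRing B
  have hdense := dense_pol ι U α hcov hd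
  obtain ⟨κ₁, hκ₁, hco⟩ := coeff_bd ι U hdense hγ b hb hb0
  obtain ⟨θ, hθ, htow⟩ := tower_elt α hα
  obtain ⟨β, hβ⟩ : ∃ β, β = ‖b‖ := ⟨_, rfl⟩
  have hβ0 : 0 < β := by rw [hβ]; exact norm_pos_iff.2 hb0
  obtain ⟨κ, hκ⟩ : ∃ κ, κ = (θ * κ₁) ^ 2 := ⟨_, rfl⟩
  have hκ0 : 0 < κ := by rw [hκ]; positivity
  obtain ⟨η, hη0, hη1, hη2, hη3⟩ : ∃ η : ℝ, 0 < η ∧ η ≤ κ₁ ∧ η ≤ β ∧
      η ≤ κ / (32 * β) := by
    refine ⟨min κ₁ (min β (κ / (32 * β))), lt_min hκ₁ (lt_min hβ0 (by positivity)),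
      min_le_left _ _, (min_le_right _ _).trans (min_le_left _ _),
      (min_le_right _ _).trans (min_le_right _ _)⟩
  obtain ⟨c, hc⟩ := hdense b η hη0
  have hc0 : κ₁ ≤ ‖c 0‖ := hco c (hc.le.trans hη1)
  have hc00 : c 0 ≠ 0 := norm_pos_iff.1 (hκ₁.trans_le hc0)
  obtain ⟨L, hL⟩ : ∃ L : ℕ, ∀ m ∈ c.support, m.natAbs ≤ L :=
    ⟨∑ m ∈ c.support, m.natAbs, fun m hm =>
      Finset.single_le_sum (f := fun m : ℤ => m.natAbs) (fun _ _ => Nat.zero_le _) hm⟩
  obtain ⟨C, hC⟩ : ∃ C : ℝ, C = ∑ m ∈ c.support, (1 + ‖c m‖) := ⟨_, rfl⟩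
  have hC0 : 0 ≤ C := by rw [hC]; exact Finset.sum_nonneg fun m _ => by positivity
  classical
  obtain ⟨f, hfP, hf1, hfc, hfα, hfn⟩ := htow (c 0) hc00 (c.support.image c) L (η / (C + 1))
    (by positivity)
  obtain ⟨ε, hε⟩ : ∃ ε, ε = η / (C + 1) := ⟨_, rfl⟩
  rw [← hε] at hfc hfα
  have hε0 : 0 < ε := by rw [hε]; positivity
  have hfs : star f = f := hfP.sa.star_eq
  obtain ⟨φ, hφ⟩ : ∃ φ, φ = ι f := ⟨_, rfl⟩
  have hφs : star φ = φ := by rw [hφ, ← map_star, hfs]
  have hφ1 : ‖φ‖ ≤ 1 := by rw [hφ]; exact (NonUnitalStarAlgHom.norm_apply_le ι f).trans hf1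
  -- off-diagonal terms
  have o1 : ∀ m : ℕ, m ≠ 0 → m ≤ L → ‖φ * V U m * φ‖ ≤ ε := by
    intro m hm hmL
    have e1 : φ * V U m * φ = ι (f * α^[m] f) * V U m := by
      rw [hφ, mul_assoc, cov_nat ι U α hcov m f, map_mul, mul_assoc]
    rw [e1, V_norm_mul]
    exact (NonUnitalStarAlgHom.norm_apply_le ι _).trans (hfα m hm hmL)
  have o2 : ∀ m : ℤ, m ≠ 0 → m.natAbs ≤ L → ‖φ * V U m * φ‖ ≤ ε := by
    intro m hm hmL
    rcases Int.natAbs_eq m with h | h
    · rw [h]
      exact o1 m.natAbs (by omega) hmL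
    · have e1 : φ * V U m * φ = star (φ * V U (m.natAbs : ℤ) * φ) := by
        rw [star_mul, star_mul, hφs, V_star, ← h, mul_assoc]
      rw [e1, norm_star]
      exact o1 m.natAbs (by omega) hmL
  have o3 : ∀ m ∈ c.support, m ≠ 0 → ‖φ * (ι (c m) * V U m) * φ‖ ≤ ε * (1 + ‖c m‖) := by
    intro m hm hm0
    have e1 : φ * (ι (c m) * V U m) * φ =
        ι (c m) * (φ * V U m * φ) + ι (f * c m - c m * f) * V U m * φ := by
      rw [map_sub, map_mul, map_mul, ← hφ]; noncomm_ring
    rw [e1]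
    calc _ ≤ ‖ι (c m)‖ * ‖φ * V U m * φ‖ + ‖ι (f * c m - c m * f) * V U m‖ * ‖φ‖ :=
          (norm_add_le _ _).trans (add_le_add (norm_mul_le _ _) (norm_mul_le _ _))
      _ ≤ ‖c m‖ * ε + ε * 1 := by
          have h1 : ‖ι (c m)‖ ≤ ‖c m‖ := NonUnitalStarAlgHom.norm_apply_le ι _
          have h2 := o2 m hm0 (hL m hm)
          have h3 : ‖ι (f * c m - c m * f) * V U m‖ ≤ ε := by
            rw [V_norm_mul]
            exact (NonUnitalStarAlgHom.norm_apply_le ι _).trans
              (hfc (c m) (Finset.mem_image_of_mem _ hm))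
          gcongr
      _ = _ := by ring
  obtain ⟨y, hy⟩ : ∃ y, y = f * c 0 * f := ⟨_, rfl⟩
  have hyn : θ * κ₁ ≤ ‖y‖ := by
    rw [hy]
    exact (mul_le_mul_of_nonneg_left hc0 hθ.le).trans hfn
  have o4 : ‖φ * pol ι U c * φ - ι y‖ ≤ η := by
    have e1 : φ * pol ι U c * φ - ι y =
        ∑ m ∈ c.support, if m = 0 then 0 else φ * (ι (c m) * V U m) * φ := by
      have h0 : (0 : ℤ) ∈ c.support := Finsupp.mem_support_iff.2 hc00
      have e2 : ι y = ∑ m ∈ c.support, if m = 0 then φ * (ι (c m) * V U m) * φ else 0 := by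
        rw [Finset.sum_ite_eq', if_pos h0, V_zero, mul_one, hy, map_mul, map_mul, hφ]
      rw [e2]
      unfold pol Finsupp.sum
      rw [Finset.mul_sum, Finset.sum_mul, ← Finset.sum_sub_distrib]
      refine Finset.sum_congr rfl fun m _ => ?_
      split_ifs <;> simp
    rw [e1]
    calc _ ≤ ∑ m ∈ c.support, ‖if m = 0 then 0 else φ * (ι (c m) * V U m) * φ‖ :=
          norm_sum_le _ _
      _ ≤ ∑ m ∈ c.support, ε * (1 + ‖c m‖) := by
          refine Finset.sum_le_sum fun m hm => ?_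
          split_ifs with h
          · rw [norm_zero]; positivity
          · exact o3 m hm h
      _ = ε * C := by rw [← Finset.mul_sum, hC]
      _ ≤ η := by
          rw [hε, div_mul_eq_mul_div, div_le_iff₀ (by positivity)]
          nlinarith
  obtain ⟨b', hb'⟩ : ∃ b', b' = φ * b * φ := ⟨_, rfl⟩
  have o5 : ‖b' - ι y‖ ≤ 2 * η := by
    calc _ = ‖φ * (b - pol ι U c) * φ + (φ * pol ι U c * φ - ι y)‖ := by
          rw [hb']; congr 1; noncomm_ring
      _ ≤ ‖φ‖ * ‖b - pol ι U c‖ * ‖φ‖ + ‖φ * pol ι U c * φ - ι y‖ :=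
          (norm_add_le _ _).trans (add_le_add ((norm_mul_le _ _).trans
            (mul_le_mul_of_nonneg_right (norm_mul_le _ _) (norm_nonneg _))) le_rfl)
      _ ≤ 1 * η * 1 + η := by
          have := hc.le
          gcongr
      _ = _ := by ring
  have hb'n : ‖b'‖ ≤ β := by
    rw [hb']
    calc _ ≤ ‖φ‖ * ‖b‖ * ‖φ‖ := (norm_mul_le _ _).trans
          (mul_le_mul_of_nonneg_right (norm_mul_le _ _) (norm_nonneg _))
      _ ≤ 1 * β * 1 := by rw [← hβ]; gcongr
      _ = _ := by ring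
  have hbs : IsSelfAdjoint b := hb.sa
  have hb's : star b' = b' := by
    rw [hb', star_mul, star_mul, hφs, hbs.star_eq, mul_assoc]
  have hιy : ‖ι y‖ ≤ β + 2 * η := by
    calc _ = ‖b' - (b' - ι y)‖ := by congr 1; abel
      _ ≤ ‖b'‖ + ‖b' - ι y‖ := norm_sub_le _ _
      _ ≤ _ := add_le_add hb'n o5
  have o6 : ‖b' * star b' - ι (y * star y)‖ ≤ κ / 4 := by
    have e1 : b' * star b' - ι (y * star y) = b' * star (b' - ι y) + (b' - ι y) * star (ι y) := by
      rw [map_mul, map_star, star_sub]; noncomm_ring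
    rw [e1]
    calc _ ≤ ‖b'‖ * ‖star (b' - ι y)‖ + ‖b' - ι y‖ * ‖star (ι y)‖ :=
          (norm_add_le _ _).trans (add_le_add (norm_mul_le _ _) (norm_mul_le _ _))
      _ ≤ β * (2 * η) + 2 * η * (β + 2 * η) := by
          rw [norm_star, norm_star]
          gcongr
      _ ≤ 8 * β * η := by nlinarith
      _ ≤ κ / 4 := by
          rw [le_div_iff₀ (by positivity)] at hη3
          linarith
  -- `b'^2 ≤ β b'`
  have o7 : b' * star b' ≤ β • b' := by
    obtain ⟨z, hz⟩ := hb
    have e1 : (z * φ) * star (z * φ) ≤ β • (1 : B) := by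
      have h := CStarAlgebra.mul_star_le_algebraMap_norm_sq (A := B) (a := z * φ)
      rw [Algebra.algebraMap_eq_smul_one] at h
      refine h.trans (smul_le_smul_of_nonneg_right ?_ zero_le_one)
      have h2 : ‖z * φ‖ ≤ ‖z‖ := by
        calc _ ≤ ‖z‖ * ‖φ‖ := norm_mul_le _ _
          _ ≤ ‖z‖ * 1 := by gcongr
          _ = _ := mul_one _
      calc ‖z * φ‖ ^ 2 ≤ ‖z‖ ^ 2 := by gcongr
        _ = β := by rw [hβ, hz, CStarRing.norm_star_mul_self, sq]
    have e2 := star_left_conjugate_le_conjugate e1 (z * φ)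
    have e3 : star (z * φ) * (z * φ * star (z * φ)) * (z * φ) = b' * star b' := by
      rw [hb's, hb', hz, star_mul, hφs]; simp only [mul_assoc]
    have e4 : star (z * φ) * (β • (1 : B)) * (z * φ) = β • b' := by
      rw [mul_smul_comm, mul_one, smul_mul_assoc, hb', hz, star_mul, hφs]; simp only [mul_assoc]
    rwa [e3, e4] at e2
  refine ⟨y * star y, κ, Real.sqrt β • φ, hκ0, ⟨star y, by rw [star_star]⟩, ?_, ?_⟩
  · rw [CStarRing.norm_self_mul_star, hκ, sq]
    exact mul_self_le_mul_self (by positivity) hyn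
  · apply ps_of_nonneg
    have e1 : (Real.sqrt β • φ) * b * star (Real.sqrt β • φ) = β • b' := by
      rw [star_smul, star_trivial (Real.sqrt β), hφs, smul_mul_assoc, smul_mul_assoc,
        mul_smul_comm, smul_smul, Real.mul_self_sqrt hβ0.le, hb']
    rw [e1]
    have e2 := le_of_norm_sub (b' * star b') (ι (y * star y)) (IsSelfAdjoint.mul_star_self b')
      (by
        rw [map_mul, map_star]
        exact IsSelfAdjoint.mul_star_self _) (κ / 4) o6
    have e3 := e2.trans o7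
    rw [sub_le_iff_le_add] at e3
    have e4 : β • b' - ι (y * star y) + (κ / 4) • (1 : B) =
        (β • b' + (κ / 4) • (1 : B)) - ι (y * star y) := by abel
    rw [e4]
    exact sub_nonneg.2 e3

/-- every nonzero positive element of a simple crossed product dominates the unit -/
theorem unit_sub (hA : PI A) (ι : A →⋆ₐ[ℂ] B) (hinj : Function.Injective ι) (U : unitary B)
    (α : A ≃⋆ₐ[ℂ] A)
    (hcov : ∀ a : A, (U : B) * ι a * star (U : B) = ι (α a)) (hα : FinRok α)
    (hd : (StarAlgebra.adjoin ℂ (Set.range (ι : A → B) ∪ {(U : B)})).topologicalClosure = ⊤)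
    (hγ : ∀ z : ℂ, ‖z‖ = 1 → ∃ γ : B →⋆ₐ[ℂ] B, IsG ι U z γ)
    (hS : Pool.Agent.H327R4.Pure.SimpleC B) (b : B) (hb : Ps b) (hb0 : b ≠ 0) :
    ∃ D : B, D * b * star D = 1 := by
  let _ := CStarAlgebra.spectralOrder B
  let _ := CStarAlgebra.spectralOrderedRing B
  obtain ⟨a, κ, X, hκ, haP, haκ, hX⟩ := compress ι U α hcov hα hd hγ b hb hb0
  have hX' : ι a - (κ / 4) • (1 : B) ≤ X * b * star X := by
    have := Ps.nonneg' hX
    rw [← sub_nonneg]
    refine this.trans (le_of_eq ?_)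
    abel
  have hgc : Continuous fun t : ℝ => max (t - κ / 2) 0 := by fun_prop
  obtain ⟨g, hg⟩ : ∃ g, g = cfc (fun t : ℝ => max (t - κ / 2) 0) a := ⟨_, rfl⟩
  have hgs : star g = g := by rw [hg]; exact (cfc_sa _ _).star_eq
  have hg0 : g ≠ 0 := by
    intro h0
    have h1 : ‖a‖ ≤ κ / 2 := by
      rw [← cfc_i a haP.sa]
      apply norm_cfc_le (by positivity)
      intro t ht
      rw [Real.norm_eq_abs, abs_of_nonneg (haP.spec t ht)]
      by_contra hcon
      rw [not_le] at hcon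
      refine cfc_ne_zero' a haP.sa (fun t : ℝ => max (t - κ / 2) 0)
        hgc t ht ?_ (hg ▸ h0)
      rw [max_eq_left (by linarith)]
      linarith
    linarith
  have hgg0 : star g * g ≠ 0 := fun h => hg0 (CStarRing.star_mul_self_eq_zero_iff g |>.1 h)
  obtain ⟨x, hx0, hxx, hxI⟩ := exists_nil hA (star g * g) ⟨g, rfl⟩ hgg0
  obtain ⟨e, he⟩ : ∃ e, e = star x * x := ⟨_, rfl⟩
  have he0 : e ≠ 0 := fun h => hx0 (CStarRing.star_mul_self_eq_zero_iff x |>.1 (he ▸ h))
  have hcle : Cle e (star g * g) :=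
    hA.2 e _ ⟨x, he⟩ ⟨g, rfl⟩ fun I hI h => by
      rw [he]
      exact I.mul_mem_left _ _ (hxI I hI h)
  have hιe : 0 ≤ ι e := by
    rw [he, map_mul, map_star]; exact star_mul_self_nonneg _
  have hιe0 : ι e ≠ 0 := by
    intro h
    exact he0 (hinj (by rw [h, map_zero]))
  obtain ⟨n, y, hy⟩ := Pool.Agent.H327R4.Pure.full_holds B hS (ι e) hιe hιe0
  obtain ⟨Y, hY⟩ : ∃ Y : ℝ, Y = ∑ i, ‖y i‖ := ⟨_, rfl⟩
  have hY0 : 0 ≤ Y := by rw [hY]; exact Finset.sum_nonneg fun i _ => norm_nonneg _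
  obtain ⟨r, hr⟩ := n_fold hA x hxx n (1 / (4 * (Y ^ 2 + 1))) (by positivity)
  rw [← he] at hr
  obtain ⟨c₁, hc₁⟩ : ∃ c₁, c₁ = ∑ i : Fin n, star (y i) * ι (r i) := ⟨_, rfl⟩
  have k1 : ‖c₁ * ι e * star c₁ - 1‖ ≤ 1 / 4 := by
    have e1 : c₁ * ι e * star c₁ - 1 = ∑ i : Fin n, ∑ j : Fin n,
        star (y i) * ι (r i * e * star (r j) - (if (i : ℕ) = (j : ℕ) then e else 0)) * y j := by
      have e2 : (1 : B) = ∑ i : Fin n, ∑ j : Fin n,
          star (y i) * ι (if (i : ℕ) = (j : ℕ) then e else 0) * y j := by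
        rw [← hy]
        refine Finset.sum_congr rfl fun i _ => ?_
        rw [Finset.sum_eq_single i]
        · rw [if_pos rfl]
        · intro j _ hj
          rw [if_neg (fun h => hj (Fin.ext h.symm)), map_zero, mul_zero, zero_mul]
        · intro h; exact absurd (Finset.mem_univ i) h
      have e3 : c₁ * ι e * star c₁ = ∑ i : Fin n, ∑ j : Fin n,
          star (y i) * ι (r i * e * star (r j)) * y j := by
        rw [hc₁, star_sum, Finset.sum_mul, Finset.sum_mul]
        refine Finset.sum_congr rfl fun i _ => ?_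
        rw [Finset.mul_sum]
        refine Finset.sum_congr rfl fun j _ => ?_
        rw [star_mul, star_star, map_mul, map_mul, map_star]
        simp only [mul_assoc]
      rw [e3]
      rw [e2]
      rw [← Finset.sum_sub_distrib]
      refine Finset.sum_congr rfl fun i _ => ?_
      rw [← Finset.sum_sub_distrib]
      refine Finset.sum_congr rfl fun j _ => ?_
      rw [map_sub, mul_sub, sub_mul]
    rw [e1]
    calc _ ≤ ∑ i : Fin n, ∑ j : Fin n, ‖y i‖ * (1 / (4 * (Y ^ 2 + 1))) * ‖y j‖ := by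
          refine (norm_sum_le _ _).trans (Finset.sum_le_sum fun i _ => ?_)
          refine (norm_sum_le _ _).trans (Finset.sum_le_sum fun j _ => ?_)
          refine (norm_mul_le _ _).trans (mul_le_mul_of_nonneg_right ?_ (norm_nonneg _))
          refine (norm_mul_le _ _).trans ?_
          rw [norm_star]
          refine mul_le_mul_of_nonneg_left ?_ (norm_nonneg _)
          exact (NonUnitalStarAlgHom.norm_apply_le ι _).trans (hr i i.2 j j.2).le
      _ = Y ^ 2 * (1 / (4 * (Y ^ 2 + 1))) := by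
          simp_rw [← Finset.mul_sum]
          rw [← Finset.sum_mul, ← Finset.sum_mul, ← hY]; ring
      _ ≤ 1 / 4 := by
          rw [mul_one_div, div_le_div_iff₀ (by positivity) (by norm_num)]
          linarith
  obtain ⟨w, hw⟩ := hcle (1 / (4 * (‖c₁‖ ^ 2 + 1))) (by positivity)
  obtain ⟨c, hc⟩ : ∃ c, c = c₁ * ι w := ⟨_, rfl⟩
  have k2 : ‖c * ι (star g * g) * star c - 1‖ ≤ 1 / 2 := by
    have e1 : c * ι (star g * g) * star c - 1 =
        c₁ * ι (w * (star g * g) * star w - e) * star c₁ + (c₁ * ι e * star c₁ - 1) := by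
      rw [hc, star_mul, map_sub, map_mul ι (w * (star g * g)), map_mul ι w, map_star]
      noncomm_ring
    rw [e1]
    calc _ ≤ ‖c₁‖ * (1 / (4 * (‖c₁‖ ^ 2 + 1))) * ‖c₁‖ + 1 / 4 := by
          refine (norm_add_le _ _).trans (add_le_add ?_ k1)
          refine (norm_mul_le _ _).trans ?_
          rw [norm_star]
          refine mul_le_mul_of_nonneg_right ?_ (norm_nonneg _)
          refine (norm_mul_le _ _).trans (mul_le_mul_of_nonneg_left ?_ (norm_nonneg _))
          exact (NonUnitalStarAlgHom.norm_apply_le ι _).trans hw.le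
      _ ≤ 1 / 4 + 1 / 4 := by
          gcongr
          have : ‖c₁‖ * (1 / (4 * (‖c₁‖ ^ 2 + 1))) * ‖c₁‖ =
              ‖c₁‖ ^ 2 / (4 * (‖c₁‖ ^ 2 + 1)) := by ring
          rw [this, div_le_div_iff₀ (by positivity) (by norm_num)]
          linarith
      _ = 1 / 2 := by norm_num
  -- positivity
  have k3 : (1 / 2 : ℝ) • (1 : B) ≤ c * ι (star g * g) * star c := by
    have hsa : IsSelfAdjoint (c * ι (star g * g) * star c) := by
      rw [map_mul, map_star]
      have : c * (star (ι g) * ι g) * star c = (c * star (ι g)) * star (c * star (ι g)) := by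
        rw [star_mul, star_star]; simp only [mul_assoc]
      rw [this]
      exact IsSelfAdjoint.mul_star_self _
    have h1 := le_of_norm_sub _ (1 : B) hsa (IsSelfAdjoint.one B) (1 / 2) k2
    refine le_trans (le_of_eq ?_) h1
    rw [eq_sub_iff_add_eq, ← add_smul]
    norm_num
  have k4 : (κ / 4) • (star g * g) = (κ / 4) • (g * g) := by rw [hgs]
  have k5 : ι ((κ / 4) • (g * g)) ≤ ι (g * (a - (κ / 4) • 1) * g) := by
    have hps : Ps (g * (a - (κ / 4) • 1) * g - (κ / 4) • (g * g)) := by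
      have e1 : g * (a - (κ / 4) • 1) * g - (κ / 4) • (g * g) =
          cfc (fun t : ℝ => (max (t - κ / 2) 0 * t * max (t - κ / 2) 0) -
            (κ / 2) * (max (t - κ / 2) 0 * max (t - κ / 2) 0)) a := by
        rw [cfc_sub (fun t : ℝ => (max (t - κ / 2) 0 * t * max (t - κ / 2) 0))
          (fun t : ℝ => (κ / 2) * (max (t - κ / 2) 0 * max (t - κ / 2) 0)) a
          (by fun_prop) (by fun_prop),
          ← conj_cfc a haP.sa _ hgc,
          cfc_const_mul (κ / 2) (fun t : ℝ => max (t - κ / 2) 0 * max (t - κ / 2) 0) a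
            (by fun_prop), ← cm a _ _ hgc hgc, ← hg]
        have e2 : (κ / 2) • (g * g) = (κ / 4) • (g * g) + (κ / 4) • (g * g) := by
          rw [← add_smul]; congr 1; ring
        rw [e2, mul_sub, sub_mul, mul_smul_comm, mul_one, smul_mul_assoc]
        abel
      rw [e1]
      apply ps_of (cfc_sa _ _)
      intro s hs
      rw [cfc_map_spectrum _ a haP.sa (by fun_prop)] at hs
      obtain ⟨t, ht, rfl⟩ := hs
      simp only
      rcases le_total (t - κ / 2) 0 with h | h
      · rw [max_eq_right h]; simp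
      · rw [max_eq_left h]
        have : (t - κ / 2) * t * (t - κ / 2) - κ / 2 * ((t - κ / 2) * (t - κ / 2)) =
            (t - κ / 2) * ((t - κ / 2) * (t - κ / 2)) := by ring
        rw [this]
        exact mul_nonneg h (mul_nonneg h h)
    obtain ⟨v, hv⟩ := hps
    rw [← sub_nonneg, ← map_sub, hv, map_mul, map_star]
    exact star_mul_self_nonneg _
  obtain ⟨D₀, hD₀⟩ : ∃ D₀, D₀ = c * ι g * X := ⟨_, rfl⟩
  have k6 : (κ / 8) • (1 : B) ≤ D₀ * b * star D₀ := by
    have h1 := star_right_conjugate_le_conjugate hX' (c * ι g)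
    have h2 := star_right_conjugate_le_conjugate k5 c
    have hιg : star (ι g) = ι g := by rw [← map_star, hgs]
    have h3 : c * ι g * (X * b * star X) * star (c * ι g) = D₀ * b * star D₀ := by
      rw [hD₀, star_mul (c * ι g) X]; simp only [mul_assoc]
    have h4 : c * ι g * (ι a - (κ / 4) • (1 : B)) * star (c * ι g) =
        c * ι (g * (a - (κ / 4) • 1) * g) * star c := by
      rw [star_mul, hιg, map_mul, map_mul, map_sub]
      have : ι ((κ / 4 : ℝ) • (1 : A)) = (κ / 4 : ℝ) • (1 : B) := by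
        have h5 : ((κ / 4 : ℝ) • (1 : A)) = ((κ / 4 : ℝ) : ℂ) • (1 : A) := (Complex.coe_smul _ _).symm
        rw [h5, map_smul, map_one, Complex.coe_smul]
      rw [this]
      simp only [mul_assoc]
    have h5 : c * ι ((κ / 4) • (g * g)) * star c = (κ / 4) • (c * ι (star g * g) * star c) := by
      have h6 : ((κ / 4 : ℝ) • (g * g)) = ((κ / 4 : ℝ) : ℂ) • (g * g) := (Complex.coe_smul _ _).symm
      rw [h6, map_smul, Complex.coe_smul, mul_smul_comm, smul_mul_assoc, hgs]
    rw [h3, h4] at h1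
    rw [h5] at h2
    calc (κ / 8) • (1 : B) = (κ / 4) • ((1 / 2 : ℝ) • (1 : B)) := by
          rw [smul_smul]; congr 1; ring
      _ ≤ (κ / 4) • (c * ι (star g * g) * star c) :=
          smul_le_smul_of_nonneg_left k3 (by positivity)
      _ ≤ _ := h2.trans h1
  -- normalisation
  obtain ⟨T, hT⟩ : ∃ T, T = D₀ * b * star D₀ := ⟨_, rfl⟩
  rw [← hT] at k6
  have hTs : IsSelfAdjoint T := by
    obtain ⟨z, hz⟩ := hb
    have : T = (D₀ * star z) * star (D₀ * star z) := by
      rw [hT, hz, star_mul, star_star]; simp only [mul_assoc]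
    rw [this]
    exact IsSelfAdjoint.mul_star_self _
  rw [← Algebra.algebraMap_eq_smul_one, algebraMap_le_iff_le_spectrum hTs] at k6
  have hrc : Continuous fun t : ℝ => 1 / Real.sqrt (max t (κ / 8)) :=
    continuous_const.div (by fun_prop) fun t =>
      (Real.sqrt_pos.2 (lt_max_of_lt_right (by positivity))).ne'
  obtain ⟨R, hR⟩ : ∃ R, R = cfc (fun t : ℝ => 1 / Real.sqrt (max t (κ / 8))) T := ⟨_, rfl⟩
  have hRT : R * T * R = 1 := by
    rw [hR, conj_cfc T hTs _ hrc, ← cfc_const_one ℝ T hTs]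
    apply cfc_congr
    intro t ht
    have h1 := k6 t ht
    have h0 : 0 < t := lt_of_lt_of_le (by positivity) h1
    simp only
    rw [max_eq_left h1]
    obtain ⟨s, hs, h3, hs0⟩ : ∃ s, s = Real.sqrt t ∧ s * s = t ∧ s ≠ 0 :=
      ⟨_, rfl, Real.mul_self_sqrt h0.le, (Real.sqrt_pos.2 h0).ne'⟩
    rw [← hs]
    rw [← h3]
    field_simp
  refine ⟨R * D₀, ?_⟩
  have hRs : star R = R := by rw [hR]; exact (cfc_sa _ _).star_eq
  rw [star_mul, hRs, ← hRT, hT]
  simp only [mul_assoc]

/-- the main result -/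
theorem main (hA : PI A) (ι : A →⋆ₐ[ℂ] B) (hinj : Function.Injective ι) (U : unitary B)
    (α : A ≃⋆ₐ[ℂ] A)
    (hcov : ∀ a : A, (U : B) * ι a * star (U : B) = ι (α a)) (hα : FinRok α)
    (hd : (StarAlgebra.adjoin ℂ (Set.range (ι : A → B) ∪ {(U : B)})).topologicalClosure = ⊤)
    (hγ : ∀ z : ℂ, ‖z‖ = 1 → ∃ γ : B →⋆ₐ[ℂ] B, IsG ι U z γ)
    (hS : Pool.Agent.H327R4.Pure.SimpleC B) : PI B := by
  have hun := unit_sub hA ι hinj U α hcov hα hd hγ hS
  haveI := hS.1
  haveI : Nontrivial A := by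
    refine ⟨⟨1, 0, fun h => ?_⟩⟩
    have := congrArg ι h
    rw [map_one, map_zero] at this
    exact one_ne_zero this
  refine ⟨fun I hI hcomm => ?_, fun a b ha hb hab => ?_⟩
  · rcases hS.2 I hI with h | h
    · exfalso
      obtain ⟨x, hx0, hxx, _⟩ := exists_nil hA 1 ⟨1, by simp⟩ one_ne_zero
      have h1 := hcomm (ι x) (ι (star x))
      rw [h, TwoSidedIdeal.mem_bot, ← map_mul, ← map_mul, ← map_sub] at h1
      have h2 : x * star x - star x * x = 0 := hinj (by rw [h1, map_zero])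
      rw [sub_eq_zero] at h2
      have h3 : star (star x * x) * (star x * x) = 0 := by
        rw [star_mul, star_star]
        calc star x * x * (star x * x) = star x * (x * star x) * x := by simp only [mul_assoc]
          _ = star x * (star x * x) * x := by rw [h2]
          _ = star x * star x * (x * x) := by simp only [mul_assoc]
          _ = 0 := by rw [hxx, mul_zero]
      exact hx0 (CStarRing.star_mul_self_eq_zero_iff x |>.1
        (CStarRing.star_mul_self_eq_zero_iff _ |>.1 h3))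
    · exact h
  · intro ε hε
    by_cases hb0 : b = 0
    · have hbot : IsClosed ((⊥ : TwoSidedIdeal B) : Set B) := by
        have : ((⊥ : TwoSidedIdeal B) : Set B) = {0} := by
          ext z; simp [TwoSidedIdeal.mem_bot]
        rw [this]; exact isClosed_singleton
      have h1 := hab ⊥ hbot (by rw [hb0]; exact zero_mem _)
      rw [TwoSidedIdeal.mem_bot] at h1
      refine ⟨0, ?_⟩
      rw [h1, hb0]
      simpa using hε
    · obtain ⟨D, hD⟩ := hun b hb hb0
      obtain ⟨s, hs⟩ := ha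
      refine ⟨star s * D, ?_⟩
      have : star s * D * b * star (star s * D) = a := by
        rw [star_mul, star_star, hs]
        calc _ = star s * (D * b * star D) * s := by simp only [mul_assoc]
          _ = _ := by rw [hD, mul_one]
      rw [this, sub_self, norm_zero]
      exact hε

end Pool.Agent.H898P
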