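import Pool.Agent.H898P.StepE

/-! Local pure infiniteness of crossed products (not necessarily simple). -/

set_option autoImplicit false

noncomputable section

namespace Pool.Agent.H898P

open Pool.Agent.H898SR

variable {A B : Type} [CStarAlgebra A] [CStarAlgebra B]

theorem cle_trans (a b c : B) (h1 : Cle a b) (h2 : Cle b c) : Cle a c := by
  intro ε hε
  obtain ⟨x, hx⟩ := h1 (ε / 2) (by positivity)
  obtain ⟨w, hw⟩ := h2 (ε / (2 * (‖x‖ ^ 2 + 1))) (by positivity)
  refine ⟨x * w, ?_⟩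
  have e1 : x * w * c * star (x * w) - a = x * (w * c * star w - b) * star x +
      (x * b * star x - a) := by
    rw [star_mul]; noncomm_ring
  rw [e1]
  calc _ ≤ ‖x‖ * ‖w * c * star w - b‖ * ‖x‖ + ‖x * b * star x - a‖ := by
        refine (norm_add_le _ _).trans (add_le_add ?_ le_rfl)
        refine (norm_mul_le _ _).trans ?_
        rw [norm_star]
        exact mul_le_mul_of_nonneg_right (norm_mul_le _ _) (norm_nonneg _)
    _ < ε / 2 + ε / 2 := by
        refine add_lt_add_of_le_of_lt ?_ hx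
        calc _ ≤ ‖x‖ * (ε / (2 * (‖x‖ ^ 2 + 1))) * ‖x‖ := by gcongr
          _ = ε / 2 * (‖x‖ ^ 2 / (‖x‖ ^ 2 + 1)) := by field_simp
          _ ≤ ε / 2 * 1 := by
              gcongr
              rw [div_le_one (by positivity)]
              linarith
          _ = ε / 2 := mul_one _
    _ = ε := by ring

theorem cle_conj (x b : B) : Cle (x * b * star x) b := fun ε hε => ⟨x, by simpa using hε⟩

theorem cle_refl (b : B) : Cle b b := fun ε hε => ⟨1, by simpa using hε⟩

theorem cle_smul (M : ℝ) (hM : 0 ≤ M) (b : B) : Cle (M • b) b := by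
  intro ε hε
  refine ⟨Real.sqrt M • 1, ?_⟩
  have : (Real.sqrt M • (1 : B)) * b * star (Real.sqrt M • (1 : B)) = M • b := by
    rw [star_smul, star_trivial (Real.sqrt M), star_one, smul_mul_assoc, one_mul,
      mul_smul_comm, mul_one, smul_smul, Real.mul_self_sqrt hM]
  rw [this, sub_self, norm_zero]
  exact hε

theorem cle_lim (a b : B) (h : ∀ ε : ℝ, 0 < ε → ∃ a', ‖a - a'‖ < ε ∧ Cle a' b) : Cle a b := by
  intro ε hε
  obtain ⟨a', h1, h2⟩ := h (ε / 2) (by positivity)
  obtain ⟨x, hx⟩ := h2 (ε / 2) (by positivity)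
  refine ⟨x, ?_⟩
  calc _ = ‖(x * b * star x - a') - (a - a')‖ := by congr 1; abel
    _ ≤ ‖x * b * star x - a'‖ + ‖a - a'‖ := norm_sub_le _ _
    _ < ε / 2 + ε / 2 := add_lt_add hx h1
    _ = ε := by ring

theorem cle_of_le (y z : B) (hy : Ps y) (hz : Ps z) (h : Ps (z - y)) : Cle y z := by
  let _ := CStarAlgebra.spectralOrder B
  let _ := CStarAlgebra.spectralOrderedRing B
  intro ε hε
  obtain ⟨δ, hδ⟩ : ∃ δ : ℝ, δ = ε / 2 := ⟨_, rfl⟩
  have hδ0 : 0 < δ := by rw [hδ]; positivity
  have hne : ∀ t : ℝ, 0 < |t| + δ := fun t => by positivity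
  have hc1 : Continuous fun t : ℝ => 1 / Real.sqrt (|t| + δ) :=
    continuous_const.div (by fun_prop) fun t => (Real.sqrt_pos.2 (hne t)).ne'
  have hc2 : Continuous fun t : ℝ => Real.sqrt (δ / (|t| + δ)) :=
    Real.continuous_sqrt.comp (continuous_const.div (by fun_prop) fun t => (hne t).ne')
  obtain ⟨s, hs⟩ : ∃ s, s = cfc (fun t : ℝ => Real.sqrt t) y := ⟨_, rfl⟩
  have hss : star s = s := by rw [hs]; exact (cfc_sa _ _).star_eq
  have hsy : s * s = y := by
    rw [hs, cm y _ _ (by fun_prop) (by fun_prop)]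
    conv_rhs => rw [← cfc_i y hy.sa]
    apply cfc_congr
    intro t ht
    exact Real.mul_self_sqrt (hy.spec t ht)
  obtain ⟨r, hr⟩ : ∃ r, r = cfc (fun t : ℝ => 1 / Real.sqrt (|t| + δ)) z := ⟨_, rfl⟩
  obtain ⟨q, hq⟩ : ∃ q, q = cfc (fun t : ℝ => Real.sqrt (δ / (|t| + δ))) z := ⟨_, rfl⟩
  have hrs : star r = r := by rw [hr]; exact (cfc_sa _ _).star_eq
  have hqs : star q = q := by rw [hq]; exact (cfc_sa _ _).star_eq
  have e1 : 1 - r * z * r = q * q := by
    rw [hr, conj_cfc z hz.sa _ hc1, hq, cm z _ _ hc2 hc2, ← cfc_const_one ℝ z hz.sa,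
      ← cfc_sub (fun _ : ℝ => (1 : ℝ))
        (fun t : ℝ => 1 / Real.sqrt (|t| + δ) * t * (1 / Real.sqrt (|t| + δ))) z
        continuous_const.continuousOn ((hc1.mul continuous_id').mul hc1).continuousOn]
    apply cfc_congr
    intro t ht
    have h0 := hz.spec t ht
    have hp := hne t
    simp only
    rw [Real.mul_self_sqrt (by positivity)]
    rw [abs_of_nonneg h0] at hp ⊢
    obtain ⟨s, hs, h3, hs0⟩ : ∃ s, s = Real.sqrt (t + δ) ∧ s * s = t + δ ∧ s ≠ 0 :=
      ⟨_, rfl, Real.mul_self_sqrt hp.le, (Real.sqrt_pos.2 hp).ne'⟩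
    rw [← hs]
    have h4 : 1 / s * t * (1 / s) = t / (t + δ) := by
      rw [← h3]; field_simp
    rw [h4, eq_div_iff hp.ne', sub_mul, div_mul_cancel₀ _ hp.ne']
    ring
  refine ⟨s * r, ?_⟩
  have e2 : s * r * z * star (s * r) - y = -((s * q) * star (s * q)) := by
    rw [star_mul, star_mul, hss, hrs, hqs]
    calc _ = -(s * (1 - r * z * r) * s) := by rw [← hsy]; noncomm_ring
      _ = _ := by rw [e1]; simp only [mul_assoc]
  rw [e2, norm_neg, CStarRing.norm_self_mul_star, ← CStarRing.norm_star_mul_self]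
  have e3 : star (s * q) * (s * q) = q * y * q := by
    rw [star_mul, hss, hqs, ← hsy]; simp only [mul_assoc]
  have e4 : q * y * q ≤ q * z * q := by
    have h1 : y ≤ z := by
      obtain ⟨v, hv⟩ := h
      rw [← sub_nonneg, hv]
      exact star_mul_self_nonneg v
    have := star_left_conjugate_le_conjugate h1 q
    rwa [hqs] at this
  have e5 : ‖q * z * q‖ ≤ δ := by
    rw [hq, conj_cfc z hz.sa _ hc2]
    apply norm_cfc_le hδ0.le
    intro t ht
    have h0 := hz.spec t ht
    have hp := hne t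
    rw [Real.norm_eq_abs]
    have e6 : Real.sqrt (δ / (|t| + δ)) * t * Real.sqrt (δ / (|t| + δ)) = t * (δ / (|t| + δ)) := by
      rw [mul_comm (Real.sqrt _) t, mul_assoc, Real.mul_self_sqrt (by positivity)]
    rw [e6, abs_of_nonneg (by positivity), mul_div_assoc', div_le_iff₀ hp, abs_of_nonneg h0]
    nlinarith [mul_pos hδ0 hδ0]
  rw [e3]
  have e7 : 0 ≤ q * y * q := by
    rw [← e3]; exact star_mul_self_nonneg _
  calc _ ≤ ‖q * z * q‖ := CStarAlgebra.norm_le_norm_of_nonneg_of_le e7 e4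
    _ ≤ δ := e5
    _ < ε := by rw [hδ]; linarith

theorem cle_add (hA : PI A) (x : A) (hx : x * x = 0) (ι : A →⋆ₐ[ℂ] B) (a b : B)
    (ha : Cle a (ι (star x * x))) (hb : Cle b (ι (star x * x))) :
    Cle (a + b) (ι (star x * x)) := by
  intro ε hε
  obtain ⟨v, hv⟩ := ha (ε / 4) (by positivity)
  obtain ⟨w, hw⟩ := hb (ε / 4) (by positivity)
  obtain ⟨K, hK⟩ : ∃ K : ℝ, K = ‖v‖ + ‖w‖ + 1 := ⟨_, rfl⟩
  have hK0 : 0 < K := by rw [hK]; positivity
  have hvK : ‖v‖ ≤ K := by rw [hK]; linarith [norm_nonneg w]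
  have hwK : ‖w‖ ≤ K := by rw [hK]; linarith [norm_nonneg v]
  obtain ⟨r, s, h1, h2, h3⟩ := two_fold hA x hx (ε / (8 * K ^ 2)) (by positivity)
  obtain ⟨e, he⟩ : ∃ e, e = star x * x := ⟨_, rfl⟩
  have hes : star e = e := by rw [he]; exact (IsSelfAdjoint.star_mul_self x).star_eq
  rw [← he] at h1 h2 h3 hv hw ⊢
  have h3' : ‖s * e * star r‖ < ε / (8 * K ^ 2) := by
    have : star (r * e * star s) = s * e * star r := by
      rw [star_mul, star_mul, star_star, hes, mul_assoc]
    rw [← this, norm_star]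
    exact h3
  refine ⟨v * ι r + w * ι s, ?_⟩
  have e1 : (v * ι r + w * ι s) * ι e * star (v * ι r + w * ι s) - (a + b) =
      v * ι (r * e * star r - e) * star v + w * ι (s * e * star s - e) * star w +
      v * ι (r * e * star s) * star w + w * ι (s * e * star r) * star v +
      (v * ι e * star v - a) + (w * ι e * star w - b) := by
    simp only [star_add, star_mul, map_sub, map_mul, map_star]
    noncomm_ring
  have bd : ∀ (p q : B) (z : A), ‖p‖ ≤ K → ‖q‖ ≤ K → ‖z‖ < ε / (8 * K ^ 2) →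
      ‖p * ι z * star q‖ ≤ ε / 8 := by
    intro p q z hp hq hz
    calc _ ≤ ‖p‖ * ‖ι z‖ * ‖star q‖ :=
          (norm_mul_le _ _).trans (mul_le_mul_of_nonneg_right (norm_mul_le _ _) (norm_nonneg _))
      _ ≤ K * (ε / (8 * K ^ 2)) * K := by
          rw [norm_star]
          have := (NonUnitalStarAlgHom.norm_apply_le ι z).trans hz.le
          gcongr
      _ = ε / 8 := by field_simp
  have b1 := bd v v _ hvK hvK h1
  have b2 := bd w w _ hwK hwK h2
  have b3 := bd v w _ hvK hwK h3
  have b4 := bd w v _ hwK hvK h3'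
  rw [e1]
  calc _ ≤ ‖v * ι (r * e * star r - e) * star v‖ + ‖w * ι (s * e * star s - e) * star w‖ +
      ‖v * ι (r * e * star s) * star w‖ + ‖w * ι (s * e * star r) * star v‖ +
      ‖v * ι e * star v - a‖ + ‖w * ι e * star w - b‖ := by
        refine (norm_add_le _ _).trans (add_le_add ?_ le_rfl)
        refine (norm_add_le _ _).trans (add_le_add ?_ le_rfl)
        refine (norm_add_le _ _).trans (add_le_add ?_ le_rfl)
        refine (norm_add_le _ _).trans (add_le_add ?_ le_rfl)
        exact norm_add_le _ _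
    _ < ε := by linarith

theorem isClosed_cle (b : B) : IsClosed {a : B | Cle a b} := by
  apply isClosed_of_closure_subset
  intro a ha
  refine cle_lim a b fun ε hε => ?_
  rw [Metric.mem_closure_iff] at ha
  obtain ⟨a', h1, h2⟩ := ha ε hε
  exact ⟨a', by rwa [dist_eq_norm] at h2, h1⟩

/-- every positive element of the ideal of `B` generated by `ι (x*x)` is Cuntz below `ι (x*x)` -/
theorem ideal_N (hA : PI A) (x : A) (hx : x * x = 0) (ι : A →⋆ₐ[ℂ] B) (c : B) (hc : Ps c)
    (hI : InId c (ι (star x * x))) : Cle c (ι (star x * x)) := by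
  let _ := CStarAlgebra.spectralOrder B
  let _ := CStarAlgebra.spectralOrderedRing B
  set E := ι (star x * x) with hE
  have hl : ∀ y s : B, Cle (star s * s) E → Cle (star (y * s) * (y * s)) E := by
    intro y s hs
    have h1 : star y * y ≤ (‖y‖ ^ 2) • (1 : B) := by
      have h1 := CStarAlgebra.star_mul_le_algebraMap_norm_sq (A := B) (a := y)
      rwa [Algebra.algebraMap_eq_smul_one] at h1
    have h2 := star_left_conjugate_le_conjugate h1 s
    have h3 : star s * (star y * y) * s = star (y * s) * (y * s) := by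
      rw [star_mul]; simp only [mul_assoc]
    have h4 : star s * ((‖y‖ ^ 2) • (1 : B)) * s = (‖y‖ ^ 2) • (star s * s) := by
      rw [mul_smul_comm, mul_one, smul_mul_assoc]
    rw [h3, h4] at h2
    have h5 : Cle (star (y * s) * (y * s)) ((‖y‖ ^ 2) • (star s * s)) :=
      cle_of_le _ _ ⟨_, rfl⟩ (ps_of_nonneg (smul_nonneg (by positivity) (star_mul_self_nonneg s)))
        (ps_of_nonneg (sub_nonneg.2 h2))
    exact cle_trans _ _ _ (cle_trans _ _ _ h5 (cle_smul _ (by positivity) _)) hs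
  set N : TwoSidedIdeal B := TwoSidedIdeal.mk' {s : B | Cle (star s * s) E}
    (by
      rw [Set.mem_ofPred_eq]
      intro ε hε
      exact ⟨0, by simpa using hε⟩)
    (by
      intro s t hs ht
      rw [Set.mem_ofPred_eq] at *
      have h1 : Cle (star s * s + star t * t) E := cle_add hA x hx ι _ _ hs ht
      have h2 : Cle ((2 : ℝ) • (star s * s + star t * t)) (star s * s + star t * t) :=
        cle_smul 2 (by norm_num) _
      have h3 : Cle (star (s + t) * (s + t)) ((2 : ℝ) • (star s * s + star t * t)) := by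
        apply cle_of_le _ _ ⟨_, rfl⟩
        · exact ps_of_nonneg (smul_nonneg (by norm_num)
            (add_nonneg (star_mul_self_nonneg s) (star_mul_self_nonneg t)))
        · refine ⟨s - t, ?_⟩
          rw [two_smul, star_add, star_sub]; noncomm_ring
      exact cle_trans _ _ _ h3 (cle_trans _ _ _ h2 h1))
    (by
      intro s hs
      rw [Set.mem_ofPred_eq] at *
      rwa [star_neg, neg_mul_neg])
    (by
      intro y s hs
      rw [Set.mem_ofPred_eq] at *
      exact hl y s hs)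
    (by
      intro s y hs
      rw [Set.mem_ofPred_eq] at *
      have h1 : star (s * y) * (s * y) = star y * (star s * s) * star (star y) := by
        rw [star_mul, star_star]; simp only [mul_assoc]
      rw [h1]
      exact cle_trans _ _ _ (cle_conj _ _) hs) with hN
  have hNc : IsClosed (N : Set B) := by
    rw [hN, TwoSidedIdeal.coe_mk']
    exact (isClosed_cle E).preimage (by fun_prop : Continuous fun s : B => star s * s)
  have hxN : ι x ∈ N := by
    rw [hN, TwoSidedIdeal.mem_mk']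
    show Cle (star (ι x) * ι x) E
    rw [← map_star, ← map_mul]
    exact cle_refl _
  have hEN : E ∈ N := by
    rw [hE, map_mul]
    exact N.mul_mem_left _ _ hxN
  obtain ⟨s, hs⟩ := hc
  have hcN := hI N hNc hEN
  rw [hs] at hcN
  have hsN := mem_of_star_mul N hNc s hcN
  rw [hN, TwoSidedIdeal.mem_mk'] at hsN
  rw [hs]
  exact hsN

theorem cle_map (ι : A →⋆ₐ[ℂ] B) (a b : A) (h : Cle a b) : Cle (ι a) (ι b) := by
  intro ε hε
  obtain ⟨x, hx⟩ := h ε hε
  refine ⟨ι x, ?_⟩
  have : ι x * ι b * star (ι x) - ι a = ι (x * b * star x - a) := by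
    simp only [map_sub, map_mul, map_star]
  rw [this]
  exact (NonUnitalStarAlgHom.norm_apply_le ι _).trans_lt hx

/-- local pure infiniteness of the crossed product -/
theorem local_pi (hA : PI A) (ι : A →⋆ₐ[ℂ] B) (U : unitary B)
    (α : A ≃⋆ₐ[ℂ] A)
    (hcov : ∀ a : A, (U : B) * ι a * star (U : B) = ι (α a)) (hα : FinRok α)
    (hd : (StarAlgebra.adjoin ℂ (Set.range (ι : A → B) ∪ {(U : B)})).topologicalClosure = ⊤)
    (hγ : ∀ z : ℂ, ‖z‖ = 1 → ∃ γ : B →⋆ₐ[ℂ] B, IsG ι U z γ) (b : B) (hb : Ps b) (hb0 : b ≠ 0) :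
    ∃ x : A, x ≠ 0 ∧ x * x = 0 ∧ Cle (ι (star x * x)) b ∧
      ∀ c : B, Ps c → InId c (ι (star x * x)) → Cle c b := by
  let _ := CStarAlgebra.spectralOrder B
  let _ := CStarAlgebra.spectralOrderedRing B
  obtain ⟨a, κ, X, hκ, haP, haκ, hX⟩ := compress ι U α hcov hα hd hγ b hb hb0
  have hX' : ι a - (κ / 4) • (1 : B) ≤ X * b * star X := by
    have := Ps.nonneg' hX
    rw [← sub_nonneg]
    refine this.trans (le_of_eq ?_)
    abel
  have hgc : Continuous fun t : ℝ => max (t - κ / 2) 0 := by fun_prop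
  obtain ⟨g, hg⟩ : ∃ g, g = cfc (fun t : ℝ => max (t - κ / 2) 0) a := ⟨_, rfl⟩
  have hgs : star g = g := by rw [hg]; exact (cfc_sa _ _).star_eq
  have hg0 : g ≠ 0 := by
    intro h0
    have h1 : ‖a‖ ≤ κ / 2 := by
      rw [← cfc_i a haP.sa]
      apply norm_cfc_le (by positivity)
      intro t ht
      rw [Real.norm_eq_abs, abs_of_nonneg (haP.spec t ht)]
      by_contra hcon
      rw [not_le] at hcon
      refine cfc_ne_zero' a haP.sa (fun t : ℝ => max (t - κ / 2) 0)
        hgc t ht ?_ (hg ▸ h0)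
      rw [max_eq_left (by linarith)]
      linarith
    linarith
  have hgg0 : star g * g ≠ 0 := fun h => hg0 (CStarRing.star_mul_self_eq_zero_iff g |>.1 h)
  obtain ⟨x, hx0, hxx, hxI⟩ := exists_nil hA (star g * g) ⟨g, rfl⟩ hgg0
  have hcle : Cle (star x * x) (star g * g) :=
    hA.2 _ _ ⟨x, rfl⟩ ⟨g, rfl⟩ fun I hI h => I.mul_mem_left _ _ (hxI I hI h)
  have hιg : star (ι g) = ι g := by rw [← map_star, hgs]
  have k5 : ι ((κ / 4) • (g * g)) ≤ ι (g * (a - (κ / 4) • 1) * g) := by
    have hps : Ps (g * (a - (κ / 4) • 1) * g - (κ / 4) • (g * g)) := by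
      have e1 : g * (a - (κ / 4) • 1) * g - (κ / 4) • (g * g) =
          cfc (fun t : ℝ => (max (t - κ / 2) 0 * t * max (t - κ / 2) 0) -
            (κ / 2) * (max (t - κ / 2) 0 * max (t - κ / 2) 0)) a := by
        rw [cfc_sub (fun t : ℝ => (max (t - κ / 2) 0 * t * max (t - κ / 2) 0))
          (fun t : ℝ => (κ / 2) * (max (t - κ / 2) 0 * max (t - κ / 2) 0)) a
          (by fun_prop) (by fun_prop),
          ← conj_cfc a haP.sa _ hgc,
          cfc_const_mul (κ / 2) (fun t : ℝ => max (t - κ / 2) 0 * max (t - κ / 2) 0) a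
            (by fun_prop), ← cm a _ _ hgc hgc, ← hg]
        have e2 : (κ / 2) • (g * g) = (κ / 4) • (g * g) + (κ / 4) • (g * g) := by
          rw [← add_smul]; congr 1; ring
        rw [e2, mul_sub, sub_mul, mul_smul_comm, mul_one, smul_mul_assoc]
        abel
      rw [e1]
      apply ps_of (cfc_sa _ _)
      intro s hs
      rw [cfc_map_spectrum _ a haP.sa (by fun_prop)] at hs
      obtain ⟨t, ht, rfl⟩ := hs
      simp only
      rcases le_total (t - κ / 2) 0 with h | h
      · rw [max_eq_right h]; simp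
      · rw [max_eq_left h]
        have : (t - κ / 2) * t * (t - κ / 2) - κ / 2 * ((t - κ / 2) * (t - κ / 2)) =
            (t - κ / 2) * ((t - κ / 2) * (t - κ / 2)) := by ring
        rw [this]
        exact mul_nonneg h (mul_nonneg h h)
    obtain ⟨v, hv⟩ := hps
    rw [← sub_nonneg, ← map_sub, hv, map_mul, map_star]
    exact star_mul_self_nonneg _
  have k6 : ι (star g * g) ≤ (4 / κ) • ((ι g * X) * b * star (ι g * X)) := by
    have h1 := star_right_conjugate_le_conjugate hX' (ι g)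
    have h3 : ι g * (X * b * star X) * star (ι g) = (ι g * X) * b * star (ι g * X) := by
      rw [star_mul (ι g) X]; simp only [mul_assoc]
    have h4 : ι g * (ι a - (κ / 4) • (1 : B)) * star (ι g) =
        ι (g * (a - (κ / 4) • 1) * g) := by
      rw [hιg, map_mul, map_mul, map_sub]
      have : ι ((κ / 4 : ℝ) • (1 : A)) = (κ / 4 : ℝ) • (1 : B) := by
        have h5 : ((κ / 4 : ℝ) • (1 : A)) = ((κ / 4 : ℝ) : ℂ) • (1 : A) := (Complex.coe_smul _ _).symm
        rw [h5, map_smul, map_one, Complex.coe_smul]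
      rw [this]
    have h5 : ι ((κ / 4) • (g * g)) = (κ / 4) • ι (star g * g) := by
      have h6 : ((κ / 4 : ℝ) • (g * g)) = ((κ / 4 : ℝ) : ℂ) • (g * g) := (Complex.coe_smul _ _).symm
      rw [h6, map_smul, Complex.coe_smul, hgs]
    rw [h3, h4] at h1
    have h7 := k5.trans h1
    rw [h5] at h7
    have h8 := smul_le_smul_of_nonneg_left h7 (show (0 : ℝ) ≤ 4 / κ by positivity)
    rw [smul_smul] at h8
    have h9 : 4 / κ * (κ / 4) = 1 := by field_simp
    rwa [h9, one_smul] at h8
  have hbn : 0 ≤ (ι g * X) * b * star (ι g * X) := star_right_conjugate_nonneg (Ps.nonneg' hb) _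
  have h1 : Cle (ι (star g * g)) ((4 / κ) • ((ι g * X) * b * star (ι g * X))) := by
    refine cle_of_le _ _ ⟨ι g, by rw [map_mul, map_star]⟩
      (ps_of_nonneg (smul_nonneg (by positivity) hbn)) (ps_of_nonneg (sub_nonneg.2 k6))
  have h2 : Cle (ι (star x * x)) b :=
    cle_trans _ _ _ (cle_map ι _ _ hcle) (cle_trans _ _ _ h1
      (cle_trans _ _ _ (cle_smul _ (by positivity) _) (cle_conj _ _)))
  exact ⟨x, hx0, hxx, h2, fun c hc hI => cle_trans _ _ _ (ideal_N hA x hxx ι c hc hI) h2⟩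

end Pool.Agent.H898P
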