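import Pool.Agent.H898P.StepF

/-! Relative (residual) versions. -/

set_option autoImplicit false

noncomputable section

namespace Pool.Agent.H898P

open Pool.Agent.H898SR

section

variable {A : Type} [CStarAlgebra A]

theorem central_skew' (h : A) (hh : Ps h) (y : A)
    (H1 : ∀ δ : ℝ, 0 < δ → ∀ (k : ℕ), (1 - cfc (P δ k) h) * y * cfc (P δ (k + 1)) h = 0)
    (H2 : ∀ δ : ℝ, 0 < δ → ∀ (k : ℕ), cfc (P δ (k + 1)) h * y * (1 - cfc (P δ k) h) = 0)
    (hy : star y = -y) : h * y = y * h := by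
  let _ := CStarAlgebra.spectralOrder A
  let _ := CStarAlgebra.spectralOrderedRing A
  rcases subsingleton_or_nontrivial A with hs | hs
  · exact Subsingleton.elim _ _
  have key : ∀ δ : ℝ, 0 < δ → ‖h * y - y * h‖ ≤ δ * (1 + ‖y‖ ^ 2) := by
    intro δ hδ
    obtain ⟨N, hN⟩ := exists_nat_ge (‖h‖ / δ)
    set p : ℕ → A := fun k => cfc (P δ k) h with hp
    set q : ℕ → A := fun k => p k - p (k + 1) with hq
    have psa : ∀ k, star (p k) = p k := fun k => (cfc_sa _ _).star_eq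
    have qsa : ∀ k, star (q k) = q k := fun k => by simp only [hq, star_sub, psa]
    have ph : h = δ • ∑ k ∈ Finset.range N, p (k + 1) := by
      have e1 : ∑ k ∈ Finset.range N, p (k + 1) =
          cfc (fun t => ∑ k ∈ Finset.range N, P δ (k + 1) t) h := by
        have := cfc_sum (fun k => P δ (k + 1)) h (Finset.range N)
          (fun k _ => (P_cont δ (k + 1)).continuousOn)
        simp only [hp]
        rw [← this]
        congr 1
        funext t
        simp [Finset.sum_apply]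
      rw [e1, ← cfc_smul δ _ h (by
        apply Continuous.continuousOn
        exact continuous_finsetSum _ fun k _ => P_cont δ (k + 1))]
      conv_lhs => rw [← cfc_i h hh.sa]
      apply cfc_congr
      intro t ht
      have h0 := hh.spec t ht
      have h1 : t ≤ ‖h‖ := (le_abs_self t).trans (spectrum.norm_le_norm_of_mem ht)
      simp only
      rw [P_sum δ hδ t h0, min_eq_left ((div_le_div_of_nonneg_right h1 hδ.le).trans hN),
        smul_eq_mul]
      field_simp
    have a1 : ∀ (k : ℕ), y * p (k + 1) = p k * y * p (k + 1) := by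
      intro k
      have := H1 δ hδ k
      rw [sub_mul, sub_mul, one_mul, sub_eq_zero] at this
      exact this
    have a2 : ∀ (k : ℕ), p (k + 1) * y = p (k + 1) * y * p k := by
      intro k
      have := H2 δ hδ k
      rw [mul_sub, mul_one, sub_eq_zero] at this
      exact this
    have pm : ∀ k, p k * p (k + 1) = p (k + 1) := by
      intro k
      simp only [hp]
      rw [cm _ _ _ (P_cont δ k) (P_cont δ (k + 1))]
      congr 1
      funext t
      exact P_mul δ k t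
    have pm' : ∀ k, p (k + 1) * p k = p (k + 1) := by
      intro k
      have := congrArg star (pm k)
      rwa [star_mul, psa, psa] at this
    have z1 : ∀ k, p (k + 1 + 1) * y * q k = 0 := by
      intro k
      have e1 : p (k + 1 + 1) * y * p k = p (k + 1 + 1) * y * p (k + 1) := by
        have e2 := a2 (k + 1)
        calc p (k + 1 + 1) * y * p k = p (k + 1 + 1) * y * p (k + 1) * p k := by rw [← e2]
          _ = p (k + 1 + 1) * y * (p (k + 1) * p k) := by simp only [mul_assoc]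
          _ = _ := by rw [pm']
      simp only [hq]
      rw [mul_sub, e1, sub_self]
    have z2 : ∀ k, q k * y * p (k + 1 + 1) = 0 := by
      intro k
      have e1 : p k * y * p (k + 1 + 1) = p (k + 1) * y * p (k + 1 + 1) := by
        have e2 := a1 (k + 1)
        calc p k * y * p (k + 1 + 1) = p k * (y * p (k + 1 + 1)) := by simp only [mul_assoc]
          _ = p k * (p (k + 1) * y * p (k + 1 + 1)) := by rw [← e2]
          _ = p k * p (k + 1) * y * p (k + 1 + 1) := by simp only [mul_assoc]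
          _ = _ := by rw [pm]
      simp only [hq]
      rw [sub_mul, sub_mul, e1, sub_self]
    have tk : ∀ k, p (k + 1) * y - y * p (k + 1) = q (k + 1) * y * q k - q k * y * q (k + 1) := by
      intro k
      have e1 : q (k + 1) * y * q k = p (k + 1) * y * q k := by
        have := z1 k
        calc q (k + 1) * y * q k = p (k + 1) * y * q k - p (k + 1 + 1) * y * q k := by
              simp only [hq, sub_mul, mul_sub]; abel
          _ = _ := by rw [this, sub_zero]
      have e2 : q k * y * q (k + 1) = q k * y * p (k + 1) := by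
        have := z2 k
        calc q k * y * q (k + 1) = q k * y * p (k + 1) - q k * y * p (k + 1 + 1) := by
              simp only [hq, sub_mul, mul_sub]
          _ = _ := by rw [this, sub_zero]
      rw [e1, e2]
      simp only [hq]
      rw [mul_sub, sub_mul, sub_mul, ← a2 k, ← a1 k]
      abel
    have hT : h * y - y * h = δ • ∑ k ∈ Finset.range N,
        (q (k + 1) * y * q k - q k * y * q (k + 1)) := by
      rw [Finset.sum_congr rfl fun k _ => (tk k).symm, Finset.sum_sub_distrib, ← Finset.sum_mul,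
        ← Finset.mul_sum, smul_sub, ← smul_mul_assoc, ← mul_smul_comm, ← ph]
    set T := ∑ k ∈ Finset.range N, (q (k + 1) * y * q k - q k * y * q (k + 1)) with hTdef
    have hTs : IsSelfAdjoint T := by
      rw [IsSelfAdjoint, hTdef, star_sum]
      refine Finset.sum_congr rfl fun k _ => ?_
      rw [star_sub, star_mul, star_mul, star_mul, star_mul, qsa, qsa, hy]
      noncomm_ring
    have qq : ∀ k, q k * q k ≤ q k := by
      intro k
      have e1 : q k = cfc (fun t => P δ k t - P δ (k + 1) t) h := by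
        simp only [hq, hp]
        rw [cfc_sub _ _ _ (P_cont δ k).continuousOn (P_cont δ (k + 1)).continuousOn]
      rw [e1, cm _ (fun t => P δ k t - P δ (k + 1) t) (fun t => P δ k t - P δ (k + 1) t)
        ((P_cont δ k).sub (P_cont δ (k + 1))) ((P_cont δ k).sub (P_cont δ (k + 1)))]
      apply cfc_mono
      · intro t ht
        have := P_nn δ (k + 1) t
        have := P_anti δ k t
        have := P_le δ k t
        nlinarith
      · exact (((P_cont δ k).sub (P_cont δ (k + 1))).mul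
          ((P_cont δ k).sub (P_cont δ (k + 1)))).continuousOn
      · exact ((P_cont δ k).sub (P_cont δ (k + 1))).continuousOn
    have p0 : p 0 = 1 := by
      simp only [hp]
      rw [← cfc_const_one ℝ h hh.sa]
      apply cfc_congr
      intro t ht
      exact P_zero δ hδ t (hh.spec t ht)
    have pn : ∀ k, 0 ≤ p k := fun k => cfc_nonneg fun t _ => P_nn δ k t
    have p1 : ∀ k, p k ≤ 1 := fun k => cfc_le_one _ _ fun t _ => P_le δ k t
    have s1 : ∑ k ∈ Finset.range N, q k * q k ≤ 1 := by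
      calc ∑ k ∈ Finset.range N, q k * q k ≤ ∑ k ∈ Finset.range N, q k :=
            Finset.sum_le_sum fun k _ => qq k
        _ = p 0 - p N := by
            simp only [hq]
            exact Finset.sum_range_sub' p N
        _ ≤ 1 := by rw [p0]; exact sub_le_self _ (pn N)
    have s2 : ∑ k ∈ Finset.range N, q (k + 1) * q (k + 1) ≤ 1 := by
      calc ∑ k ∈ Finset.range N, q (k + 1) * q (k + 1) ≤ ∑ k ∈ Finset.range N, q (k + 1) :=
            Finset.sum_le_sum fun k _ => qq (k + 1)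
        _ = p 1 - p (N + 1) := by
            simp only [hq]
            exact Finset.sum_range_sub' (fun k => p (k + 1)) N
        _ ≤ 1 := (sub_le_self _ (pn (N + 1))).trans (p1 1)
    have yy : star y * y ≤ (‖y‖ ^ 2) • (1 : A) := by
      have h1 := CStarAlgebra.star_mul_le_algebraMap_norm_sq (A := A) (a := y)
      rwa [Algebra.algebraMap_eq_smul_one] at h1
    have bd : ∑ k ∈ Finset.range N, (q (k + 1) * q (k + 1) + q k * (star y * y) * q k) ≤
        (1 + ‖y‖ ^ 2) • (1 : A) := by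
      rw [Finset.sum_add_distrib, add_smul, one_smul]
      apply add_le_add s2
      calc ∑ k ∈ Finset.range N, q k * (star y * y) * q k ≤
          ∑ k ∈ Finset.range N, (‖y‖ ^ 2) • (q k * q k) := by
            apply Finset.sum_le_sum
            intro k _
            have h1 := star_left_conjugate_le_conjugate yy (q k)
            rw [qsa] at h1
            refine h1.trans (le_of_eq ?_)
            rw [mul_smul_comm, mul_one, smul_mul_assoc]
        _ = (‖y‖ ^ 2) • ∑ k ∈ Finset.range N, q k * q k := by rw [Finset.smul_sum]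
        _ ≤ _ := smul_le_smul_of_nonneg_left s1 (by positivity)
    have t1 : T ≤ (1 + ‖y‖ ^ 2) • (1 : A) := by
      refine le_trans ?_ bd
      rw [hTdef]
      apply Finset.sum_le_sum
      intro k _
      have h1 : 0 ≤ star (q (k + 1) - y * q k) * (q (k + 1) - y * q k) := star_mul_self_nonneg _
      rw [← sub_nonneg]
      refine h1.trans (le_of_eq ?_)
      rw [star_sub, star_mul, qsa, qsa, hy]
      noncomm_ring
    have t2 : -T ≤ (1 + ‖y‖ ^ 2) • (1 : A) := by
      refine le_trans ?_ bd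
      rw [hTdef, ← Finset.sum_neg_distrib]
      apply Finset.sum_le_sum
      intro k _
      have h1 : 0 ≤ star (q (k + 1) + y * q k) * (q (k + 1) + y * q k) := star_mul_self_nonneg _
      rw [← sub_nonneg]
      refine h1.trans (le_of_eq ?_)
      rw [star_add, star_mul, qsa, qsa, hy]
      noncomm_ring
    have hn : ‖T‖ ≤ 1 + ‖y‖ ^ 2 := by
      apply norm_le_of_pm T hTs _ (by positivity)
      · exact ps_of_nonneg (sub_nonneg.2 t1)
      · apply ps_of_nonneg
        rw [← sub_neg_eq_add]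
        exact sub_nonneg.2 t2
    rw [hT, norm_smul, Real.norm_of_nonneg hδ.le]
    exact mul_le_mul_of_nonneg_left hn hδ.le
  rw [← sub_eq_zero, ← norm_le_zero_iff]
  apply le_of_forall_pos_le_add
  intro ε hε
  rw [zero_add]
  have h1 := key (ε / (1 + ‖y‖ ^ 2)) (by positivity)
  rwa [div_mul_cancel₀ _ (by positivity)] at h1


end

variable {A B : Type} [CStarAlgebra A] [CStarAlgebra B]

section

variable (ι : A →⋆ₐ[ℂ] B) (U : unitary B)

/-- the zeroth Fourier coefficient of an approximation of a nonzero positive element is bounded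
below -/
theorem coeff_bd' {C : Type} [CStarAlgebra C] (π : B →⋆ₐ[ℂ] C) (hdense : ∀ (x : B) (ε : ℝ), 0 < ε → ∃ c : ℤ →₀ A, ‖x - pol ι U c‖ < ε)
    (hγ : ∀ z : ℂ, ‖z‖ = 1 → ∃ γ : B →⋆ₐ[ℂ] B, IsG ι U z γ) (b : B) (hb : Ps b) (hb0 : π b ≠ 0) :
    ∃ κ : ℝ, 0 < κ ∧ ∀ c : ℤ →₀ A, ‖b - pol ι U c‖ ≤ κ → κ ≤ ‖π (ι (c 0))‖ := by
  let _ := CStarAlgebra.spectralOrder B
  let _ := CStarAlgebra.spectralOrderedRing B
  let _ := CStarAlgebra.spectralOrder C
  let _ := CStarAlgebra.spectralOrderedRing C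
  obtain ⟨β, hβ⟩ : ∃ β, β = ‖π b‖ := ⟨_, rfl⟩
  have hbn : 0 < β := by rw [hβ]; exact norm_pos_iff.2 hb0
  have hπ : ∀ x : B, ‖π x‖ ≤ ‖x‖ := fun x => NonUnitalStarAlgHom.norm_apply_le π x
  obtain ⟨ρ, hρ, hρ2⟩ := g_near ι U hdense b (β / 4) (by positivity)
  obtain ⟨K, hK⟩ := exists_nat_gt (2 * Real.pi / ρ)
  have hKp : (0 : ℝ) < K := lt_of_le_of_lt (by positivity) hK
  have hK0 : 0 < K := by exact_mod_cast hKp
  have hKρ : 2 * Real.pi / K < ρ := by
    rw [div_lt_iff₀ hρ] at hK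
    rw [div_lt_iff₀ hKp]
    linarith
  refine ⟨3 / 8 * β / K, by positivity, fun c hc => ?_⟩
  obtain ⟨N, hN⟩ : ∃ N : ℕ, ∀ m ∈ c.support, |m| < (N : ℤ) + 1 := by
    refine ⟨∑ m ∈ c.support, m.natAbs, fun m hm => ?_⟩
    have h1 : m.natAbs ≤ ∑ m ∈ c.support, m.natAbs :=
      Finset.single_le_sum (f := fun m : ℤ => m.natAbs) (fun _ _ => Nat.zero_le _) hm
    rw [Int.abs_eq_natAbs]
    omega
  obtain ⟨M, hM⟩ : ∃ M : ℕ, M = K * (N + 1) := ⟨_, rfl⟩
  have hM0 : M ≠ 0 := by rw [hM]; positivity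
  have hMN : N + 1 ≤ M := by rw [hM]; nlinarith
  have hMp : (0 : ℝ) < M := by exact_mod_cast Nat.pos_of_ne_zero hM0
  choose γ hγ using fun j : ℕ => hγ _ (root_norm M j)
  set S := ∑ j ∈ Finset.range M, π (γ j b) with hS
  -- lower bound
  have low : 3 / 4 * β / K * M ≤ ‖S‖ := by
    set S' := ∑ j ∈ Finset.range (N + 1), π (γ j b) with hS'
    have hpos : ∀ j, 0 ≤ π (γ j b) := by
      intro j
      obtain ⟨y, rfl⟩ := hb
      rw [map_mul, map_star, map_mul, map_star]
      exact star_mul_self_nonneg _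
    have h1 : S' ≤ S := by
      rw [hS, hS']
      exact Finset.sum_le_sum_of_subset_of_nonneg (Finset.range_subset_range.2 hMN)
        fun j _ _ => hpos j
    have h0 : 0 ≤ S' := Finset.sum_nonneg fun j _ => hpos j
    have h2 : ‖S'‖ ≤ ‖S‖ := CStarAlgebra.norm_le_norm_of_nonneg_of_le h0 h1
    have h3 : ‖S' - ((N + 1 : ℕ) : ℝ) • π b‖ ≤ (N + 1 : ℕ) * (β / 4) := by
      have e : S' - ((N + 1 : ℕ) : ℝ) • π b = ∑ j ∈ Finset.range (N + 1), (π (γ j b) - π b) := by
        rw [Finset.sum_sub_distrib, Finset.sum_const, Finset.card_range, hS',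
          Nat.cast_smul_eq_nsmul]
      rw [e]
      refine (norm_sum_le _ _).trans ?_
      refine (Finset.sum_le_card_nsmul _ _ (β / 4) fun j hj => ?_).trans ?_
      · rw [← map_sub]
        refine (hπ _).trans ?_
        refine (hρ2 _ (root_norm M j) ?_ (γ j) (hγ j)).le
        refine (root_near M j).trans_lt (lt_of_le_of_lt ?_ hKρ)
        have hj2 : (j : ℝ) ≤ N + 1 := by
          have := Finset.mem_range.1 hj
          exact_mod_cast this.le
        rw [hM]
        push_cast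
        rw [div_le_div_iff₀ (by positivity) hKp]
        have : 2 * Real.pi * j * K ≤ 2 * Real.pi * (N + 1) * K := by gcongr
        linarith
      · rw [Finset.card_range, nsmul_eq_mul]
    have h4 : ‖((N + 1 : ℕ) : ℝ) • π b‖ = (N + 1 : ℕ) * β := by
      rw [norm_smul, Real.norm_of_nonneg (by positivity), hβ]
    have h5 : ((N + 1 : ℕ) : ℝ) * β ≤ ‖S'‖ + (N + 1 : ℕ) * (β / 4) := by
      rw [← h4]
      calc _ = ‖S' - (S' - ((N + 1 : ℕ) : ℝ) • π b)‖ := by congr 1; abel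
        _ ≤ ‖S'‖ + ‖S' - ((N + 1 : ℕ) : ℝ) • π b‖ := norm_sub_le _ _
        _ ≤ _ := by linarith
    have h6 : 3 / 4 * β / K * M = (N + 1 : ℕ) * (3 / 4 * β) := by
      rw [hM]; push_cast; field_simp
    rw [h6]
    linarith
  -- averaging the polynomial
  have avg : ∑ j ∈ Finset.range M, γ j (pol ι U c) = (M : ℂ) • ι (c 0) := by
    have e1 : ∀ j ∈ Finset.range M, γ j (pol ι U c) =
        ∑ m ∈ c.support, ((Complex.exp (2 * Real.pi * Complex.I / M)) ^ j) ^ m •
          (ι (c m) * V U m) := fun j _ => g_pol ι U _ (root_norm M j) (γ j) (hγ j) c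
    rw [Finset.sum_congr rfl e1, Finset.sum_comm]
    have e2 : ∀ m ∈ c.support, ∑ j ∈ Finset.range M,
        ((Complex.exp (2 * Real.pi * Complex.I / M)) ^ j) ^ m • (ι (c m) * V U m) =
        if m = 0 then (M : ℂ) • ι (c 0) else 0 := by
      intro m hm
      rw [← Finset.sum_smul]
      by_cases h : m = 0
      · subst h
        simp [V_zero]
      · rw [if_neg h, root_sum M hM0 m h, zero_smul]
        have := hN m hm
        have h2 : ((N + 1 : ℕ) : ℤ) ≤ M := by exact_mod_cast hMN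
        push_cast at h2
        omega
    rw [Finset.sum_congr rfl e2, Finset.sum_ite_eq']
    by_cases h0 : (0 : ℤ) ∈ c.support
    · rw [if_pos h0]
    · rw [if_neg h0, Finsupp.notMem_support_iff.1 h0, map_zero, smul_zero]
  have avg' : ∑ j ∈ Finset.range M, π (γ j (pol ι U c)) = (M : ℂ) • π (ι (c 0)) := by
    rw [← map_sum, avg, map_smul]
  have h7 : ‖S - (M : ℂ) • π (ι (c 0))‖ ≤ M * (3 / 8 * β / K) := by
    rw [← avg', hS, ← Finset.sum_sub_distrib]
    refine (norm_sum_le _ _).trans ?_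
    refine (Finset.sum_le_card_nsmul _ _ (3 / 8 * β / K) fun j _ => ?_).trans ?_
    · rw [← map_sub, ← map_sub]
      exact (hπ _).trans ((NonUnitalStarAlgHom.norm_apply_le (γ j) _).trans hc)
    · rw [Finset.card_range, nsmul_eq_mul]
  have h8 : ‖(M : ℂ) • π (ι (c 0))‖ ≤ M * ‖π (ι (c 0))‖ := by
    rw [norm_smul, Complex.norm_natCast]
  have h9 : ‖S‖ ≤ ‖S - (M : ℂ) • π (ι (c 0))‖ + ‖(M : ℂ) • π (ι (c 0))‖ := by
    calc _ = ‖(S - (M : ℂ) • π (ι (c 0))) + (M : ℂ) • π (ι (c 0))‖ := by rw [sub_add_cancel]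
      _ ≤ _ := norm_add_le _ _
  have h10 : (M : ℝ) * (3 / 8 * β / K) ≤ M * ‖π (ι (c 0))‖ := by
    have : 3 / 4 * β / K * M = M * (3 / 8 * β / K) + M * (3 / 8 * β / K) := by ring
    linarith
  exact le_of_mul_le_mul_left h10 hMp

end

/-- one tower element -/
theorem tower_elt' {C : Type} [CStarAlgebra C] (φ : A →⋆ₐ[ℂ] C) (α : A ≃⋆ₐ[ℂ] A) (h : FinRok α) : ∃ θ : ℝ, 0 < θ ∧
    ∀ (c : A), φ c ≠ 0 → ∀ (F : Finset A) (L : ℕ) (ε : ℝ), 0 < ε →
      ∃ f : A, Ps f ∧ ‖f‖ ≤ 1 ∧ (∀ a ∈ F, ‖f * a - a * f‖ ≤ ε) ∧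
        (∀ m : ℕ, m ≠ 0 → m ≤ L → ‖f * α^[m] f‖ ≤ ε) ∧ θ * ‖φ c‖ ≤ ‖φ (f * c * f)‖ := by
  classical
  have hφn : ∀ x : A, ‖φ x‖ ≤ ‖x‖ := fun x => NonUnitalStarAlgHom.norm_apply_le φ x
  obtain ⟨d, h⟩ := h
  have hD : (0 : ℝ) < (d : ℝ) + 1 := by positivity
  refine ⟨1 / (128 * ((d : ℝ) + 1) ^ 4), by positivity, fun c hc F L ε hε => ?_⟩
  have hcn : 0 < ‖φ c‖ := norm_pos_iff.2 hc
  obtain ⟨p, hp⟩ : ∃ p : ℕ, p = 2 * L + 1 := ⟨_, rfl⟩
  obtain ⟨s, hs⟩ : ∃ s : Finset (Σ _ : ℕ, ℕ),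
      s = (Finset.range 2).sigma fun q => Finset.range (p + q) := ⟨_, rfl⟩
  have hmem : ∀ x : Σ _ : ℕ, ℕ, x ∈ s ↔ x.1 < 2 ∧ x.2 < p + x.1 := by
    intro x
    rw [hs, Finset.mem_sigma, Finset.mem_range, Finset.mem_range]
  have hsne : s.Nonempty := ⟨⟨0, 0⟩, (hmem _).2 ⟨by norm_num, by simp [hp]⟩⟩
  have hsc : (0 : ℝ) < s.card := by exact_mod_cast hsne.card_pos
  obtain ⟨δ, hδ0, hδ1, hδ2, hδ3, hδ4⟩ : ∃ δ : ℝ, 0 < δ ∧ δ ≤ 1 / 2 ∧
      (s.card : ℝ) ^ 2 * (δ * (1 + ‖φ c‖ ^ 2)) < ‖φ c‖ ^ 2 / (16 * ((d : ℝ) + 1) ^ 2) ∧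
      δ ≤ 1 / (128 * ((d : ℝ) + 1) ^ 4) * ‖φ c‖ ∧ (L + 1) * δ ≤ ε := by
    refine ⟨min (1 / 2) (min (‖φ c‖ ^ 2 / (32 * ((d : ℝ) + 1) ^ 2) /
      ((s.card : ℝ) ^ 2 * (1 + ‖φ c‖ ^ 2))) (min (1 / (128 * ((d : ℝ) + 1) ^ 4) * ‖φ c‖)
      (ε / (L + 1)))), ?_, min_le_left _ _, ?_, ?_, ?_⟩
    · refine lt_min (by norm_num) (lt_min (by positivity) (lt_min (by positivity) (by positivity)))
    · have h1 := (min_le_right (1 / 2 : ℝ) (min (‖φ c‖ ^ 2 / (32 * ((d : ℝ) + 1) ^ 2) /
        ((s.card : ℝ) ^ 2 * (1 + ‖φ c‖ ^ 2))) (min (1 / (128 * ((d : ℝ) + 1) ^ 4) * ‖φ c‖)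
        (ε / (L + 1))))).trans (min_le_left _ _)
      rw [le_div_iff₀ (by positivity)] at h1
      have h2 : ‖φ c‖ ^ 2 / (32 * ((d : ℝ) + 1) ^ 2) < ‖φ c‖ ^ 2 / (16 * ((d : ℝ) + 1) ^ 2) := by
        apply div_lt_div_of_pos_left (by positivity) (by positivity)
        nlinarith [mul_pos hD hD]
      nlinarith
    · exact (min_le_right _ _).trans ((min_le_right _ _).trans (min_le_left _ _))
    · have h1 := (min_le_right (1 / 2 : ℝ) (min (‖φ c‖ ^ 2 / (32 * ((d : ℝ) + 1) ^ 2) /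
        ((s.card : ℝ) ^ 2 * (1 + ‖φ c‖ ^ 2))) (min (1 / (128 * ((d : ℝ) + 1) ^ 4) * ‖φ c‖)
        (ε / (L + 1))))).trans ((min_le_right _ _).trans (min_le_right _ _))
      rw [le_div_iff₀ (by positivity)] at h1
      rw [mul_comm]
      exact h1
  have hδε : δ ≤ ε := by
    have : (1 : ℝ) ≤ L + 1 := by
      have : (0 : ℝ) ≤ L := Nat.cast_nonneg _
      linarith
    nlinarith
  obtain ⟨f, g1, g2, g3, g4, g5⟩ := h (insert c (insert (c * star c) F)) δ hδ0 p (by omega)
  obtain ⟨l, i, hi, hsel⟩ := select d s hsne (fun l x => φ (f l x.1 x.2)) (φ c) hc δ hδ0 hδ1 hδ2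
    (fun l x hx => by
      obtain ⟨⟨g, hg⟩, hn⟩ := g1 l x.1 ((hmem x).1 hx).1 x.2 ((hmem x).1 hx).2
      refine ⟨⟨φ g, by rw [hg, map_mul, map_star]⟩, (hφn _).trans hn⟩)
    (fun l x hx y hy hne => by
      rw [← map_mul]
      exact (hφn _).trans (g3 l x.1 ((hmem x).1 hx).1 y.1 ((hmem y).1 hy).1 x.2
      ((hmem x).1 hx).2 y.2 ((hmem y).1 hy).2 (by
        intro hcon
        apply hne
        rw [Prod.mk.injEq] at hcon
        exact Sigma.ext hcon.1 (heq_of_eq hcon.2))).le)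
    (by
      have : ∀ l, ∑ x ∈ s, f l x.1 x.2 =
          ∑ q ∈ Finset.range 2, ∑ j ∈ Finset.range (p + q), f l q j := by
        intro l
        rw [hs, Finset.sum_sigma]
      have e0 : ∑ l, ∑ x ∈ s, φ (f l x.1 x.2) - 1 = φ (∑ l, ∑ q ∈ Finset.range 2,
          ∑ j ∈ Finset.range (p + q), f l q j - 1) := by
        rw [map_sub, map_one, map_sum]
        congr 1
        refine Finset.sum_congr rfl fun l _ => ?_
        rw [← this, map_sum]
      rw [e0]
      exact (hφn _).trans g4.le)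
    (fun l x hx => by
      have e0 : φ (f l x.1 x.2) * (φ c * star (φ c)) - (φ c * star (φ c)) * φ (f l x.1 x.2) =
          φ (f l x.1 x.2 * (c * star c) - (c * star c) * f l x.1 x.2) := by
        simp only [map_sub, map_mul, map_star]
      rw [e0]
      exact (hφn _).trans (g5 l x.1 ((hmem x).1 hx).1 x.2 ((hmem x).1 hx).2 (c * star c)
        (by simp)).le)
  have hi1 := ((hmem i).1 hi).1
  have hi2 := ((hmem i).1 hi).2
  obtain ⟨ψ, hψ⟩ : ∃ ψ, ψ = f l i.1 i.2 := ⟨_, rfl⟩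
  have hψP : Ps ψ := by rw [hψ]; exact (g1 l i.1 hi1 i.2 hi2).1
  have hψ1 : ‖ψ‖ ≤ 1 := by rw [hψ]; exact (g1 l i.1 hi1 i.2 hi2).2
  rw [← hψ] at hsel
  refine ⟨ψ, hψP, hψ1, ?_, ?_, ?_⟩
  · intro a ha
    rw [hψ]
    exact (g5 l i.1 hi1 i.2 hi2 a (by simp [ha])).le.trans hδε
  · intro m hm hmL
    rw [hψ]
    refine (tower_off α (p + i.1) L (by omega) (f l i.1) δ hδ0 (fun j hj => (g1 l i.1 hi1 j hj).2)
      (fun j hj => (g2 l i.1 hi1 j hj).le) (fun j hj j' hj' hne =>
        (g3 l i.1 hi1 i.1 hi1 j hj j' hj' (by simp [hne])).le) i.2 hi2 m hm hmL).trans hδ4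
  · have e1 : ‖ψ * c - c * ψ‖ ≤ δ := by
      rw [hψ]
      exact (g5 l i.1 hi1 i.2 hi2 c (by simp)).le
    have hφψ : ‖φ ψ‖ ≤ 1 := (hφn _).trans hψ1
    have e2 : ‖φ ψ * φ c‖ * ‖φ ψ * φ c‖ ≤ ‖φ c‖ * ‖φ ψ * φ ψ * φ c‖ := by
      rw [← CStarRing.norm_star_mul_self, star_mul, ← map_star φ ψ, hψP.sa.star_eq]
      calc _ = ‖star (φ c) * (φ ψ * φ ψ * φ c)‖ := by simp only [mul_assoc]
        _ ≤ ‖star (φ c)‖ * ‖φ ψ * φ ψ * φ c‖ := norm_mul_le _ _
        _ = _ := by rw [norm_star]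
    have e3 : ‖φ ψ * φ ψ * φ c‖ ≤ ‖φ (ψ * c * ψ)‖ + δ := by
      calc _ = ‖φ (ψ * c * ψ) + φ ψ * φ (ψ * c - c * ψ)‖ := by
            simp only [map_mul, map_sub]; congr 1; noncomm_ring
        _ ≤ ‖φ (ψ * c * ψ)‖ + ‖φ ψ‖ * ‖φ (ψ * c - c * ψ)‖ :=
            (norm_add_le _ _).trans (add_le_add le_rfl (norm_mul_le _ _))
        _ ≤ ‖φ (ψ * c * ψ)‖ + 1 * δ := by
            have := (hφn (ψ * c - c * ψ)).trans e1
            gcongr
        _ = _ := by rw [one_mul]
    have e4 : (‖φ c‖ / (8 * ((d : ℝ) + 1) ^ 2)) * (‖φ c‖ / (8 * ((d : ℝ) + 1) ^ 2)) ≤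
        ‖φ c‖ * ‖φ ψ * φ ψ * φ c‖ :=
      (mul_self_le_mul_self (by positivity) hsel).trans e2
    have e5 : (‖φ c‖ / (8 * ((d : ℝ) + 1) ^ 2)) * (‖φ c‖ / (8 * ((d : ℝ) + 1) ^ 2)) =
        ‖φ c‖ * (2 * (1 / (128 * ((d : ℝ) + 1) ^ 4) * ‖φ c‖)) := by
      field_simp; ring
    rw [e5] at e4
    have e6 := le_of_mul_le_mul_left e4 hcn
    linarith


end Pool.Agent.H898P
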