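import Pool.Agent.H898P.StepG
import Pool.Agent.H898SR.Patch

/-! Relative (residual) versions, part 2. -/

set_option autoImplicit false

noncomputable section

namespace Pool.Agent.H898P

open Pool.Agent.H898SR

variable {A B : Type} [CStarAlgebra A] [CStarAlgebra B]

/-- compression of a positive element of the crossed product by a tower element -/
theorem compress' {C : Type} [CStarAlgebra C] (π : B →⋆ₐ[ℂ] C) (ι : A →⋆ₐ[ℂ] B) (U : unitary B) (α : A ≃⋆ₐ[ℂ] A)
    (hcov : ∀ a : A, (U : B) * ι a * star (U : B) = ι (α a)) (hα : FinRok α)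
    (hd : (StarAlgebra.adjoin ℂ (Set.range (ι : A → B) ∪ {(U : B)})).topologicalClosure = ⊤)
    (hγ : ∀ z : ℂ, ‖z‖ = 1 → ∃ γ : B →⋆ₐ[ℂ] B, IsG ι U z γ) (b : B) (hb : Ps b) (hπb : π b ≠ 0) :
    ∃ (a : A) (κ : ℝ) (X : B), 0 < κ ∧ Ps a ∧ κ ≤ ‖π (ι a)‖ ∧
      Ps (X * b * star X - ι a + (κ / 4) • (1 : B)) := by
  let _ := CStarAlgebra.spectralOrder B
  let _ := CStarAlgebra.spectralOrderedRing B
  have hb0 : b ≠ 0 := fun h => hπb (by rw [h, map_zero])
  have hdense := dense_pol ι U α hcov hd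
  obtain ⟨κ₁, hκ₁, hco⟩ := coeff_bd' ι U π hdense hγ b hb hπb
  obtain ⟨θ, hθ, htow⟩ := tower_elt' (π.comp ι) α hα
  obtain ⟨β, hβ⟩ : ∃ β, β = ‖b‖ := ⟨_, rfl⟩
  have hβ0 : 0 < β := by rw [hβ]; exact norm_pos_iff.2 hb0
  obtain ⟨κ, hκ⟩ : ∃ κ, κ = (θ * κ₁) ^ 2 := ⟨_, rfl⟩
  have hκ0 : 0 < κ := by rw [hκ]; positivity
  obtain ⟨η, hη0, hη1, hη2, hη3⟩ : ∃ η : ℝ, 0 < η ∧ η ≤ κ₁ ∧ η ≤ β ∧
      η ≤ κ / (32 * β) := by
    refine ⟨min κ₁ (min β (κ / (32 * β))), lt_min hκ₁ (lt_min hβ0 (by positivity)),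
      min_le_left _ _, (min_le_right _ _).trans (min_le_left _ _),
      (min_le_right _ _).trans (min_le_right _ _)⟩
  obtain ⟨c, hc⟩ := hdense b η hη0
  have hc0 : κ₁ ≤ ‖(π.comp ι) (c 0)‖ := hco c (hc.le.trans hη1)
  have hc00' : (π.comp ι) (c 0) ≠ 0 := norm_pos_iff.1 (hκ₁.trans_le hc0)
  have hc00 : c 0 ≠ 0 := fun h => hc00' (by rw [h, map_zero])
  obtain ⟨L, hL⟩ : ∃ L : ℕ, ∀ m ∈ c.support, m.natAbs ≤ L :=
    ⟨∑ m ∈ c.support, m.natAbs, fun m hm =>
      Finset.single_le_sum (f := fun m : ℤ => m.natAbs) (fun _ _ => Nat.zero_le _) hm⟩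
  obtain ⟨C, hC⟩ : ∃ C : ℝ, C = ∑ m ∈ c.support, (1 + ‖c m‖) := ⟨_, rfl⟩
  have hC0 : 0 ≤ C := by rw [hC]; exact Finset.sum_nonneg fun m _ => by positivity
  classical
  obtain ⟨f, hfP, hf1, hfc, hfα, hfn⟩ := htow (c 0) hc00' (c.support.image c) L (η / (C + 1))
    (by positivity)
  obtain ⟨ε, hε⟩ : ∃ ε, ε = η / (C + 1) := ⟨_, rfl⟩
  rw [← hε] at hfc hfα
  have hε0 : 0 < ε := by rw [hε]; positivity
  have hfs : star f = f := hfP.sa.star_eq
  obtain ⟨φ, hφ⟩ : ∃ φ, φ = ι f := ⟨_, rfl⟩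
  have hφs : star φ = φ := by rw [hφ, ← map_star, hfs]
  have hφ1 : ‖φ‖ ≤ 1 := by rw [hφ]; exact (NonUnitalStarAlgHom.norm_apply_le ι f).trans hf1
  -- off-diagonal terms
  have o1 : ∀ m : ℕ, m ≠ 0 → m ≤ L → ‖φ * V U m * φ‖ ≤ ε := by
    intro m hm hmL
    have e1 : φ * V U m * φ = ι (f * α^[m] f) * V U m := by
      rw [hφ, mul_assoc, cov_nat ι U α hcov m f, map_mul, mul_assoc]
    rw [e1, V_norm_mul]
    exact (NonUnitalStarAlgHom.norm_apply_le ι _).trans (hfα m hm hmL)
  have o2 : ∀ m : ℤ, m ≠ 0 → m.natAbs ≤ L → ‖φ * V U m * φ‖ ≤ ε := by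
    intro m hm hmL
    rcases Int.natAbs_eq m with h | h
    · rw [h]
      exact o1 m.natAbs (by omega) hmL
    · have e1 : φ * V U m * φ = star (φ * V U (m.natAbs : ℤ) * φ) := by
        rw [star_mul, star_mul, hφs, V_star, ← h, mul_assoc]
      rw [e1, norm_star]
      exact o1 m.natAbs (by omega) hmL
  have o3 : ∀ m ∈ c.support, m ≠ 0 → ‖φ * (ι (c m) * V U m) * φ‖ ≤ ε * (1 + ‖c m‖) := by
    intro m hm hm0
    have e1 : φ * (ι (c m) * V U m) * φ =
        ι (c m) * (φ * V U m * φ) + ι (f * c m - c m * f) * V U m * φ := by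
      rw [map_sub, map_mul, map_mul, ← hφ]; noncomm_ring
    rw [e1]
    calc _ ≤ ‖ι (c m)‖ * ‖φ * V U m * φ‖ + ‖ι (f * c m - c m * f) * V U m‖ * ‖φ‖ :=
          (norm_add_le _ _).trans (add_le_add (norm_mul_le _ _) (norm_mul_le _ _))
      _ ≤ ‖c m‖ * ε + ε * 1 := by
          have h1 : ‖ι (c m)‖ ≤ ‖c m‖ := NonUnitalStarAlgHom.norm_apply_le ι _
          have h2 := o2 m hm0 (hL m hm)
          have h3 : ‖ι (f * c m - c m * f) * V U m‖ ≤ ε := by
            rw [V_norm_mul]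
            exact (NonUnitalStarAlgHom.norm_apply_le ι _).trans
              (hfc (c m) (Finset.mem_image_of_mem _ hm))
          gcongr
      _ = _ := by ring
  obtain ⟨y, hy⟩ : ∃ y, y = f * c 0 * f := ⟨_, rfl⟩
  have hyn : θ * κ₁ ≤ ‖(π.comp ι) y‖ := by
    rw [hy]
    exact (mul_le_mul_of_nonneg_left hc0 hθ.le).trans hfn
  have o4 : ‖φ * pol ι U c * φ - ι y‖ ≤ η := by
    have e1 : φ * pol ι U c * φ - ι y =
        ∑ m ∈ c.support, if m = 0 then 0 else φ * (ι (c m) * V U m) * φ := by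
      have h0 : (0 : ℤ) ∈ c.support := Finsupp.mem_support_iff.2 hc00
      have e2 : ι y = ∑ m ∈ c.support, if m = 0 then φ * (ι (c m) * V U m) * φ else 0 := by
        rw [Finset.sum_ite_eq', if_pos h0, V_zero, mul_one, hy, map_mul, map_mul, hφ]
      rw [e2]
      unfold pol Finsupp.sum
      rw [Finset.mul_sum, Finset.sum_mul, ← Finset.sum_sub_distrib]
      refine Finset.sum_congr rfl fun m _ => ?_
      split_ifs <;> simp
    rw [e1]
    calc _ ≤ ∑ m ∈ c.support, ‖if m = 0 then 0 else φ * (ι (c m) * V U m) * φ‖ :=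
          norm_sum_le _ _
      _ ≤ ∑ m ∈ c.support, ε * (1 + ‖c m‖) := by
          refine Finset.sum_le_sum fun m hm => ?_
          split_ifs with h
          · rw [norm_zero]; positivity
          · exact o3 m hm h
      _ = ε * C := by rw [← Finset.mul_sum, hC]
      _ ≤ η := by
          rw [hε, div_mul_eq_mul_div, div_le_iff₀ (by positivity)]
          nlinarith
  obtain ⟨b', hb'⟩ : ∃ b', b' = φ * b * φ := ⟨_, rfl⟩
  have o5 : ‖b' - ι y‖ ≤ 2 * η := by
    calc _ = ‖φ * (b - pol ι U c) * φ + (φ * pol ι U c * φ - ι y)‖ := by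
          rw [hb']; congr 1; noncomm_ring
      _ ≤ ‖φ‖ * ‖b - pol ι U c‖ * ‖φ‖ + ‖φ * pol ι U c * φ - ι y‖ :=
          (norm_add_le _ _).trans (add_le_add ((norm_mul_le _ _).trans
            (mul_le_mul_of_nonneg_right (norm_mul_le _ _) (norm_nonneg _))) le_rfl)
      _ ≤ 1 * η * 1 + η := by
          have := hc.le
          gcongr
      _ = _ := by ring
  have hb'n : ‖b'‖ ≤ β := by
    rw [hb']
    calc _ ≤ ‖φ‖ * ‖b‖ * ‖φ‖ := (norm_mul_le _ _).trans
          (mul_le_mul_of_nonneg_right (norm_mul_le _ _) (norm_nonneg _))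
      _ ≤ 1 * β * 1 := by rw [← hβ]; gcongr
      _ = _ := by ring
  have hbs : IsSelfAdjoint b := hb.sa
  have hb's : star b' = b' := by
    rw [hb', star_mul, star_mul, hφs, hbs.star_eq, mul_assoc]
  have hιy : ‖ι y‖ ≤ β + 2 * η := by
    calc _ = ‖b' - (b' - ι y)‖ := by congr 1; abel
      _ ≤ ‖b'‖ + ‖b' - ι y‖ := norm_sub_le _ _
      _ ≤ _ := add_le_add hb'n o5
  have o6 : ‖b' * star b' - ι (y * star y)‖ ≤ κ / 4 := by
    have e1 : b' * star b' - ι (y * star y) = b' * star (b' - ι y) + (b' - ι y) * star (ι y) := by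
      rw [map_mul, map_star, star_sub]; noncomm_ring
    rw [e1]
    calc _ ≤ ‖b'‖ * ‖star (b' - ι y)‖ + ‖b' - ι y‖ * ‖star (ι y)‖ :=
          (norm_add_le _ _).trans (add_le_add (norm_mul_le _ _) (norm_mul_le _ _))
      _ ≤ β * (2 * η) + 2 * η * (β + 2 * η) := by
          rw [norm_star, norm_star]
          gcongr
      _ ≤ 8 * β * η := by nlinarith
      _ ≤ κ / 4 := by
          rw [le_div_iff₀ (by positivity)] at hη3
          linarith
  -- `b'^2 ≤ β b'`
  have o7 : b' * star b' ≤ β • b' := by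
    obtain ⟨z, hz⟩ := hb
    have e1 : (z * φ) * star (z * φ) ≤ β • (1 : B) := by
      have h := CStarAlgebra.mul_star_le_algebraMap_norm_sq (A := B) (a := z * φ)
      rw [Algebra.algebraMap_eq_smul_one] at h
      refine h.trans (smul_le_smul_of_nonneg_right ?_ zero_le_one)
      have h2 : ‖z * φ‖ ≤ ‖z‖ := by
        calc _ ≤ ‖z‖ * ‖φ‖ := norm_mul_le _ _
          _ ≤ ‖z‖ * 1 := by gcongr
          _ = _ := mul_one _
      calc ‖z * φ‖ ^ 2 ≤ ‖z‖ ^ 2 := by gcongr
        _ = β := by rw [hβ, hz, CStarRing.norm_star_mul_self, sq]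
    have e2 := star_left_conjugate_le_conjugate e1 (z * φ)
    have e3 : star (z * φ) * (z * φ * star (z * φ)) * (z * φ) = b' * star b' := by
      rw [hb's, hb', hz, star_mul, hφs]; simp only [mul_assoc]
    have e4 : star (z * φ) * (β • (1 : B)) * (z * φ) = β • b' := by
      rw [mul_smul_comm, mul_one, smul_mul_assoc, hb', hz, star_mul, hφs]; simp only [mul_assoc]
    rwa [e3, e4] at e2
  refine ⟨y * star y, κ, Real.sqrt β • φ, hκ0, ⟨star y, by rw [star_star]⟩, ?_, ?_⟩
  · have e0 : π (ι (y * star y)) = (π.comp ι) y * star ((π.comp ι) y) := by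
      rw [← map_star (π.comp ι) y, ← map_mul]
      rfl
    rw [e0, CStarRing.norm_self_mul_star, hκ, sq]
    exact mul_self_le_mul_self (by positivity) hyn
  · apply ps_of_nonneg
    have e1 : (Real.sqrt β • φ) * b * star (Real.sqrt β • φ) = β • b' := by
      rw [star_smul, star_trivial (Real.sqrt β), hφs, smul_mul_assoc, smul_mul_assoc,
        mul_smul_comm, smul_smul, Real.mul_self_sqrt hβ0.le, hb']
    rw [e1]
    have e2 := le_of_norm_sub (b' * star b') (ι (y * star y)) (IsSelfAdjoint.mul_star_self b')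
      (by
        rw [map_mul, map_star]
        exact IsSelfAdjoint.mul_star_self _) (κ / 4) o6
    have e3 := e2.trans o7
    rw [sub_le_iff_le_add] at e3
    have e4 : β • b' - ι (y * star y) + (κ / 4) • (1 : B) =
        (β • b' + (κ / 4) • (1 : B)) - ι (y * star y) := by abel
    rw [e4]
    exact sub_nonneg.2 e3


theorem hom_cfc {C : Type} [CStarAlgebra C] (φ : A →⋆ₐ[ℂ] C) (f : ℝ → ℝ) (hf : Continuous f)
    (a : A) (ha : IsSelfAdjoint a) : φ (cfc f a) = cfc f (φ a) :=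
  StarAlgHomClass.map_cfc φ f a hf.continuousOn (hom_cont φ) ha (ha.map φ)

theorem central_of_nil' {C : Type} [CStarAlgebra C] (φ : A →⋆ₐ[ℂ] C) (a₀ : A)
    (hnil : ∀ z : A, z * z = 0 → InId z a₀ → φ z = 0) (h : A)
    (hh : Ps h) (hI : InId h a₀) (y : A) : φ h * φ y = φ y * φ h := by
  have pm : ∀ (δ : ℝ) (k : ℕ), cfc (P δ k) h * cfc (P δ (k + 1)) h = cfc (P δ (k + 1)) h := by
    intro δ k
    rw [cm _ _ _ (P_cont δ k) (P_cont δ (k + 1))]
    congr 1
    funext t
    exact P_mul δ k t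
  have pm' : ∀ (δ : ℝ) (k : ℕ), cfc (P δ (k + 1)) h * cfc (P δ k) h = cfc (P δ (k + 1)) h := by
    intro δ k
    have := congrArg star (pm δ k)
    rwa [star_mul, (cfc_sa _ _).star_eq, (cfc_sa _ _).star_eq] at this
  have H1 : ∀ (y : A) (δ : ℝ), 0 < δ → ∀ (k : ℕ),
      (1 - cfc (P δ k) (φ h)) * φ y * cfc (P δ (k + 1)) (φ h) = 0 := by
    intro y δ hδ k
    have h1 : φ ((1 - cfc (P δ k) h) * y * cfc (P δ (k + 1)) h) = 0 := by
      apply hnil
      · have e : cfc (P δ (k + 1)) h * (1 - cfc (P δ k) h) = 0 := by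
          rw [mul_sub, mul_one, pm', sub_self]
        calc _ = (1 - cfc (P δ k) h) * y * (cfc (P δ (k + 1)) h * (1 - cfc (P δ k) h)) * y *
              cfc (P δ (k + 1)) h := by simp only [mul_assoc]
          _ = 0 := by rw [e, mul_zero, zero_mul, zero_mul]
      · intro I hIc ha
        exact I.mul_mem_left _ _ (pk_mem I h hh (hI I hIc ha) δ hδ k)
    rwa [map_mul, map_mul, map_sub, map_one, hom_cfc φ _ (P_cont δ k) h hh.sa,
      hom_cfc φ _ (P_cont δ (k + 1)) h hh.sa] at h1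
  have H2 : ∀ (y : A) (δ : ℝ), 0 < δ → ∀ (k : ℕ),
      cfc (P δ (k + 1)) (φ h) * φ y * (1 - cfc (P δ k) (φ h)) = 0 := by
    intro y δ hδ k
    have := congrArg star (H1 (star y) δ hδ k)
    rw [star_mul, star_mul, ← map_star φ (star y), star_star, star_sub, star_one,
      (cfc_sa _ _).star_eq, (cfc_sa _ _).star_eq, star_zero, ← mul_assoc] at this
    exact this
  have hφh : Ps (φ h) := by
    obtain ⟨v, hv⟩ := hh
    exact ⟨φ v, by rw [hv, map_mul, map_star]⟩
  have hs : ∀ y : A, star y = -y → φ h * φ y = φ y * φ h := fun y hy =>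
    central_skew' (φ h) hφh (φ y) (H1 y) (H2 y) (by rw [← map_star, hy, map_neg])
  have e1 := hs (y - star y) (by rw [star_sub, star_star]; abel)
  have e2 := hs (Complex.I • (y + star y)) (by
    rw [star_smul, star_add, star_star, Complex.star_def, Complex.conj_I, neg_smul, add_comm])
  rw [map_smul, mul_smul_comm, smul_mul_assoc] at e2
  have e3 : φ h * φ (y + star y) = φ (y + star y) * φ h := by
    have := congrArg (fun z => (-Complex.I) • z) e2
    simpa [smul_smul] using this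
  have e4 : (2 : ℂ) • (φ h * φ y) = (2 : ℂ) • (φ y * φ h) := by
    have e5 : φ h * φ (y - star y) + φ h * φ (y + star y) =
        φ (y - star y) * φ h + φ (y + star y) * φ h := by
      rw [e1, e3]
    have e6 : φ h * φ (y - star y) + φ h * φ (y + star y) = (2 : ℂ) • (φ h * φ y) := by
      rw [two_smul, map_sub, map_add]; noncomm_ring
    have e7 : φ (y - star y) * φ h + φ (y + star y) * φ h = (2 : ℂ) • (φ y * φ h) := by
      rw [two_smul, map_sub, map_add]; noncomm_ring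
    rw [← e6, ← e7, e5]
  exact smul_right_injective C (two_ne_zero (α := ℂ)) e4

/-- a square-zero element in every ideal not killed by `φ` -/
theorem exists_nil' {C : Type} [CStarAlgebra C] (hA : PI A) (φ : A →⋆ₐ[ℂ] C) (a₀ : A)
    (h0 : Ps a₀) (hne : φ a₀ ≠ 0) : ∃ x : A, φ x ≠ 0 ∧ x * x = 0 ∧ InId x a₀ := by
  by_contra hcon
  push Not at hcon
  have hnil : ∀ z : A, z * z = 0 → InId z a₀ → φ z = 0 := by
    intro z hz hI
    by_contra hz0
    exact hcon z hz0 hz hI
  have hc := central_of_nil' φ a₀ hnil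
  have hc0 : ∀ y, φ a₀ * φ y = φ y * φ a₀ := hc a₀ h0 fun I _ h => h
  have hcw : ∀ w y : A, φ (w * a₀ * star w) * φ y = φ y * φ (w * a₀ * star w) := by
    intro w y
    apply hc
    · obtain ⟨v, hv⟩ := h0
      exact ⟨v * star w, by rw [hv, star_mul, star_star]; simp only [mul_assoc]⟩
    · intro I _ h
      exact I.mul_mem_right _ _ (I.mul_mem_left _ _ h)
  have hcx : ∀ x y : A, φ (x * a₀) * φ y = φ y * φ (x * a₀) := by
    intro x y
    have e : ∀ x : A, (4 : ℂ) • (x * a₀) = (x + 1) * a₀ * star (x + 1) -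
        (x - 1) * a₀ * star (x - 1) + Complex.I • ((x + Complex.I • 1) * a₀ *
          star (x + Complex.I • 1)) - Complex.I • ((x - Complex.I • 1) * a₀ *
          star (x - Complex.I • 1)) := by
      intro x
      have h4 : (4 : ℂ) • (x * a₀) = x * a₀ + x * a₀ + x * a₀ + x * a₀ := by
        rw [show (4 : ℂ) = 1 + 1 + 1 + 1 by norm_num]
        simp only [add_smul, one_smul]
      rw [h4]
      simp only [star_add, star_sub, star_one, star_smul, Complex.star_def, Complex.conj_I,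
        add_mul, sub_mul, mul_add, mul_sub, one_mul, mul_one, smul_mul_assoc, mul_smul_comm,
        smul_add, smul_sub, smul_smul, neg_smul, smul_neg, Complex.I_mul_I,
        mul_neg, one_smul]
      abel
    have e2 : φ ((4 : ℂ) • (x * a₀)) * φ y = φ y * φ ((4 : ℂ) • (x * a₀)) := by
      rw [e]
      have c1 := hcw (x + 1) y
      have c2 := hcw (x - 1) y
      have c3 := hcw (x + Complex.I • 1) y
      have c4 := hcw (x - Complex.I • 1) y
      generalize (x + 1) * a₀ * star (x + 1) = W1 at c1 ⊢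
      generalize (x - 1) * a₀ * star (x - 1) = W2 at c2 ⊢
      generalize (x + Complex.I • 1) * a₀ * star (x + Complex.I • 1) = W3 at c3 ⊢
      generalize (x - Complex.I • 1) * a₀ * star (x - Complex.I • 1) = W4 at c4 ⊢
      rw [map_sub, map_add, map_sub, map_smul, map_smul]
      rw [sub_mul, add_mul, sub_mul, mul_sub, mul_add, mul_sub, smul_mul_assoc, smul_mul_assoc,
        mul_smul_comm, mul_smul_comm, c1, c2, c3, c4]
    rw [map_smul, smul_mul_assoc, mul_smul_comm] at e2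
    exact smul_right_injective C (by norm_num : (4 : ℂ) ≠ 0) e2
  set N : TwoSidedIdeal A := TwoSidedIdeal.mk' {z : A | φ z * φ a₀ = 0} (by simp)
    (by
      intro x y hx hy
      simp only [Set.mem_ofPred_eq] at *
      rw [map_add, add_mul, hx, hy, add_zero])
    (by
      intro x hx
      simp only [Set.mem_ofPred_eq] at *
      rw [map_neg, neg_mul, hx, neg_zero])
    (by
      intro x y hy
      simp only [Set.mem_ofPred_eq] at *
      rw [map_mul, mul_assoc, hy, mul_zero])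
    (by
      intro x y hx
      simp only [Set.mem_ofPred_eq] at *
      rw [map_mul, mul_assoc, ← hc0, ← mul_assoc, hx, zero_mul]) with hN
  have hNc : IsClosed (N : Set A) := by
    rw [hN, TwoSidedIdeal.coe_mk']
    exact isClosed_eq ((hom_cont φ).mul continuous_const) continuous_const
  have hNt := hA.1 N hNc fun x y => by
    rw [hN, TwoSidedIdeal.mem_mk']
    show φ (x * y - y * x) * φ a₀ = 0
    have h1 := hcx y x
    rw [map_sub, sub_mul, sub_eq_zero, map_mul, map_mul]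
    rw [map_mul] at h1
    calc φ x * φ y * φ a₀ = φ x * (φ y * φ a₀) := mul_assoc _ _ _
      _ = φ y * φ a₀ * φ x := h1.symm
      _ = φ y * (φ a₀ * φ x) := mul_assoc _ _ _
      _ = φ y * (φ x * φ a₀) := by rw [hc0]
      _ = _ := (mul_assoc _ _ _).symm
  have h1 : (1 : A) ∈ N := by rw [hNt]; trivial
  rw [hN, TwoSidedIdeal.mem_mk'] at h1
  have h2 : φ 1 * φ a₀ = 0 := h1
  rw [map_one, one_mul] at h2
  exact hne h2

/-- local pure infiniteness of the crossed product -/
theorem local_pi' {C : Type} [CStarAlgebra C] (π : B →⋆ₐ[ℂ] C) (hA : PI A) (ι : A →⋆ₐ[ℂ] B) (U : unitary B)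
    (α : A ≃⋆ₐ[ℂ] A)
    (hcov : ∀ a : A, (U : B) * ι a * star (U : B) = ι (α a)) (hα : FinRok α)
    (hd : (StarAlgebra.adjoin ℂ (Set.range (ι : A → B) ∪ {(U : B)})).topologicalClosure = ⊤)
    (hγ : ∀ z : ℂ, ‖z‖ = 1 → ∃ γ : B →⋆ₐ[ℂ] B, IsG ι U z γ) (b : B) (hb : Ps b) (hb0 : π b ≠ 0) :
    ∃ x : A, π (ι x) ≠ 0 ∧ x * x = 0 ∧ Cle (ι (star x * x)) b ∧
      ∀ c : B, Ps c → InId c (ι (star x * x)) → Cle c b := by
  let _ := CStarAlgebra.spectralOrder B
  let _ := CStarAlgebra.spectralOrderedRing B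
  obtain ⟨a, κ, X, hκ, haP, haκ, hX⟩ := compress' π ι U α hcov hα hd hγ b hb hb0
  have hX' : ι a - (κ / 4) • (1 : B) ≤ X * b * star X := by
    have := Ps.nonneg' hX
    rw [← sub_nonneg]
    refine this.trans (le_of_eq ?_)
    abel
  have hgc : Continuous fun t : ℝ => max (t - κ / 2) 0 := by fun_prop
  obtain ⟨g, hg⟩ : ∃ g, g = cfc (fun t : ℝ => max (t - κ / 2) 0) a := ⟨_, rfl⟩
  have hgs : star g = g := by rw [hg]; exact (cfc_sa _ _).star_eq
  have hφa : Ps (π (ι a)) := by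
    obtain ⟨v, hv⟩ := haP
    exact ⟨π (ι v), by rw [hv, map_mul, map_star, map_mul, map_star]⟩
  have hφg : (π.comp ι) g = cfc (fun t : ℝ => max (t - κ / 2) 0) (π (ι a)) := by
    rw [hg, hom_cfc (π.comp ι) _ hgc a haP.sa]
    rfl
  have hg0 : (π.comp ι) g ≠ 0 := by
    intro h0
    rw [hφg] at h0
    have h1 : ‖π (ι a)‖ ≤ κ / 2 := by
      rw [← cfc_i (π (ι a)) hφa.sa]
      apply norm_cfc_le (by positivity)
      intro t ht
      rw [Real.norm_eq_abs, abs_of_nonneg (hφa.spec t ht)]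
      by_contra hcon
      rw [not_le] at hcon
      refine cfc_ne_zero' (π (ι a)) hφa.sa (fun t : ℝ => max (t - κ / 2) 0)
        hgc t ht ?_ h0
      rw [max_eq_left (by linarith)]
      linarith
    linarith
  have hgg0 : (π.comp ι) (star g * g) ≠ 0 := fun h => hg0 (by
    rw [map_mul, map_star] at h
    exact CStarRing.star_mul_self_eq_zero_iff _ |>.1 h)
  obtain ⟨x, hx0, hxx, hxI⟩ := exists_nil' hA (π.comp ι) (star g * g) ⟨g, rfl⟩ hgg0
  have hcle : Cle (star x * x) (star g * g) :=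
    hA.2 _ _ ⟨x, rfl⟩ ⟨g, rfl⟩ fun I hI h => I.mul_mem_left _ _ (hxI I hI h)
  have hιg : star (ι g) = ι g := by rw [← map_star, hgs]
  have k5 : ι ((κ / 4) • (g * g)) ≤ ι (g * (a - (κ / 4) • 1) * g) := by
    have hps : Ps (g * (a - (κ / 4) • 1) * g - (κ / 4) • (g * g)) := by
      have e1 : g * (a - (κ / 4) • 1) * g - (κ / 4) • (g * g) =
          cfc (fun t : ℝ => (max (t - κ / 2) 0 * t * max (t - κ / 2) 0) -
            (κ / 2) * (max (t - κ / 2) 0 * max (t - κ / 2) 0)) a := by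
        rw [cfc_sub (fun t : ℝ => (max (t - κ / 2) 0 * t * max (t - κ / 2) 0))
          (fun t : ℝ => (κ / 2) * (max (t - κ / 2) 0 * max (t - κ / 2) 0)) a
          (by fun_prop) (by fun_prop),
          ← conj_cfc a haP.sa _ hgc,
          cfc_const_mul (κ / 2) (fun t : ℝ => max (t - κ / 2) 0 * max (t - κ / 2) 0) a
            (by fun_prop), ← cm a _ _ hgc hgc, ← hg]
        have e2 : (κ / 2) • (g * g) = (κ / 4) • (g * g) + (κ / 4) • (g * g) := by
          rw [← add_smul]; congr 1; ring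
        rw [e2, mul_sub, sub_mul, mul_smul_comm, mul_one, smul_mul_assoc]
        abel
      rw [e1]
      apply ps_of (cfc_sa _ _)
      intro s hs
      rw [cfc_map_spectrum _ a haP.sa (by fun_prop)] at hs
      obtain ⟨t, ht, rfl⟩ := hs
      simp only
      rcases le_total (t - κ / 2) 0 with h | h
      · rw [max_eq_right h]; simp
      · rw [max_eq_left h]
        have : (t - κ / 2) * t * (t - κ / 2) - κ / 2 * ((t - κ / 2) * (t - κ / 2)) =
            (t - κ / 2) * ((t - κ / 2) * (t - κ / 2)) := by ring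
        rw [this]
        exact mul_nonneg h (mul_nonneg h h)
    obtain ⟨v, hv⟩ := hps
    rw [← sub_nonneg, ← map_sub, hv, map_mul, map_star]
    exact star_mul_self_nonneg _
  have k6 : ι (star g * g) ≤ (4 / κ) • ((ι g * X) * b * star (ι g * X)) := by
    have h1 := star_right_conjugate_le_conjugate hX' (ι g)
    have h3 : ι g * (X * b * star X) * star (ι g) = (ι g * X) * b * star (ι g * X) := by
      rw [star_mul (ι g) X]; simp only [mul_assoc]
    have h4 : ι g * (ι a - (κ / 4) • (1 : B)) * star (ι g) =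
        ι (g * (a - (κ / 4) • 1) * g) := by
      rw [hιg, map_mul, map_mul, map_sub]
      have : ι ((κ / 4 : ℝ) • (1 : A)) = (κ / 4 : ℝ) • (1 : B) := by
        have h5 : ((κ / 4 : ℝ) • (1 : A)) = ((κ / 4 : ℝ) : ℂ) • (1 : A) := (Complex.coe_smul _ _).symm
        rw [h5, map_smul, map_one, Complex.coe_smul]
      rw [this]
    have h5 : ι ((κ / 4) • (g * g)) = (κ / 4) • ι (star g * g) := by
      have h6 : ((κ / 4 : ℝ) • (g * g)) = ((κ / 4 : ℝ) : ℂ) • (g * g) := (Complex.coe_smul _ _).symm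
      rw [h6, map_smul, Complex.coe_smul, hgs]
    rw [h3, h4] at h1
    have h7 := k5.trans h1
    rw [h5] at h7
    have h8 := smul_le_smul_of_nonneg_left h7 (show (0 : ℝ) ≤ 4 / κ by positivity)
    rw [smul_smul] at h8
    have h9 : 4 / κ * (κ / 4) = 1 := by field_simp
    rwa [h9, one_smul] at h8
  have hbn : 0 ≤ (ι g * X) * b * star (ι g * X) := star_right_conjugate_nonneg (Ps.nonneg' hb) _
  have h1 : Cle (ι (star g * g)) ((4 / κ) • ((ι g * X) * b * star (ι g * X))) := by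
    refine cle_of_le _ _ ⟨ι g, by rw [map_mul, map_star]⟩
      (ps_of_nonneg (smul_nonneg (by positivity) hbn)) (ps_of_nonneg (sub_nonneg.2 k6))
  have h2 : Cle (ι (star x * x)) b :=
    cle_trans _ _ _ (cle_map ι _ _ hcle) (cle_trans _ _ _ h1
      (cle_trans _ _ _ (cle_smul _ (by positivity) _) (cle_conj _ _)))
  exact ⟨x, hx0, hxx, h2, fun c hc hI => cle_trans _ _ _ (ideal_N hA x hxx ι c hc hI) h2⟩


end Pool.Agent.H898P
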