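import Pool.Agent.H898P.StepH
import Pool.Agent.H898P.Sep

/-! Crossed products with totally ordered ideal lattice. -/

set_option autoImplicit false

noncomputable section

namespace Pool.Agent.H898P

open Pool.Agent.H898SR

variable {A B : Type} [CStarAlgebra A] [CStarAlgebra B]

theorem fullK_closed (c : B) :
    IsClosed ((Pool.Agent.H327R4.Pure.FULLx.K c : TwoSidedIdeal B) : Set B) := by
  unfold Pool.Agent.H327R4.Pure.FULLx.K
  rw [TwoSidedIdeal.coe_mk']
  exact isClosed_closure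

theorem fullK_mem (c : B) : c ∈ Pool.Agent.H327R4.Pure.FULLx.K c := by
  unfold Pool.Agent.H327R4.Pure.FULLx.K
  rw [TwoSidedIdeal.mem_mk']
  exact subset_closure (Pool.Agent.H327R4.Pure.FULLx.J_self _)

theorem fullK_inId (c x : B) (hx : x ∈ Pool.Agent.H327R4.Pure.FULLx.K c) : InId x c := by
  intro I hI he
  unfold Pool.Agent.H327R4.Pure.FULLx.K at hx
  rw [TwoSidedIdeal.mem_mk'] at hx
  have h3 : closure (Pool.Agent.H327R4.Pure.FULLx.J c) ⊆ (I : Set B) := by
    apply closure_minimal _ hI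
    rintro z ⟨n, p, q, rfl⟩
    exact sum_mem fun i _ => I.mul_mem_right _ _ (I.mul_mem_left _ _ he)
  exact h3 hx

/-- residual local pure infiniteness -/
theorem residual (hA : PI A) (ι : A →⋆ₐ[ℂ] B) (U : unitary B)
    (α : A ≃⋆ₐ[ℂ] A)
    (hcov : ∀ a : A, (U : B) * ι a * star (U : B) = ι (α a)) (hα : FinRok α)
    (hd : (StarAlgebra.adjoin ℂ (Set.range (ι : A → B) ∪ {(U : B)})).topologicalClosure = ⊤)
    (hγ : ∀ z : ℂ, ‖z‖ = 1 → ∃ γ : B →⋆ₐ[ℂ] B, IsG ι U z γ) (b : B) (hb : Ps b)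
    (K : TwoSidedIdeal B) (hK : IsClosed (K : Set B)) (hbK : b ∉ K) :
    ∃ J : TwoSidedIdeal B, IsClosed (J : Set B) ∧ ¬ J ≤ K ∧ ∀ c : B, Ps c → c ∈ J → Cle c b := by
  obtain ⟨C, _, π, hπK, hπb⟩ := exists_rep K hK b hb hbK
  obtain ⟨x, hx, hxx, _, hc⟩ := local_pi' π hA ι U α hcov hα hd hγ b hb hπb
  refine ⟨Pool.Agent.H327R4.Pure.FULLx.K (ι (star x * x)), fullK_closed _, fun h => ?_,
    fun c hcP hcJ => hc c hcP (fullK_inId _ _ hcJ)⟩
  have h1 := hπK _ (h (fullK_mem (ι (star x * x))))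
  rw [map_mul, map_mul, map_star, map_star] at h1
  exact hx (CStarRing.star_mul_self_eq_zero_iff _ |>.1 h1)

theorem no_abelian (hA : PI A) (ι : A →⋆ₐ[ℂ] B) (I : TwoSidedIdeal B) (hI : IsClosed (I : Set B))
    (hc : ∀ x y : B, x * y - y * x ∈ I) : I = ⊤ := by
  set N : TwoSidedIdeal A := TwoSidedIdeal.mk' {a : A | ι a ∈ I}
    (by
      simp only [Set.mem_ofPred_eq]
      rw [map_zero]
      exact I.zero_mem)
    (by
      intro x y hx hy
      simp only [Set.mem_ofPred_eq] at *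
      rw [map_add]
      exact I.add_mem hx hy)
    (by
      intro x hx
      simp only [Set.mem_ofPred_eq] at *
      rw [map_neg]
      exact I.neg_mem hx)
    (by
      intro x y hy
      simp only [Set.mem_ofPred_eq] at *
      rw [map_mul]
      exact I.mul_mem_left _ _ hy)
    (by
      intro x y hx
      simp only [Set.mem_ofPred_eq] at *
      rw [map_mul]
      exact I.mul_mem_right _ _ hx) with hN
  have hNc : IsClosed (N : Set A) := by
    rw [hN, TwoSidedIdeal.coe_mk']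
    exact hI.preimage (hom_cont ι)
  have hNt := hA.1 N hNc fun x y => by
    rw [hN, TwoSidedIdeal.mem_mk']
    show ι (x * y - y * x) ∈ I
    rw [map_sub, map_mul, map_mul]
    exact hc _ _
  have h1 : (1 : A) ∈ N := by rw [hNt]; trivial
  rw [hN, TwoSidedIdeal.mem_mk'] at h1
  have h2 : ι 1 ∈ I := h1
  rw [map_one] at h2
  rw [eq_top_iff]
  intro x _
  have := I.mul_mem_left x 1 h2
  rwa [mul_one] at this

/-- the main result for totally ordered ideal lattices -/
theorem chain_pi (hA : PI A) (ι : A →⋆ₐ[ℂ] B) (U : unitary B)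
    (α : A ≃⋆ₐ[ℂ] A)
    (hcov : ∀ a : A, (U : B) * ι a * star (U : B) = ι (α a)) (hα : FinRok α)
    (hd : (StarAlgebra.adjoin ℂ (Set.range (ι : A → B) ∪ {(U : B)})).topologicalClosure = ⊤)
    (hγ : ∀ z : ℂ, ‖z‖ = 1 → ∃ γ : B →⋆ₐ[ℂ] B, IsG ι U z γ)
    (hch : ∀ I J : TwoSidedIdeal B, IsClosed (I : Set B) → IsClosed (J : Set B) →
      I ≤ J ∨ J ≤ I) : PI B := by
  refine ⟨fun I hI hc => no_abelian hA ι I hI hc, fun a b ha hb hab => ?_⟩
  set S : Set B := {x | ∃ J : TwoSidedIdeal B, IsClosed (J : Set B) ∧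
    (∀ c : B, Ps c → c ∈ J → Cle c b) ∧ x ∈ J} with hS
  have hbot : IsClosed ((⊥ : TwoSidedIdeal B) : Set B) := by
    have : ((⊥ : TwoSidedIdeal B) : Set B) = {0} := by
      ext z; simp
    rw [this]; exact isClosed_singleton
  have S0 : (0 : B) ∈ S := by
    refine ⟨⊥, hbot, fun c _ hc => ?_, zero_mem _⟩
    rw [TwoSidedIdeal.mem_bot] at hc
    rw [hc]
    intro ε hε
    exact ⟨0, by simpa using hε⟩
  have Sadd : ∀ x y, x ∈ S → y ∈ S → x + y ∈ S := by
    rintro x y ⟨I, hI, hI2, hxI⟩ ⟨J, hJ, hJ2, hyJ⟩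
    rcases hch I J hI hJ with h | h
    · exact ⟨J, hJ, hJ2, J.add_mem (h hxI) hyJ⟩
    · exact ⟨I, hI, hI2, I.add_mem hxI (h hyJ)⟩
  have Sneg : ∀ x, x ∈ S → -x ∈ S := by
    rintro x ⟨I, hI, hI2, hxI⟩
    exact ⟨I, hI, hI2, I.neg_mem hxI⟩
  have Sl : ∀ y x, x ∈ S → y * x ∈ S := by
    rintro y x ⟨I, hI, hI2, hxI⟩
    exact ⟨I, hI, hI2, I.mul_mem_left _ _ hxI⟩
  have Sr : ∀ x y, x ∈ S → x * y ∈ S := by
    rintro x y ⟨I, hI, hI2, hxI⟩
    exact ⟨I, hI, hI2, I.mul_mem_right _ _ hxI⟩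
  set K : TwoSidedIdeal B := TwoSidedIdeal.mk' (closure S) (subset_closure S0)
    (fun {x y} hx hy => map_mem_closure₂ continuous_add hx hy fun _ h _ h' => Sadd _ _ h h')
    (fun {x} hx => map_mem_closure continuous_neg hx fun _ h => Sneg _ h)
    (fun {x y} hy => map_mem_closure (f := fun z => x * z)
      (continuous_const.mul continuous_id) hy fun _ h => Sl x _ h)
    (fun {x y} hx => map_mem_closure (f := fun z => z * y)
      (continuous_id.mul continuous_const) hx fun _ h => Sr _ y h) with hKdef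
  have hKc : IsClosed (K : Set B) := by
    rw [hKdef, TwoSidedIdeal.coe_mk']
    exact isClosed_closure
  have hbK : b ∈ K := by
    by_contra hcon
    obtain ⟨J, hJ, hJK, hJ2⟩ := residual hA ι U α hcov hα hd hγ b hb K hKc hcon
    apply hJK
    intro x hx
    rw [hKdef, TwoSidedIdeal.mem_mk']
    exact subset_closure ⟨J, hJ, hJ2, hx⟩
  have haK := hab K hKc hbK
  obtain ⟨s, hs⟩ := ha
  rw [hs] at haK
  have hsK := mem_of_star_mul K hKc s haK
  rw [hKdef, TwoSidedIdeal.mem_mk'] at hsK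
  have hcl : closure S ⊆ {z : B | Cle (star z * z) b} := by
    apply closure_minimal
    · rintro z ⟨J, _, hJ2, hzJ⟩
      exact hJ2 _ ⟨z, rfl⟩ (J.mul_mem_left _ _ hzJ)
    · exact (isClosed_cle b).preimage (by fun_prop : Continuous fun z : B => star z * z)
  rw [hs]
  exact hcl hsK

end Pool.Agent.H898P
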