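import Pool.Agent.H898P.StepI

/-! The ideal absorbed by a positive element (Kirchberg–Rørdam). -/

set_option autoImplicit false

noncomputable section

namespace Pool.Agent.H898P

open Pool.Agent.H898SR

variable {A B : Type} [CStarAlgebra A] [CStarAlgebra B]

/-- `b ⊕ c ≾ b` -/
def Inf (b c : B) : Prop := ∀ ε : ℝ, 0 < ε → ∃ x y : B, ‖x * b * star x - b‖ < ε ∧
  ‖y * b * star y - c‖ < ε ∧ ‖x * b * star y‖ < ε

theorem inf_zero (b : B) : Inf b 0 := fun ε hε => ⟨1, 0, by simpa using hε, by simpa using hε,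
  by simpa using hε⟩

theorem inf_cle (b c : B) (h : Inf b c) : Cle c b := fun ε hε => by
  obtain ⟨x, y, _, h2, _⟩ := h ε hε
  exact ⟨y, h2⟩

theorem inf_lim (b c : B) (h : ∀ ε : ℝ, 0 < ε → ∃ c', ‖c - c'‖ < ε ∧ Inf b c') : Inf b c := by
  intro ε hε
  obtain ⟨c', h1, h2⟩ := h (ε / 2) (by positivity)
  obtain ⟨x, y, h3, h4, h5⟩ := h2 (ε / 2) (by positivity)
  refine ⟨x, y, by linarith, ?_, by linarith⟩
  calc _ = ‖(y * b * star y - c') - (c - c')‖ := by congr 1; abel
    _ ≤ ‖y * b * star y - c'‖ + ‖c - c'‖ := norm_sub_le _ _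
    _ < ε / 2 + ε / 2 := add_lt_add h4 h1
    _ = ε := by ring

theorem nmul3 (p q z : B) (K t : ℝ) (hK : 0 ≤ K) (hp : ‖p‖ ≤ K) (hq : ‖q‖ ≤ K) (hz : ‖z‖ ≤ t) :
    ‖p * z * star q‖ ≤ K * t * K := by
  have ht : 0 ≤ t := (norm_nonneg _).trans hz
  calc _ ≤ ‖p‖ * ‖z‖ * ‖star q‖ :=
        (norm_mul_le _ _).trans (mul_le_mul_of_nonneg_right (norm_mul_le _ _) (norm_nonneg _))
    _ ≤ _ := by
        rw [norm_star]
        gcongr

theorem inf_of_cle (b c c' : B) (h : Inf b c) (h2 : Cle c' c) : Inf b c' := by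
  intro ε hε
  obtain ⟨z, hz⟩ := h2 (ε / 2) (by positivity)
  obtain ⟨K, hK⟩ : ∃ K : ℝ, K = ‖z‖ + 1 := ⟨_, rfl⟩
  have hK1 : 1 ≤ K := by rw [hK]; linarith [norm_nonneg z]
  have hzK : ‖z‖ ≤ K := by rw [hK]; linarith
  obtain ⟨t, ht⟩ : ∃ t : ℝ, t = ε / (4 * K ^ 2) := ⟨_, rfl⟩
  have ht0 : 0 < t := by rw [ht]; positivity
  have htK : K * t * K = ε / 4 := by rw [ht]; field_simp
  have htε : t ≤ ε / 4 := by
    rw [← htK]
    nlinarith [mul_nonneg ht0.le (sub_nonneg.2 hK1), mul_nonneg (mul_nonneg ht0.le (sub_nonneg.2 hK1)) (sub_nonneg.2 hK1)]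
  obtain ⟨x, y, h3, h4, h5⟩ := h t ht0
  refine ⟨x, z * y, by linarith, ?_, ?_⟩
  · have e1 : z * y * b * star (z * y) - c' = z * (y * b * star y - c) * star z +
        (z * c * star z - c') := by
      rw [star_mul]; noncomm_ring
    rw [e1]
    have := nmul3 z z _ K t (by linarith) hzK hzK h4.le
    calc _ ≤ ‖z * (y * b * star y - c) * star z‖ + ‖z * c * star z - c'‖ := norm_add_le _ _
      _ < ε := by linarith
  · have e1 : x * b * star (z * y) = 1 * (x * b * star y) * star z := by
      rw [star_mul]; noncomm_ring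
    rw [e1]
    have h1K : ‖(1 : B)‖ ≤ K := by
      rcases subsingleton_or_nontrivial B with hs' | hs'
      · rw [Subsingleton.elim (1 : B) 0, norm_zero]; linarith
      · exact (CStarRing.norm_one (E := B)).le.trans hK1
    have := nmul3 1 z _ K t (by linarith) h1K hzK h5.le
    linarith

theorem inf_add (b c d : B) (hb : star b = b) (h1 : Inf b c) (h2 : Inf b d) : Inf b (c + d) := by
  intro ε hε
  obtain ⟨x, y, hx, hy, hxy⟩ := h1 (ε / 8) (by positivity)
  obtain ⟨K, hK⟩ : ∃ K : ℝ, K = ‖x‖ + ‖y‖ + 1 := ⟨_, rfl⟩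
  have hK1 : 1 ≤ K := by rw [hK]; linarith [norm_nonneg x, norm_nonneg y]
  have hxK : ‖x‖ ≤ K := by rw [hK]; linarith [norm_nonneg y]
  have hyK : ‖y‖ ≤ K := by rw [hK]; linarith [norm_nonneg x]
  have h1K : ‖(1 : B)‖ ≤ K := by
    rcases subsingleton_or_nontrivial B with hs' | hs'
    · rw [Subsingleton.elim (1 : B) 0, norm_zero]; linarith
    · exact (CStarRing.norm_one (E := B)).le.trans hK1
  obtain ⟨t, ht⟩ : ∃ t : ℝ, t = ε / (8 * K ^ 2) := ⟨_, rfl⟩
  have ht0 : 0 < t := by rw [ht]; positivity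
  have htK : K * t * K = ε / 8 := by rw [ht]; field_simp
  obtain ⟨x2, y2, hx2, hy2, hxy2⟩ := h2 t ht0
  have htε : t ≤ ε / 8 := by
    rw [← htK]
    nlinarith [mul_nonneg ht0.le (sub_nonneg.2 hK1), mul_nonneg (mul_nonneg ht0.le (sub_nonneg.2 hK1)) (sub_nonneg.2 hK1)]
  have hyx2 : ‖y2 * b * star x2‖ < t := by
    have : star (x2 * b * star y2) = y2 * b * star x2 := by
      rw [star_mul, star_mul, star_star, hb, mul_assoc]
    rw [← this, norm_star]
    exact hxy2
  refine ⟨x * x2, y * x2 + y2, ?_, ?_, ?_⟩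
  · have e1 : x * x2 * b * star (x * x2) - b = x * (x2 * b * star x2 - b) * star x +
        (x * b * star x - b) := by
      rw [star_mul]; noncomm_ring
    rw [e1]
    have := nmul3 x x _ K t (by linarith) hxK hxK hx2.le
    calc _ ≤ _ := norm_add_le _ _
      _ < ε := by linarith
  · have e1 : (y * x2 + y2) * b * star (y * x2 + y2) - (c + d) =
        y * (x2 * b * star x2 - b) * star y + (y * b * star y - c) + (y2 * b * star y2 - d) +
        y * (x2 * b * star y2) * star 1 + 1 * (y2 * b * star x2) * star y := by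
      rw [star_add, star_mul, star_one]; noncomm_ring
    rw [e1]
    have k1 := nmul3 y y _ K t (by linarith) hyK hyK hx2.le
    have k2 := nmul3 y 1 _ K t (by linarith) hyK h1K hxy2.le
    have k3 := nmul3 1 y _ K t (by linarith) h1K hyK hyx2.le
    calc _ ≤ ‖y * (x2 * b * star x2 - b) * star y‖ + ‖y * b * star y - c‖ +
        ‖y2 * b * star y2 - d‖ + ‖y * (x2 * b * star y2) * star 1‖ +
        ‖1 * (y2 * b * star x2) * star y‖ := by
          refine (norm_add_le _ _).trans (add_le_add ?_ le_rfl)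
          refine (norm_add_le _ _).trans (add_le_add ?_ le_rfl)
          refine (norm_add_le _ _).trans (add_le_add ?_ le_rfl)
          exact norm_add_le _ _
      _ < ε := by linarith
  · have e1 : x * x2 * b * star (y * x2 + y2) = x * (x2 * b * star x2 - b) * star y +
        x * b * star y + x * (x2 * b * star y2) * star 1 := by
      rw [star_add, star_mul, star_one]; noncomm_ring
    rw [e1]
    have k1 := nmul3 x y _ K t (by linarith) hxK hyK hx2.le
    have k2 := nmul3 x 1 _ K t (by linarith) hxK h1K hxy2.le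
    calc _ ≤ ‖x * (x2 * b * star x2 - b) * star y‖ + ‖x * b * star y‖ +
        ‖x * (x2 * b * star y2) * star 1‖ := by
          refine (norm_add_le _ _).trans (add_le_add ?_ le_rfl)
          exact norm_add_le _ _
      _ < ε := by linarith

theorem isClosed_inf (b : B) : IsClosed {a : B | Inf b a} := by
  apply isClosed_of_closure_subset
  intro a ha
  refine inf_lim b a fun ε hε => ?_
  rw [Metric.mem_closure_iff] at ha
  obtain ⟨a', h1, h2⟩ := ha ε hε
  exact ⟨a', by rwa [dist_eq_norm] at h2, h1⟩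

/-- the ideal absorbed by `b` -/
theorem exists_inf_ideal (b : B) (hb : star b = b) : ∃ N : TwoSidedIdeal B,
    IsClosed (N : Set B) ∧ ∀ s : B, s ∈ N ↔ Inf b (star s * s) := by
  let _ := CStarAlgebra.spectralOrder B
  let _ := CStarAlgebra.spectralOrderedRing B
  have hl : ∀ y s : B, Inf b (star s * s) → Inf b (star (y * s) * (y * s)) := by
    intro y s hs
    have h1 : star y * y ≤ (‖y‖ ^ 2) • (1 : B) := by
      have h1 := CStarAlgebra.star_mul_le_algebraMap_norm_sq (A := B) (a := y)
      rwa [Algebra.algebraMap_eq_smul_one] at h1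
    have h2 := star_left_conjugate_le_conjugate h1 s
    have h3 : star s * (star y * y) * s = star (y * s) * (y * s) := by
      rw [star_mul]; simp only [mul_assoc]
    have h4 : star s * ((‖y‖ ^ 2) • (1 : B)) * s = (‖y‖ ^ 2) • (star s * s) := by
      rw [mul_smul_comm, mul_one, smul_mul_assoc]
    rw [h3, h4] at h2
    have h5 : Cle (star (y * s) * (y * s)) ((‖y‖ ^ 2) • (star s * s)) :=
      cle_of_le _ _ ⟨_, rfl⟩ (ps_of_nonneg (smul_nonneg (by positivity) (star_mul_self_nonneg s)))
        (ps_of_nonneg (sub_nonneg.2 h2))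
    exact inf_of_cle _ _ _ hs (cle_trans _ _ _ h5 (cle_smul _ (by positivity) _))
  set N : TwoSidedIdeal B := TwoSidedIdeal.mk' {s : B | Inf b (star s * s)}
    (by
      rw [Set.mem_ofPred_eq, star_zero, zero_mul]
      exact inf_zero b)
    (by
      intro s t hs ht
      rw [Set.mem_ofPred_eq] at *
      have h1 : Inf b (star s * s + star t * t) := inf_add b _ _ hb hs ht
      have h2 : Cle ((2 : ℝ) • (star s * s + star t * t)) (star s * s + star t * t) :=
        cle_smul 2 (by norm_num) _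
      have h3 : Cle (star (s + t) * (s + t)) ((2 : ℝ) • (star s * s + star t * t)) := by
        apply cle_of_le _ _ ⟨_, rfl⟩
        · exact ps_of_nonneg (smul_nonneg (by norm_num)
            (add_nonneg (star_mul_self_nonneg s) (star_mul_self_nonneg t)))
        · refine ⟨s - t, ?_⟩
          rw [two_smul, star_add, star_sub]; noncomm_ring
      exact inf_of_cle _ _ _ h1 (cle_trans _ _ _ h3 h2))
    (by
      intro s hs
      rw [Set.mem_ofPred_eq] at *
      rwa [star_neg, neg_mul_neg])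
    (by
      intro y s hs
      rw [Set.mem_ofPred_eq] at *
      exact hl y s hs)
    (by
      intro s y hs
      rw [Set.mem_ofPred_eq] at *
      have h1 : star (s * y) * (s * y) = star y * (star s * s) * star (star y) := by
        rw [star_mul, star_star]; simp only [mul_assoc]
      rw [h1]
      exact inf_of_cle _ _ _ hs (cle_conj _ _)) with hN
  refine ⟨N, ?_, fun s => ?_⟩
  · rw [hN, TwoSidedIdeal.coe_mk']
    exact (isClosed_inf b).preimage (by fun_prop : Continuous fun s : B => star s * s)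
  · rw [hN, TwoSidedIdeal.mem_mk']
    rfl

end Pool.Agent.H898P
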