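import Pool.Agent.H898P.StepJ

/-! Combining orthogonal pieces. -/

set_option autoImplicit false

noncomputable section

namespace Pool.Agent.H898P

open Pool.Agent.H898SR

variable {A B : Type} [CStarAlgebra A] [CStarAlgebra B]

/-- `a ⊕ c ≾ b` -/
def D2 (b a c : B) : Prop := ∀ ε : ℝ, 0 < ε → ∃ x y : B, ‖x * b * star x - a‖ < ε ∧
  ‖y * b * star y - c‖ < ε ∧ ‖x * b * star y‖ < ε

theorem one_le (K : ℝ) (hK1 : 1 ≤ K) : ‖(1 : B)‖ ≤ K := by
  rcases subsingleton_or_nontrivial B with hs' | hs'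
  · rw [Subsingleton.elim (1 : B) 0, norm_zero]; linarith
  · exact (CStarRing.norm_one (E := B)).le.trans hK1

theorem d2_symm (b a c : B) (hb : star b = b) (h : D2 b a c) : D2 b c a := by
  intro ε hε
  obtain ⟨x, y, h1, h2, h3⟩ := h ε hε
  refine ⟨y, x, h2, h1, ?_⟩
  have : star (x * b * star y) = y * b * star x := by
    rw [star_mul, star_mul, star_star, hb, mul_assoc]
  rw [← this, norm_star]
  exact h3

theorem d2_cle (b a c c' : B) (h : D2 b a c) (h2 : Cle c' c) : D2 b a c' := by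
  intro ε hε
  obtain ⟨z, hz⟩ := h2 (ε / 2) (by positivity)
  obtain ⟨K, hK⟩ : ∃ K : ℝ, K = ‖z‖ + 1 := ⟨_, rfl⟩
  have hK1 : 1 ≤ K := by rw [hK]; linarith [norm_nonneg z]
  have hzK : ‖z‖ ≤ K := by rw [hK]; linarith
  obtain ⟨t, ht⟩ : ∃ t : ℝ, t = ε / (4 * K ^ 2) := ⟨_, rfl⟩
  have ht0 : 0 < t := by rw [ht]; positivity
  have htK : K * t * K = ε / 4 := by rw [ht]; field_simp
  have htε : t ≤ ε / 4 := by
    rw [← htK]
    nlinarith [mul_nonneg ht0.le (sub_nonneg.2 hK1),
      mul_nonneg (mul_nonneg ht0.le (sub_nonneg.2 hK1)) (sub_nonneg.2 hK1)]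
  obtain ⟨x, y, h3, h4, h5⟩ := h t ht0
  refine ⟨x, z * y, by linarith, ?_, ?_⟩
  · have e1 : z * y * b * star (z * y) - c' = z * (y * b * star y - c) * star z +
        (z * c * star z - c') := by
      rw [star_mul]; noncomm_ring
    rw [e1]
    have := nmul3 z z _ K t (by linarith) hzK hzK h4.le
    calc _ ≤ ‖z * (y * b * star y - c) * star z‖ + ‖z * c * star z - c'‖ := norm_add_le _ _
      _ < ε := by linarith
  · have e1 : x * b * star (z * y) = 1 * (x * b * star y) * star z := by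
      rw [star_mul]; noncomm_ring
    rw [e1]
    have := nmul3 1 z _ K t (by linarith) (one_le K hK1) hzK h5.le
    linarith

theorem cle_sq (a : B) (ha : Ps a) : Cle a (a * a) := by
  intro ε hε
  obtain ⟨δ, hδ⟩ : ∃ δ : ℝ, δ = ε / 2 := ⟨_, rfl⟩
  have hδ0 : 0 < δ := by rw [hδ]; positivity
  have hne : ∀ t : ℝ, |t| + δ ≠ 0 := fun t => by positivity
  have hc2 : Continuous fun t : ℝ => 1 / Real.sqrt (|t| + δ) :=
    continuous_const.div (by fun_prop) fun t => by positivity
  refine ⟨cfc (fun t : ℝ => 1 / Real.sqrt (|t| + δ)) a, ?_⟩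
  rw [(cfc_sa _ _).star_eq, conj_cfc2 a ha.sa _ hc2]
  have hc : Continuous fun t : ℝ => 1 / Real.sqrt (|t| + δ) * (t * t) *
      (1 / Real.sqrt (|t| + δ)) :=
    (hc2.mul (by fun_prop)).mul hc2
  rw [cfc_sub_self a ha.sa _ hc]
  refine lt_of_le_of_lt (norm_cfc_le hδ0.le ?_) (show δ < ε by rw [hδ]; linarith)
  intro t ht
  have h0 : 0 ≤ t := ha.spec t ht
  rw [Real.norm_eq_abs, abs_of_nonneg h0]
  have hd : 0 < t + δ := by positivity
  have e1 : 1 / Real.sqrt (t + δ) * (t * t) * (1 / Real.sqrt (t + δ)) - t =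
      -(t * δ) / (t + δ) := by
    obtain ⟨s, hs, h3, hs0⟩ : ∃ s, s = Real.sqrt (t + δ) ∧ s * s = t + δ ∧ s ≠ 0 :=
      ⟨_, rfl, Real.mul_self_sqrt hd.le, (Real.sqrt_pos.2 hd).ne'⟩
    have h4 : 1 / s * (t * t) * (1 / s) = t * t / (t + δ) := by
      rw [← h3]
      field_simp
    rw [← hs, h4, eq_div_iff hd.ne', sub_mul, div_mul_cancel₀ _ hd.ne']
    ring
  rw [e1, abs_div, abs_neg, abs_of_nonneg (by positivity), abs_of_nonneg (by positivity),
    div_le_iff₀ (by positivity)]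
  nlinarith [mul_nonneg h0 hδ0.le, mul_pos hδ0 hδ0]

theorem cle_swap (z : B) : Cle (z * star z) (star z * z) := by
  have h1 := cle_sq (z * star z) ⟨star z, by rw [star_star]⟩
  have h2 : (z * star z) * (z * star z) = z * (star z * z) * star z := by simp only [mul_assoc]
  rw [h2] at h1
  exact cle_trans _ _ _ h1 (cle_conj _ _)

theorem d2_of_orth (b w S : B) (hw : Ps w) (hS : Ps S) (h0 : w * S = 0) (h : Cle (w + S) b) :
    D2 b w S := by
  intro ε hε
  obtain ⟨δ, hδ⟩ : ∃ δ : ℝ, δ = ε / 8 := ⟨_, rfl⟩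
  have hδ0 : 0 < δ := by rw [hδ]; positivity
  have hne : ∀ t : ℝ, |t| + δ ≠ 0 := fun t => by positivity
  have hc1 : Continuous fun t : ℝ => t / (|t| + δ) :=
    continuous_id'.div (by fun_prop) hne
  have key : ∀ a : B, Ps a → ‖cfc (fun t : ℝ => t / (|t| + δ)) a * a *
      cfc (fun t : ℝ => t / (|t| + δ)) a - a‖ ≤ 2 * δ ∧
      ‖cfc (fun t : ℝ => t / (|t| + δ)) a‖ ≤ 1 := by
    intro a ha
    constructor
    · rw [conj_cfc a ha.sa _ hc1]
      have hc : Continuous fun t : ℝ => t / (|t| + δ) * t * (t / (|t| + δ)) :=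
        (hc1.mul continuous_id').mul hc1
      rw [cfc_sub_self a ha.sa _ hc]
      apply norm_cfc_le (by positivity)
      intro t ht
      have h0 : 0 ≤ t := ha.spec t ht
      rw [Real.norm_eq_abs, abs_of_nonneg h0]
      have hd : 0 < t + δ := by positivity
      have e1 : t / (t + δ) * t * (t / (t + δ)) - t = -(t * δ * (2 * t + δ)) / (t + δ) ^ 2 := by
        field_simp; ring
      rw [e1, abs_div, abs_neg, abs_of_nonneg (by positivity), abs_of_nonneg (by positivity),
        div_le_iff₀ (by positivity)]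
      nlinarith [mul_nonneg h0 hδ0.le, mul_nonneg h0 (mul_pos hδ0 hδ0).le,
        mul_pos (mul_pos hδ0 hδ0) hδ0, mul_nonneg (mul_nonneg h0 h0) hδ0.le]
    · apply norm_cfc_le zero_le_one
      intro t ht
      have h0 : 0 ≤ t := ha.spec t ht
      rw [Real.norm_eq_abs, abs_of_nonneg h0, abs_of_nonneg (by positivity),
        div_le_one (by positivity)]
      linarith
  obtain ⟨p, hp⟩ : ∃ p, p = cfc (fun t : ℝ => t / (|t| + δ)) w := ⟨_, rfl⟩
  obtain ⟨q, hq⟩ : ∃ q, q = cfc (fun t : ℝ => t / (|t| + δ)) S := ⟨_, rfl⟩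
  have hps : star p = p := by rw [hp]; exact (cfc_sa _ _).star_eq
  have hqs : star q = q := by rw [hq]; exact (cfc_sa _ _).star_eq
  have kp := key w hw
  have kq := key S hS
  rw [← hp] at kp
  rw [← hq] at kq
  have h0' : S * w = 0 := by
    have := congrArg star h0
    rwa [star_mul, hw.sa.star_eq, hS.sa.star_eq, star_zero] at this
  have hpS : p * S = 0 := by
    rw [hp, left_zero w S hw.sa h0 _ hc1]; simp
  have hqw : q * w = 0 := by
    rw [hq, left_zero S w hS.sa h0' _ hc1]; simp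
  have hwq : w * q = 0 := by
    have := congrArg star hqw
    rwa [star_mul, hw.sa.star_eq, hqs, star_zero] at this
  obtain ⟨z, hz⟩ := h δ hδ0
  have est : ∀ a c : B, ‖a‖ ≤ 1 → ‖c‖ ≤ 1 →
      ‖(a * z) * b * star (c * z) - a * (w + S) * star c‖ ≤ δ := by
    intro a c ha hc
    have e1 : (a * z) * b * star (c * z) - a * (w + S) * star c =
        a * (z * b * star z - (w + S)) * star c := by
      rw [star_mul]; noncomm_ring
    rw [e1]
    have := nmul3 a c _ 1 δ zero_le_one ha hc hz.le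
    linarith
  refine ⟨p * z, q * z, ?_, ?_, ?_⟩
  · have h1 := est p p kp.2 kp.2
    have h2 : p * (w + S) * star p = p * w * p := by rw [hps, mul_add, hpS, add_zero]
    rw [h2] at h1
    calc _ ≤ ‖(p * z) * b * star (p * z) - p * w * p‖ + ‖p * w * p - w‖ :=
          norm_sub_le_norm_sub_add_norm_sub _ _ _
      _ ≤ δ + 2 * δ := add_le_add h1 kp.1
      _ < ε := by rw [hδ]; linarith
  · have h1 := est q q kq.2 kq.2
    have h2 : q * (w + S) * star q = q * S * q := by rw [hqs, mul_add, hqw, zero_add]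
    rw [h2] at h1
    calc _ ≤ ‖(q * z) * b * star (q * z) - q * S * q‖ + ‖q * S * q - S‖ :=
          norm_sub_le_norm_sub_add_norm_sub _ _ _
      _ ≤ δ + 2 * δ := add_le_add h1 kq.1
      _ < ε := by rw [hδ]; linarith
  · have h1 := est p q kp.2 kq.2
    have h2 : p * (w + S) * star q = 0 := by
      rw [hqs, mul_add, hpS, add_zero, mul_assoc, hwq, mul_zero]
    rw [h2, sub_zero] at h1
    calc _ ≤ δ := h1
      _ < ε := by rw [hδ]; linarith

theorem d2_split (b w E f : B) (hb : star b = b) (h : D2 b w E) (hf : Cle f E)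
    (h2 : ∀ ε : ℝ, 0 < ε → ∃ r s : B, ‖r * E * star r - E‖ < ε ∧ ‖s * E * star s - E‖ < ε ∧
      ‖r * E * star s‖ < ε) : D2 b (w + f) E := by
  intro ε hε
  obtain ⟨t, ht⟩ := hf (ε / 8) (by positivity)
  obtain ⟨T, hT⟩ : ∃ T : ℝ, T = ‖t‖ + 1 := ⟨_, rfl⟩
  have hT1 : 1 ≤ T := by rw [hT]; linarith [norm_nonneg t]
  have htT : ‖t‖ ≤ T := by rw [hT]; linarith
  obtain ⟨τ, hτ⟩ : ∃ τ : ℝ, τ = ε / (8 * T ^ 2) := ⟨_, rfl⟩
  have hτ0 : 0 < τ := by rw [hτ]; positivity
  have hτT : T * τ * T = ε / 8 := by rw [hτ]; field_simp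
  have hτε : τ ≤ ε / 8 := by
    rw [← hτT]
    nlinarith [mul_nonneg hτ0.le (sub_nonneg.2 hT1),
      mul_nonneg (mul_nonneg hτ0.le (sub_nonneg.2 hT1)) (sub_nonneg.2 hT1)]
  obtain ⟨r, s, hr, hs, hrs⟩ := h2 τ hτ0
  obtain ⟨K, hK⟩ : ∃ K : ℝ, K = T * (‖r‖ + ‖s‖ + 1) := ⟨_, rfl⟩
  have hK1 : 1 ≤ K := by rw [hK]; nlinarith [norm_nonneg r, norm_nonneg s]
  have hrK : ‖t * r‖ ≤ K := by
    rw [hK]
    refine (norm_mul_le _ _).trans ?_
    have := norm_nonneg s
    have := norm_nonneg r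
    exact mul_le_mul htT (by linarith) (norm_nonneg _) (by linarith)
  have hsK : ‖s‖ ≤ K := by
    rw [hK]
    nlinarith [norm_nonneg r, norm_nonneg s]
  obtain ⟨σ, hσ⟩ : ∃ σ : ℝ, σ = ε / (8 * K ^ 2) := ⟨_, rfl⟩
  have hσ0 : 0 < σ := by rw [hσ]; positivity
  have hσK : K * σ * K = ε / 8 := by rw [hσ]; field_simp
  have hσε : σ ≤ ε / 8 := by
    rw [← hσK]
    nlinarith [mul_nonneg hσ0.le (sub_nonneg.2 hK1),
      mul_nonneg (mul_nonneg hσ0.le (sub_nonneg.2 hK1)) (sub_nonneg.2 hK1)]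
  obtain ⟨x, y, hx, hy, hxy⟩ := h σ hσ0
  have hyx : ‖y * b * star x‖ < σ := by
    have : star (x * b * star y) = y * b * star x := by
      rw [star_mul, star_mul, star_star, hb, mul_assoc]
    rw [← this, norm_star]
    exact hxy
  have h1K : ‖(1 : B)‖ ≤ K := one_le K hK1
  have h1T : ‖(1 : B)‖ ≤ T := one_le T hT1
  refine ⟨x + t * r * y, s * y, ?_, ?_, ?_⟩
  · have e1 : (x + t * r * y) * b * star (x + t * r * y) - (w + f) =
        (x * b * star x - w) + (t * r) * (y * b * star y - E) * star (t * r) +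
        t * (r * E * star r - E) * star t + (t * E * star t - f) +
        1 * (x * b * star y) * star (t * r) + (t * r) * (y * b * star x) * star 1 := by
      simp only [star_add, star_mul, star_one]; noncomm_ring
    rw [e1]
    have k1 := nmul3 (t * r) (t * r) _ K σ (by linarith) hrK hrK hy.le
    have k2 := nmul3 t t _ T τ (by linarith) htT htT hr.le
    have k3 := nmul3 1 (t * r) _ K σ (by linarith) h1K hrK hxy.le
    have k4 := nmul3 (t * r) 1 _ K σ (by linarith) hrK h1K hyx.le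
    calc _ ≤ ‖x * b * star x - w‖ + ‖(t * r) * (y * b * star y - E) * star (t * r)‖ +
        ‖t * (r * E * star r - E) * star t‖ + ‖t * E * star t - f‖ +
        ‖1 * (x * b * star y) * star (t * r)‖ + ‖(t * r) * (y * b * star x) * star 1‖ := by
          refine (norm_add_le _ _).trans (add_le_add ?_ le_rfl)
          refine (norm_add_le _ _).trans (add_le_add ?_ le_rfl)
          refine (norm_add_le _ _).trans (add_le_add ?_ le_rfl)
          refine (norm_add_le _ _).trans (add_le_add ?_ le_rfl)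
          exact norm_add_le _ _
      _ < ε := by linarith
  · have e1 : s * y * b * star (s * y) - E = s * (y * b * star y - E) * star s +
        (s * E * star s - E) := by
      rw [star_mul]; noncomm_ring
    rw [e1]
    have k1 := nmul3 s s _ K σ (by linarith) hsK hsK hy.le
    calc _ ≤ _ := norm_add_le _ _
      _ < ε := by linarith
  · have e1 : (x + t * r * y) * b * star (s * y) = 1 * (x * b * star y) * star s +
        (t * r) * (y * b * star y - E) * star s + t * (r * E * star s) * star 1 := by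
      simp only [star_add, star_mul, star_one]; noncomm_ring
    rw [e1]
    have k1 := nmul3 1 s _ K σ (by linarith) h1K hsK hxy.le
    have k2 := nmul3 (t * r) s _ K σ (by linarith) hrK hsK hy.le
    have k3 := nmul3 t 1 _ T τ (by linarith) htT h1T hrs.le
    calc _ ≤ ‖1 * (x * b * star y) * star s‖ + ‖(t * r) * (y * b * star y - E) * star s‖ +
        ‖t * (r * E * star s) * star 1‖ := by
          refine (norm_add_le _ _).trans (add_le_add ?_ le_rfl)
          exact norm_add_le _ _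
      _ < ε := by linarith

/-- assembling absorption -/
theorem absorb (b w S E f : B) (hb : star b = b) (hw : Ps w) (hS : Ps S) (h0 : w * S = 0)
    (h1 : Cle (w + S) b) (h2 : Cle E S) (h3 : Cle f E) (h4 : Cle b (w + f))
    (h5 : ∀ ε : ℝ, 0 < ε → ∃ r s : B, ‖r * E * star r - E‖ < ε ∧ ‖s * E * star s - E‖ < ε ∧
      ‖r * E * star s‖ < ε) : Inf b E := by
  have k1 : D2 b w S := d2_of_orth b w S hw hS h0 h1
  have k2 : D2 b w E := d2_cle _ _ _ _ k1 h2
  have k3 : D2 b (w + f) E := d2_split b w E f hb k2 h3 h5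
  exact d2_symm _ _ _ hb (d2_cle _ _ _ _ (d2_symm _ _ _ hb k3) h4)

end Pool.Agent.H898P
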