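import Pool.Agent.H898P.StepK

/-! Absorption of compact elements. -/

set_option autoImplicit false

noncomputable section

namespace Pool.Agent.H898P

open Pool.Agent.H898SR

variable {A B : Type} [CStarAlgebra A] [CStarAlgebra B]

theorem abs_compact (hA : PI A) (ι : A →⋆ₐ[ℂ] B) (x : A) (hx : x * x = 0) (b : B) (hb : Ps b)
    (hle : Cle (ι (star x * x)) b) (δ : ℝ) (hδ : 0 < δ)
    (hcomp : InId (ι (star x * x)) (cfc (fun t : ℝ => max (t - δ) 0) (ι (star x * x)))) :
    Inf b (ι (star x * x)) := by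
  let _ := CStarAlgebra.spectralOrder B
  let _ := CStarAlgebra.spectralOrderedRing B
  obtain ⟨e, he⟩ : ∃ e, e = star x * x := ⟨_, rfl⟩
  have heP : Ps e := ⟨x, he⟩
  obtain ⟨E, hE⟩ : ∃ E, E = ι (star x * x) := ⟨_, rfl⟩
  have hEe : E = ι e := by rw [hE, he]
  have hEP : Ps E := ⟨ι x, by rw [hE, map_mul, map_star]⟩
  rw [← hE] at hle hcomp ⊢
  -- step 0
  obtain ⟨v, hv⟩ := hle (δ / 4) (by positivity)
  have hbs : star b = b := hb.sa.star_eq
  obtain ⟨V0, hV0⟩ : ∃ V0, V0 = v * b * star v := ⟨_, rfl⟩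
  have hV0P : 0 ≤ V0 := by rw [hV0]; exact star_right_conjugate_nonneg (Ps.nonneg' hb) v
  have hv2 : E - (δ / 4) • (1 : B) ≤ V0 :=
    le_of_norm_sub V0 E (IsSelfAdjoint.of_nonneg hV0P) hEP.sa (δ / 4) (by rw [hV0]; exact hv.le)
  have hgc : Continuous fun t : ℝ => max (t - δ / 2) 0 := by fun_prop
  obtain ⟨g, hg⟩ : ∃ g, g = cfc (fun t : ℝ => max (t - δ / 2) 0) E := ⟨_, rfl⟩
  have hgs : star g = g := by rw [hg]; exact (cfc_sa _ _).star_eq
  obtain ⟨s, hs⟩ : ∃ s, s = cfc (fun t : ℝ => Real.sqrt t) b := ⟨_, rfl⟩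
  have hss : star s = s := by rw [hs]; exact (cfc_sa _ _).star_eq
  have hsb : s * s = b := by
    rw [hs, cm b _ _ (by fun_prop) (by fun_prop)]
    conv_rhs => rw [← cfc_i b hb.sa]
    apply cfc_congr
    intro t ht
    exact Real.mul_self_sqrt (hb.spec t ht)
  obtain ⟨u, hu⟩ : ∃ u, u = g * v := ⟨_, rfl⟩
  obtain ⟨r, hr⟩ : ∃ r, r = u * s := ⟨_, rfl⟩
  obtain ⟨R, hR⟩ : ∃ R, R = r * star r := ⟨_, rfl⟩
  obtain ⟨D, hD⟩ : ∃ D, D = star r * r := ⟨_, rfl⟩
  have hRP : Ps R := ⟨star r, by rw [hR, star_star]⟩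
  have hDP : Ps D := ⟨r, hD⟩
  have hRV : R = g * V0 * g := by
    rw [hR, hr, hu, hV0, ← hsb]
    simp only [star_mul, hgs, hss, mul_assoc]
  have hDs : D = s * star u * u * s := by
    rw [hD, hr]
    simp only [star_mul, hss, mul_assoc]
  -- step 1
  have h1 : (δ / 4) • (g * g) ≤ R := by
    have a1 := star_left_conjugate_le_conjugate hv2 g
    rw [hgs, ← hRV] at a1
    refine le_trans ?_ a1
    have hps : Ps (g * (E - (δ / 4) • 1) * g - (δ / 4) • (g * g)) := by
      have e1 : g * (E - (δ / 4) • 1) * g - (δ / 4) • (g * g) =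
          cfc (fun t : ℝ => (max (t - δ / 2) 0 * t * max (t - δ / 2) 0) -
            (δ / 2) * (max (t - δ / 2) 0 * max (t - δ / 2) 0)) E := by
        rw [cfc_sub (fun t : ℝ => (max (t - δ / 2) 0 * t * max (t - δ / 2) 0))
          (fun t : ℝ => (δ / 2) * (max (t - δ / 2) 0 * max (t - δ / 2) 0)) E
          (by fun_prop) (by fun_prop),
          ← conj_cfc E hEP.sa _ hgc,
          cfc_const_mul (δ / 2) (fun t : ℝ => max (t - δ / 2) 0 * max (t - δ / 2) 0) E
            (by fun_prop), ← cm E _ _ hgc hgc, ← hg]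
        have e2 : (δ / 2) • (g * g) = (δ / 4) • (g * g) + (δ / 4) • (g * g) := by
          rw [← add_smul]; congr 1; ring
        rw [e2, mul_sub, sub_mul, mul_smul_comm, mul_one, smul_mul_assoc]
        abel
      rw [e1]
      apply ps_of (cfc_sa _ _)
      intro s hs
      rw [cfc_map_spectrum _ E hEP.sa (by fun_prop)] at hs
      obtain ⟨t, ht, rfl⟩ := hs
      simp only
      rcases le_total (t - δ / 2) 0 with h | h
      · rw [max_eq_right h]; simp
      · rw [max_eq_left h]
        have : (t - δ / 2) * t * (t - δ / 2) - δ / 2 * ((t - δ / 2) * (t - δ / 2)) =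
            (t - δ / 2) * ((t - δ / 2) * (t - δ / 2)) := by ring
        rw [this]
        exact mul_nonneg h (mul_nonneg h h)
    rw [← sub_nonneg]
    exact Ps.nonneg' hps
  obtain ⟨η, hη⟩ : ∃ η : ℝ, η = δ ^ 3 / 32 := ⟨_, rfl⟩
  have hη0 : 0 < η := by rw [hη]; positivity
  have hηc : Continuous fun t : ℝ => max (t - η) 0 := by fun_prop
  obtain ⟨T, hT⟩ : ∃ T, T = cfc (fun t : ℝ => max (t - η) 0) R := ⟨_, rfl⟩
  obtain ⟨S, hS⟩ : ∃ S, S = cfc (fun t : ℝ => max (t - η) 0) D := ⟨_, rfl⟩
  have hSP : Ps S := by rw [hS]; exact ps_cfc D _ hηc (fun t => le_max_right _ _) hDP.sa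
  have hTP : Ps T := by rw [hT]; exact ps_cfc R _ hηc (fun t => le_max_right _ _) hRP.sa
  have h2 : R - η • (1 : B) ≤ T := by
    apply le_of_norm_sub T R hTP.sa hRP.sa
    rw [hT, cfc_sub_self R hRP.sa _ hηc]
    apply norm_cfc_le hη0.le
    intro t ht
    have h0 := hRP.spec t ht
    rw [Real.norm_eq_abs, abs_le]
    rcases le_total (t - η) 0 with h | h
    · rw [max_eq_right h]; constructor <;> linarith
    · rw [max_eq_left h]; constructor <;> linarith
  have hqc : Continuous fun t : ℝ => Real.sqrt (max (t - δ) 0) := by fun_prop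
  obtain ⟨q, hq⟩ : ∃ q, q = cfc (fun t : ℝ => Real.sqrt (max (t - δ) 0)) E := ⟨_, rfl⟩
  have hqs : star q = q := by rw [hq]; exact (cfc_sa _ _).star_eq
  have hqq : q * q = cfc (fun t : ℝ => max (t - δ) 0) E := by
    rw [hq, cm E _ _ hqc hqc]
    congr 1
    funext t
    exact Real.mul_self_sqrt (le_max_right _ _)
  -- `E' ≾ T`
  have h3 : Cle (q * q) T := by
    have a1 := star_left_conjugate_le_conjugate h2 q
    have a2 := star_left_conjugate_le_conjugate h1 q
    rw [hqs] at a1 a2
    have a3 : (δ ^ 3 / 16) • (q * q) ≤ q * ((δ / 4) • (g * g)) * q := by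
      have hps : Ps (q * ((δ / 4) • (g * g)) * q - (δ ^ 3 / 16) • (q * q)) := by
        have hgg : g * g = cfc (fun t : ℝ => max (t - δ / 2) 0 * max (t - δ / 2) 0) E := by
          rw [hg, cm E _ _ hgc hgc]
        have hggc : Continuous fun t : ℝ => max (t - δ / 2) 0 * max (t - δ / 2) 0 := hgc.mul hgc
        have e0 : q * (g * g) * q = cfc (fun t : ℝ => Real.sqrt (max (t - δ) 0) *
            (max (t - δ / 2) 0 * max (t - δ / 2) 0) * Real.sqrt (max (t - δ) 0)) E := by
          rw [hgg, hq, cm E _ _ hqc hggc,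
            cm E (fun t => Real.sqrt (max (t - δ) 0) *
            (max (t - δ / 2) 0 * max (t - δ / 2) 0)) _ (hqc.mul hggc) hqc]
        have e1 : q * ((δ / 4) • (g * g)) * q - (δ ^ 3 / 16) • (q * q) =
            cfc (fun t : ℝ => (δ / 4) * (Real.sqrt (max (t - δ) 0) *
            (max (t - δ / 2) 0 * max (t - δ / 2) 0) * Real.sqrt (max (t - δ) 0)) -
              (δ ^ 3 / 16) * max (t - δ) 0) E := by
          rw [cfc_sub (fun t : ℝ => (δ / 4) * (Real.sqrt (max (t - δ) 0) *
            (max (t - δ / 2) 0 * max (t - δ / 2) 0) * Real.sqrt (max (t - δ) 0)))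
            (fun t : ℝ => (δ ^ 3 / 16) * max (t - δ) 0) E (by fun_prop) (by fun_prop),
            cfc_const_mul (δ / 4) _ E (by fun_prop), cfc_const_mul (δ ^ 3 / 16) _ E (by fun_prop),
            ← e0, ← hqq, mul_smul_comm, smul_mul_assoc]
        rw [e1]
        apply ps_of (cfc_sa _ _)
        intro s hs
        rw [cfc_map_spectrum _ E hEP.sa (by fun_prop)] at hs
        obtain ⟨t, ht, rfl⟩ := hs
        simp only
        have e2 : Real.sqrt (max (t - δ) 0) * (max (t - δ / 2) 0 * max (t - δ / 2) 0) *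
            Real.sqrt (max (t - δ) 0) = max (t - δ) 0 * (max (t - δ / 2) 0 * max (t - δ / 2) 0) := by
          have := Real.mul_self_sqrt (le_max_right (t - δ) 0)
          calc _ = (Real.sqrt (max (t - δ) 0) * Real.sqrt (max (t - δ) 0)) *
                (max (t - δ / 2) 0 * max (t - δ / 2) 0) := by ring
            _ = _ := by rw [this]
        rw [e2]
        rcases le_total (t - δ) 0 with h | h
        · rw [max_eq_right h]; simp
        · rw [max_eq_left h, max_eq_left (by linarith : (0 : ℝ) ≤ t - δ / 2)]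
          have e3 : δ / 4 * ((t - δ) * ((t - δ / 2) * (t - δ / 2))) - δ ^ 3 / 16 * (t - δ) =
              (t - δ) * (δ / 4) * ((t - δ / 2) ^ 2 - (δ / 2) ^ 2) := by ring
          rw [e3]
          apply mul_nonneg (mul_nonneg h (by positivity))
          have : δ / 2 ≤ t - δ / 2 := by linarith
          nlinarith
      rw [← sub_nonneg]
      exact Ps.nonneg' hps
    have a4 : q * (R - η • (1 : B)) * q = q * R * q - η • (q * q) := by
      rw [mul_sub, sub_mul, mul_smul_comm, mul_one, smul_mul_assoc]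
    have a5 : (δ ^ 3 / 32) • (q * q) ≤ q * T * q := by
      refine le_trans ?_ a1
      rw [a4]
      have a6 := a3.trans a2
      have a7 : (δ ^ 3 / 32) • (q * q) = (δ ^ 3 / 16) • (q * q) - η • (q * q) := by
        rw [← sub_smul, hη]; congr 1; ring
      rw [a7]
      exact sub_le_sub_right a6 _
    have a8 := smul_le_smul_of_nonneg_left a5 (show (0 : ℝ) ≤ 32 / δ ^ 3 by positivity)
    rw [smul_smul, show 32 / δ ^ 3 * (δ ^ 3 / 32) = 1 by field_simp, one_smul] at a8
    have a9 : Cle (q * q) ((32 / δ ^ 3) • (q * T * q)) := by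
      refine cle_of_le _ _ ⟨q, by rw [hqs]⟩ ?_ (ps_of_nonneg (sub_nonneg.2 a8))
      apply ps_of_nonneg
      have := star_left_conjugate_nonneg (Ps.nonneg' hTP) q
      rw [hqs] at this
      exact smul_nonneg (by positivity) this
    have a10 : Cle (q * T * q) T := by
      have := cle_conj q T
      rwa [hqs] at this
    exact cle_trans _ _ _ a9 (cle_trans _ _ _ (cle_smul _ (by positivity) _) a10)
  -- `T ≾ S`
  have hkc : Continuous fun t : ℝ => Real.sqrt (max (t - η) 0 / max t η) :=
    Real.continuous_sqrt.comp (hηc.div (by fun_prop) fun t => (lt_max_of_lt_right hη0).ne')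
  have kk : ∀ t : ℝ, 0 ≤ t → Real.sqrt (max (t - η) 0 / max t η) * t *
      Real.sqrt (max (t - η) 0 / max t η) = max (t - η) 0 := by
    intro t h0
    have hm : 0 < max t η := lt_max_of_lt_right hη0
    have := Real.mul_self_sqrt (show 0 ≤ max (t - η) 0 / max t η from
      div_nonneg (le_max_right _ _) hm.le)
    calc _ = (Real.sqrt (max (t - η) 0 / max t η) * Real.sqrt (max (t - η) 0 / max t η)) * t := by
          ring
      _ = max (t - η) 0 / max t η * t := by rw [this]
      _ = _ := by
        rcases le_total (t - η) 0 with h | h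
        · rw [max_eq_right h]; simp
        · rw [max_eq_left h, max_eq_left (by linarith : η ≤ t)]
          have : t ≠ 0 := by linarith
          field_simp
  have h4 : Cle T S := by
    obtain ⟨k, hk⟩ : ∃ k, k = cfc (fun t : ℝ => Real.sqrt (max (t - η) 0 / max t η)) D := ⟨_, rfl⟩
    have hks : star k = k := by rw [hk]; exact (cfc_sa _ _).star_eq
    have hit : cfc (fun t : ℝ => Real.sqrt (max (t - η) 0 / max t η)) R * r = r * k := by
      rw [hk]
      exact itw D R r hDP.sa hRP.sa (by rw [hR, hD, mul_assoc]) _ hkc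
    have e1 : (r * k) * star (r * k) = T := by
      have hit2 := congrArg star hit
      rw [star_mul, (cfc_sa _ _).star_eq] at hit2
      rw [← hit, hit, ← hit2, ← hit, hT]
      have : cfc (fun t : ℝ => Real.sqrt (max (t - η) 0 / max t η)) R * r *
          (star r * cfc (fun t : ℝ => Real.sqrt (max (t - η) 0 / max t η)) R) =
          cfc (fun t : ℝ => Real.sqrt (max (t - η) 0 / max t η)) R * R *
          cfc (fun t : ℝ => Real.sqrt (max (t - η) 0 / max t η)) R := by
        rw [hR]; simp only [mul_assoc]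
      rw [this, conj_cfc R hRP.sa _ hkc]
      apply cfc_congr
      intro t ht
      exact kk t (hRP.spec t ht)
    have e2 : star (r * k) * (r * k) = S := by
      rw [star_mul, hks, hS]
      have : k * star r * (r * k) = k * D * k := by rw [hD]; simp only [mul_assoc]
      rw [this, hk, conj_cfc D hDP.sa _ hkc]
      apply cfc_congr
      intro t ht
      exact kk t (hDP.spec t ht)
    rw [← e1, ← e2]
    exact cle_swap _
  -- `E ≾ E'`
  have h5 : Cle E (q * q) := by
    have hk'c : Continuous fun t : ℝ => Real.sqrt (max (t - δ) 0 / max t δ) :=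
      Real.continuous_sqrt.comp ((by fun_prop : Continuous fun t : ℝ => max (t - δ) 0).div
        (by fun_prop) fun t => (lt_max_of_lt_right hδ).ne')
    obtain ⟨k, hk⟩ : ∃ k, k = cfc (fun t : ℝ => Real.sqrt (max (t - δ) 0 / max t δ)) e := ⟨_, rfl⟩
    have hks : star k = k := by rw [hk]; exact (cfc_sa _ _).star_eq
    have hex : e * x = 0 := by rw [he, mul_assoc, hx, mul_zero]
    have hkx : k * x = 0 := by
      rw [hk, left_zero e x heP.sa hex _ hk'c]
      simp [hδ.le]
    have hx' : (x * k) * (x * k) = 0 := by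
      calc _ = x * (k * x) * k := by simp only [mul_assoc]
        _ = 0 := by rw [hkx, mul_zero, zero_mul]
    have e1 : star (x * k) * (x * k) = cfc (fun t : ℝ => max (t - δ) 0) e := by
      rw [star_mul, hks]
      have : k * star x * (x * k) = k * e * k := by rw [he]; simp only [mul_assoc]
      rw [this, hk, conj_cfc e heP.sa _ hk'c]
      apply cfc_congr
      intro t ht
      have h0 := heP.spec t ht
      simp only
      have hm : 0 < max t δ := lt_max_of_lt_right hδ
      have := Real.mul_self_sqrt (show 0 ≤ max (t - δ) 0 / max t δ from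
        div_nonneg (le_max_right _ _) hm.le)
      calc _ = (Real.sqrt (max (t - δ) 0 / max t δ) * Real.sqrt (max (t - δ) 0 / max t δ)) *
            t := by ring
        _ = max (t - δ) 0 / max t δ * t := by rw [this]
        _ = _ := by
          rcases le_total (t - δ) 0 with h | h
          · rw [max_eq_right h]; simp
          · rw [max_eq_left h, max_eq_left (by linarith : δ ≤ t)]
            have : t ≠ 0 := by linarith
            field_simp
    have e2 : ι (star (x * k) * (x * k)) = q * q := by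
      rw [e1, hqq, hEe]
      exact hom_cfc ι _ (by fun_prop) e heP.sa
    have := ideal_N hA (x * k) hx' ι E hEP (by rw [e2, hqq]; exact hcomp)
    rwa [e2] at this
  have hES : Cle E S := cle_trans _ _ _ h5 (cle_trans _ _ _ h3 h4)
  -- the cut-off
  have hψc : Continuous fun t : ℝ => 1 / max t η :=
    continuous_const.div (by fun_prop) fun t => (lt_max_of_lt_right hη0).ne'
  obtain ⟨ψ, hψ⟩ : ∃ ψ, ψ = cfc (fun t : ℝ => 1 / max t η) D := ⟨_, rfl⟩
  have hψs : star ψ = ψ := by rw [hψ]; exact (cfc_sa _ _).star_eq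
  obtain ⟨φ, hφ⟩ : ∃ φ, φ = D * ψ := ⟨_, rfl⟩
  have hφc : φ = cfc (fun t : ℝ => t * (1 / max t η)) D := by
    rw [hφ, hψ, mul_cfc' D hDP.sa _ hψc]
  have hφs : star φ = φ := by rw [hφc]; exact (cfc_sa _ _).star_eq
  have hφ2 : φ = ψ * D := by
    have := congrArg star hφ
    rwa [hφs, star_mul, hψs, hDP.sa.star_eq] at this
  have hff : Cle (φ * φ) E := by
    have e1 : φ * φ = (ψ * star r) * R * star (ψ * star r) := by
      nth_rewrite 1 [hφ2]
      rw [hφ, star_mul, star_star, hψs, hD, hR]
      simp only [mul_assoc]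
    have e2 : Cle (φ * φ) R := by rw [e1]; exact cle_conj _ _
    have e3 : R ≤ ‖V0‖ • (g * g) := by
      have a1 : V0 ≤ ‖V0‖ • (1 : B) := by
        have := (IsSelfAdjoint.of_nonneg hV0P).le_algebraMap_norm_self
        rwa [Algebra.algebraMap_eq_smul_one] at this
      have a2 := star_left_conjugate_le_conjugate a1 g
      rw [hgs, ← hRV] at a2
      refine a2.trans (le_of_eq ?_)
      rw [mul_smul_comm, mul_one, smul_mul_assoc]
    have hggP : Ps (g * g) := ⟨g, by rw [hgs]⟩
    have e4 : Cle R (‖V0‖ • (g * g)) :=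
      cle_of_le _ _ hRP (ps_of_nonneg (smul_nonneg (norm_nonneg _) (Ps.nonneg' hggP)))
        (ps_of_nonneg (sub_nonneg.2 e3))
    have e5 : Cle (g * g) E := by
      rw [hE]
      apply ideal_N hA x hx ι _ hggP
      intro I hI hEI
      rw [← hE] at hEI
      apply I.mul_mem_left
      have hmc : Continuous fun t : ℝ => max (t - δ / 2) 0 / max t (δ / 2) :=
        hgc.div (by fun_prop) fun t => (lt_max_of_lt_right (by positivity)).ne'
      have : g = E * cfc (fun t : ℝ => max (t - δ / 2) 0 / max t (δ / 2)) E := by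
        rw [hg, mul_cfc' E hEP.sa _ hmc]
        apply cfc_congr
        intro t ht
        simp only
        rcases le_total (t - δ / 2) 0 with h | h
        · rw [max_eq_right h]; simp
        · have : t ≠ 0 := by linarith
          rw [max_eq_left h, max_eq_left (by linarith : δ / 2 ≤ t)]
          field_simp
      rw [this]
      exact I.mul_mem_right _ _ hEI
    exact cle_trans _ _ _ e2 (cle_trans _ _ _ e4 (cle_trans _ _ _
      (cle_smul _ (norm_nonneg _) _) e5))
  obtain ⟨w, hw⟩ : ∃ w, w = (1 - φ) * b * (1 - φ) := ⟨_, rfl⟩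
  have h1φ : star (1 - φ) = 1 - φ := by rw [star_sub, star_one, hφs]
  have hwn : 0 ≤ w := by
    have := star_left_conjugate_nonneg (Ps.nonneg' hb) (1 - φ)
    rwa [h1φ, ← hw] at this
  have hwP : Ps w := ps_of_nonneg hwn
  have hφS : φ * S = S := by
    rw [hφc, hS, cm D (fun t => t * (1 / max t η)) _ (continuous_id'.mul hψc) hηc]
    apply cfc_congr
    intro t ht
    simp only
    rcases le_total (t - η) 0 with h | h
    · rw [max_eq_right h]; simp
    · have : t ≠ 0 := by linarith
      rw [max_eq_left h, max_eq_left (by linarith : η ≤ t)]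
      field_simp
  have hwS : w * S = 0 := by
    rw [hw, mul_assoc, show (1 - φ) * S = 0 by rw [sub_mul, one_mul, hφS, sub_self], mul_zero]
  -- `w + S ≾ b`
  have hZ : Cle (w + S) b := by
    have hm2c : Continuous fun t : ℝ => max (t - η) 0 / (max t η * max t η) :=
      hηc.div (by fun_prop) fun t => (mul_pos (lt_max_of_lt_right hη0) (lt_max_of_lt_right hη0)).ne'
    obtain ⟨M, hM⟩ : ∃ M, M = cfc (fun t : ℝ => max (t - η) 0 / (max t η * max t η)) D :=
      ⟨_, rfl⟩
    have hMs : star M = M := by rw [hM]; exact (cfc_sa _ _).star_eq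
    have e1 : S = D * M * D := by
      rw [hM, mul_cfc' D hDP.sa _ hm2c]
      have h0 := cm D (fun t => t * (max (t - η) 0 / (max t η * max t η))) (fun t => t)
        (continuous_id'.mul hm2c) continuous_id'
      rw [cfc_i D hDP.sa] at h0
      rw [h0, hS]
      apply cfc_congr
      intro t ht
      simp only
      rcases le_total (t - η) 0 with h | h
      · rw [max_eq_right h]; simp
      · have : t ≠ 0 := by linarith
        rw [max_eq_left h, max_eq_left (by linarith : η ≤ t)]
        field_simp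
    obtain ⟨G, hG⟩ : ∃ G, G = 1 - star u * u * s * ψ * s := ⟨_, rfl⟩
    obtain ⟨H, hH⟩ : ∃ H, H = star u * u * s * M * s * star u * u := ⟨_, rfl⟩
    have hHs : star H = H := by
      rw [hH]
      simp only [star_mul, star_star, hss, hMs, mul_assoc]
    have e2 : (1 - φ) * s = s * G := by
      rw [hφ, hG, hDs]; noncomm_ring
    have e3 : w = s * (G * star G) * s := by
      have e4 := congrArg star e2
      rw [star_mul, star_mul, h1φ, hss] at e4
      calc w = ((1 - φ) * s) * (s * (1 - φ)) := by rw [hw, ← hsb]; simp only [mul_assoc]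
        _ = (s * G) * (star G * s) := by rw [e2, e4]
        _ = _ := by simp only [mul_assoc]
    have e5 : S = s * H * s := by
      rw [e1, hDs, hH]; simp only [mul_assoc]
    obtain ⟨Q, hQ⟩ : ∃ Q, Q = G * star G + H := ⟨_, rfl⟩
    have hQs : IsSelfAdjoint Q := by
      rw [hQ, IsSelfAdjoint, star_add, star_mul, star_star, hHs]
    have e6 : w + S = s * Q * s := by
      rw [e3, e5, hQ]; noncomm_ring
    have e7 : Q ≤ ‖Q‖ • (1 : B) := by
      have := hQs.le_algebraMap_norm_self
      rwa [Algebra.algebraMap_eq_smul_one] at this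
    have e8 := star_left_conjugate_le_conjugate e7 s
    rw [hss, ← e6, mul_smul_comm, mul_one, smul_mul_assoc, hsb] at e8
    have e9 : Cle (w + S) (‖Q‖ • b) :=
      cle_of_le _ _ (ps_of_nonneg (add_nonneg hwn (Ps.nonneg' hSP)))
        (ps_of_nonneg (smul_nonneg (norm_nonneg _) (Ps.nonneg' hb)))
        (ps_of_nonneg (sub_nonneg.2 e8))
    exact cle_trans _ _ _ e9 (cle_smul _ (norm_nonneg _) _)
  -- `b ≾ w + φφ`
  have hbw : Cle b (w + φ * φ) := by
    have hφφ : 0 ≤ φ * φ := by
      have := star_mul_self_nonneg φ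
      rwa [hφs] at this
    have a1 : 0 ≤ ((1 - φ) - φ) * b * ((1 - φ) - φ) := by
      have := star_left_conjugate_nonneg (Ps.nonneg' hb) ((1 - φ) - φ)
      rwa [star_sub, h1φ, hφs] at this
    have a2 : ((1 - φ) - φ) * b * ((1 - φ) - φ) = (2 : ℝ) • w + (2 : ℝ) • (φ * b * φ) - b := by
      rw [two_smul, two_smul, hw]; noncomm_ring
    have a3 : φ * b * φ ≤ ‖b‖ • (φ * φ) := by
      have a4 : b ≤ ‖b‖ • (1 : B) := by
        have := hb.sa.le_algebraMap_norm_self
        rwa [Algebra.algebraMap_eq_smul_one] at this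
      have a5 := star_left_conjugate_le_conjugate a4 φ
      rw [hφs] at a5
      refine a5.trans (le_of_eq ?_)
      rw [mul_smul_comm, mul_one, smul_mul_assoc]
    have a6 : b ≤ (2 * (1 + ‖b‖)) • (w + φ * φ) := by
      rw [a2] at a1
      calc b ≤ (2 : ℝ) • w + (2 : ℝ) • (φ * b * φ) := by rw [← sub_nonneg]; exact a1
        _ ≤ (2 : ℝ) • w + (2 : ℝ) • (‖b‖ • (φ * φ)) := by gcongr
        _ ≤ ((2 : ℝ) • w + (2 * ‖b‖) • w) + ((2 : ℝ) • (‖b‖ • (φ * φ)) + (2 : ℝ) • (φ * φ)) :=
            add_le_add (le_add_of_nonneg_right (smul_nonneg (by positivity) hwn))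
              (le_add_of_nonneg_right (smul_nonneg (by norm_num) hφφ))
        _ = _ := by
            rw [smul_smul, ← add_smul, ← add_smul, smul_add]
            congr 2 <;> ring
    have a7 : Cle b ((2 * (1 + ‖b‖)) • (w + φ * φ)) :=
      cle_of_le _ _ hb (ps_of_nonneg (smul_nonneg (by positivity) (add_nonneg hwn hφφ)))
        (ps_of_nonneg (sub_nonneg.2 a6))
    exact cle_trans _ _ _ a7 (cle_smul _ (by positivity) _)
  refine absorb b w S E (φ * φ) hbs hwP hSP hwS hZ hES hff hbw ?_
  intro ε hε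
  obtain ⟨r1, s1, k1, k2, k3⟩ := two_fold hA x hx ε hε
  have im : ∀ a c d : A, ι a * E * star (ι c) - ι d = ι (a * (star x * x) * star c - d) := by
    intro a c d
    rw [hE]
    simp only [map_sub, map_mul, map_star]
  refine ⟨ι r1, ι s1, ?_, ?_, ?_⟩
  · nth_rewrite 2 [hE]
    rw [im]
    exact (NonUnitalStarAlgHom.norm_apply_le ι _).trans_lt k1
  · nth_rewrite 2 [hE]
    rw [im]
    exact (NonUnitalStarAlgHom.norm_apply_le ι _).trans_lt k2
  · have := im r1 s1 0
    rw [map_zero, sub_zero, sub_zero] at this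
    rw [this]
    exact (NonUnitalStarAlgHom.norm_apply_le ι _).trans_lt k3

end Pool.Agent.H898P
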