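import Pool.Agent.H898P.StepL

/-! Crossed products whose closed ideals satisfy the ascending chain condition. -/

set_option autoImplicit false

noncomputable section

namespace Pool.Agent.H898P

open Pool.Agent.H898SR

variable {A B : Type} [CStarAlgebra A] [CStarAlgebra B]

/-- cut-down -/
def cut (E : B) (a : ℝ) : B := cfc (fun t : ℝ => max (t - a) 0) E

theorem cut_factor (E : B) (hE : Ps E) (a a' : ℝ) (h : a' < a) :
    ∃ m : B, cut E a = cut E a' * m := by
  have hc : Continuous fun t : ℝ => max (t - a) 0 / max (t - a') (a - a') :=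
    Continuous.div (by fun_prop) (by fun_prop)
      fun t => (lt_max_of_lt_right (sub_pos.2 h)).ne'
  refine ⟨cfc (fun t : ℝ => max (t - a) 0 / max (t - a') (a - a')) E, ?_⟩
  unfold cut
  rw [cm E (fun t : ℝ => max (t - a') 0) _ (by fun_prop) hc]
  apply cfc_congr
  intro t _
  simp only
  rcases le_total (t - a) 0 with h1 | h1
  · rw [max_eq_right h1]; simp
  · have h2 : a - a' ≤ t - a' := by linarith
    have h3 : 0 < t - a' := by linarith
    rw [max_eq_left h1, max_eq_left h3.le, max_eq_left h2]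
    field_simp

theorem compact_of_acc (hacc : ∀ I : ℕ → TwoSidedIdeal B, (∀ n, IsClosed (I n : Set B)) →
      (∀ n, I n ≤ I (n + 1)) → ∃ N, ∀ n, N ≤ n → I n = I N) (E : B) (hE : Ps E) :
    ∃ δ : ℝ, 0 < δ ∧ InId E (cut E δ) := by
  obtain ⟨N, hN⟩ := hacc (fun n => Pool.Agent.H327R4.Pure.FULLx.K (cut E (1 / ((n : ℝ) + 1))))
    (fun n => fullK_closed _) (fun n => by
      intro z hz
      have hlt : 1 / (((n + 1 : ℕ) : ℝ) + 1) < 1 / ((n : ℝ) + 1) := by
        apply one_div_lt_one_div_of_lt (by positivity)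
        push_cast
        linarith
      obtain ⟨m, hm⟩ := cut_factor E hE _ _ hlt
      refine fullK_inId _ _ hz _ (fullK_closed _) ?_
      rw [hm]
      exact TwoSidedIdeal.mul_mem_right _ _ _ (fullK_mem _))
  refine ⟨1 / ((N : ℝ) + 1), by positivity, ?_⟩
  apply fullK_inId
  refine mem_of_approx _ (fullK_closed _) E fun ε hε => ?_
  obtain ⟨n, hn⟩ := exists_nat_gt (1 / ε)
  have hmem : cut E (1 / (((max n N : ℕ) : ℝ) + 1)) ∈
      Pool.Agent.H327R4.Pure.FULLx.K (cut E (1 / ((N : ℝ) + 1))) := by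
    have h1 := hN (max n N) (le_max_right _ _)
    rw [← h1]
    exact fullK_mem _
  refine ⟨_, hmem, ?_⟩
  obtain ⟨a, ha⟩ : ∃ a : ℝ, a = 1 / (((max n N : ℕ) : ℝ) + 1) := ⟨_, rfl⟩
  have ha0 : 0 < a := by rw [ha]; positivity
  have haε : a < ε := by
    rw [ha, div_lt_iff₀ (by positivity)]
    have h1 : (n : ℝ) ≤ ((max n N : ℕ) : ℝ) := by exact_mod_cast le_max_left n N
    rw [div_lt_iff₀ hε] at hn
    nlinarith
  rw [← ha, norm_sub_rev]
  unfold cut
  rw [cfc_sub_self E hE.sa _ (by fun_prop)]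
  refine lt_of_le_of_lt (norm_cfc_le ha0.le ?_) haε
  intro t ht
  have h0 := hE.spec t ht
  rw [Real.norm_eq_abs, abs_le]
  rcases le_total (t - a) 0 with h | h
  · rw [max_eq_right h]; constructor <;> linarith
  · rw [max_eq_left h]; constructor <;> linarith

theorem acc_pi (hA : PI A) (ι : A →⋆ₐ[ℂ] B) (U : unitary B)
    (α : A ≃⋆ₐ[ℂ] A)
    (hcov : ∀ a : A, (U : B) * ι a * star (U : B) = ι (α a)) (hα : FinRok α)
    (hd : (StarAlgebra.adjoin ℂ (Set.range (ι : A → B) ∪ {(U : B)})).topologicalClosure = ⊤)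
    (hγ : ∀ z : ℂ, ‖z‖ = 1 → ∃ γ : B →⋆ₐ[ℂ] B, IsG ι U z γ)
    (hacc : ∀ I : ℕ → TwoSidedIdeal B, (∀ n, IsClosed (I n : Set B)) →
      (∀ n, I n ≤ I (n + 1)) → ∃ N, ∀ n, N ≤ n → I n = I N) : PI B := by
  refine ⟨fun I hI hc => no_abelian hA ι I hI hc, fun a b ha hb hab => ?_⟩
  have hbP : Ps b := hb
  obtain ⟨N, hNc, hN⟩ := exists_inf_ideal b hbP.sa.star_eq
  have hbN : b ∈ N := by
    by_contra hcon
    obtain ⟨C, _, π, hπK, hπb⟩ := exists_rep N hNc b hb hcon
    obtain ⟨x, hx, hxx, hle, _⟩ := local_pi' π hA ι U α hcov hα hd hγ b hb hπb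
    obtain ⟨δ, hδ, hcomp⟩ := compact_of_acc hacc (ι (star x * x))
      ⟨ι x, by rw [map_mul, map_star]⟩
    have h1 := abs_compact hA ι x hxx b hb hle δ hδ hcomp
    have h2 : ι x ∈ N := by
      rw [hN, ← map_star, ← map_mul]
      exact h1
    exact hx (hπK _ h2)
  have haN := hab N hNc hbN
  obtain ⟨s, hs⟩ := ha
  rw [hs] at haN
  have hsN := mem_of_star_mul N hNc s haN
  rw [hs]
  exact inf_cle _ _ ((hN s).1 hsN)

end Pool.Agent.H898P
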